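import Pool.Agent.Helper83K9.HD.Ton

/-!
Upper bound for averages of the masses of balls centred in an affine plane.
-/

set_option autoImplicit false

namespace Pool.Agent.Helper83K9.HD

open MeasureTheory Set Filter Topology Metric Pool.Agent.TH337.VF
open scoped ENNReal RealInnerProductSpace

open TonL in
theorem av1 : S_AV1 := by
  intro N k φ ν _ z s b Y A hY hYf hA hs hb hsub hlow
  have h1 : ENNReal.ofReal b * volume Y ≤ ∫⁻ p in Y, ν (ball (z + φ p) s) := by
    rw [← setLIntegral_const]
    refine setLIntegral_mono' hY fun p hp => ?_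
    exact ENNReal.ofReal_le_of_le_toReal (hlow p hp)
  have h2 : ∫⁻ x, volume (Y ∩ {p | ‖x - z - φ p‖ < s}) ∂ν ≤
      ∫⁻ x in A, ENNReal.ofReal (om k * s ^ k) ∂ν := by
    rw [← lintegral_indicator hA]
    refine lintegral_mono fun x => ?_
    by_cases hx : x ∈ A
    · rw [indicator_of_mem hx, ← vol_ball k (foot φ (x - z)) hs]
      refine measure_mono fun p hp => ?_
      rw [mem_ball, dist_comm, dist_eq_norm, foot_sub]
      exact (foot_norm φ _).trans_lt hp.2
    · rw [indicator_of_notMem hx, nonpos_iff_eq_zero]
      convert measure_empty (μ := (volume : Measure (E k)))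
      rw [← Set.subset_empty_iff]
      rintro p ⟨hp, hp'⟩
      apply hx
      apply hsub p hp
      rw [mem_ball, dist_eq_norm, ← sub_sub]
      exact hp'
  rw [setLIntegral_const] at h2
  have h3 : ENNReal.ofReal b * volume Y ≤ ENNReal.ofReal (om k * s ^ k) * ν A := by
    refine h1.trans ?_
    rw [TonL.ton φ ν z s Y]
    exact h2
  have h4 := ENNReal.toReal_mono (ENNReal.mul_ne_top ENNReal.ofReal_ne_top (measure_ne_top ν A)) h3
  rw [ENNReal.toReal_mul, ENNReal.toReal_mul, ENNReal.toReal_ofReal hb,
    ENNReal.toReal_ofReal (by have := om_pos k; positivity)] at h4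
  exact h4


end Pool.Agent.Helper83K9.HD
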