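import Pool.Agent.Helper83K9.HD.Ton

/-!
The mass of a neighbourhood of an affine plane.
-/

set_option autoImplicit false

namespace Pool.Agent.Helper83K9.HD

open MeasureTheory Set Filter Topology Metric Pool.Agent.TH337.VF
open scoped ENNReal RealInnerProductSpace

open TonL in
theorem av2 : S_AV2 := by
  intro N m k φ ν _ z ρ τ M hρ hτ hτ1 hM hkm hup
  set S : Set (E N) := {x | x ∈ ball z (2 * ρ) ∧ ∃ p, ‖x - z - φ p‖ ≤ τ * ρ} with hS
  have hok := om_pos k
  have h1 : ∫⁻ p in ball (0 : E k) (3 * ρ), ν (ball (z + φ p) (2 * τ * ρ)) ≤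
      ENNReal.ofReal (M * (2 * τ * ρ) ^ m) * ENNReal.ofReal (om k * (3 * ρ) ^ k) := by
    rw [← vol_ball k 0 (by positivity), ← setLIntegral_const]
    refine setLIntegral_mono' measurableSet_ball fun p hp => ?_
    have h2 := hup (z + φ p) (by
      rw [mem_ball, dist_eq_norm, add_sub_cancel_left, φ.norm_map]
      rwa [mem_ball_zero_iff] at hp)
    exact (ENNReal.le_ofReal_iff_toReal_le (measure_ne_top ν _) (by positivity)).2 h2
  rw [TonL.ton φ ν z _ _] at h1
  have h3 := mul_meas_ge_le_lintegral₀ (μ := ν)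
    (meas φ z (2 * τ * ρ) (ball (0 : E k) (3 * ρ))).aemeasurable
    (ENNReal.ofReal (om k * (τ * ρ) ^ k))
  have h4 : S ⊆ {x | ENNReal.ofReal (om k * (τ * ρ) ^ k) ≤
      volume (ball (0 : E k) (3 * ρ) ∩ {p | ‖x - z - φ p‖ < 2 * τ * ρ})} := by
    rintro x ⟨hx, p, hp⟩
    rw [mem_ofPred_eq, ← vol_ball k (foot φ (x - z)) (by positivity)]
    refine measure_mono fun q hq => ⟨?_, ?_⟩
    · rw [mem_ball, dist_eq_norm] at hq hx
      rw [mem_ball_zero_iff]
      have e : q = (q - foot φ (x - z)) + foot φ (x - z) := by abel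
      have h5 : τ * ρ ≤ ρ := by nlinarith
      calc ‖q‖ = ‖(q - foot φ (x - z)) + foot φ (x - z)‖ := by rw [← e]
        _ ≤ ‖q - foot φ (x - z)‖ + ‖foot φ (x - z)‖ := norm_add_le _ _
        _ ≤ ‖q - foot φ (x - z)‖ + ‖x - z‖ := by
            have := foot_norm φ (x - z)
            linarith
        _ < 3 * ρ := by linarith
    · rw [mem_ball, dist_eq_norm] at hq
      rw [mem_ofPred_eq]
      have e : x - z - φ q = (x - z - φ (foot φ (x - z))) - φ (q - foot φ (x - z)) := by
        rw [map_sub]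
        abel
      calc ‖x - z - φ q‖ ≤ ‖x - z - φ (foot φ (x - z))‖ + ‖φ (q - foot φ (x - z))‖ := by
            rw [e]
            exact norm_sub_le _ _
        _ < τ * ρ + τ * ρ := by
            rw [φ.norm_map]
            have := (foot_min φ (x - z) p).trans hp
            linarith
        _ = 2 * τ * ρ := by ring
  have h5 : ENNReal.ofReal (om k * (τ * ρ) ^ k) * ν S ≤
      ENNReal.ofReal (M * (2 * τ * ρ) ^ m) * ENNReal.ofReal (om k * (3 * ρ) ^ k) :=
    (mul_le_mul_right (measure_mono h4) _).trans (h3.trans h1)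
  have h6 := ENNReal.toReal_mono (ENNReal.mul_ne_top ENNReal.ofReal_ne_top ENNReal.ofReal_ne_top) h5
  rw [ENNReal.toReal_mul, ENNReal.toReal_mul, ENNReal.toReal_ofReal (by positivity),
    ENNReal.toReal_ofReal (by positivity), ENNReal.toReal_ofReal (by positivity)] at h6
  have h7 : τ ^ m = τ ^ (m - k) * τ ^ k := by rw [← pow_add, Nat.sub_add_cancel hkm]
  have h8 : 0 < om k * (τ * ρ) ^ k := by positivity
  change (ν S).toReal ≤ _
  refine le_of_mul_le_mul_left (h6.trans (le_of_eq ?_)) h8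
  rw [mul_pow, mul_pow, mul_pow, mul_pow, h7]
  ring

end Pool.Agent.Helper83K9.HD
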