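import Pool.Agent.Helper83K9.HD.Stm

/-!
Half-density interfaces: basic facts.
-/

namespace Pool.Agent.Helper83K9.HD

open MeasureTheory Set Filter Topology Metric Pool.Agent.TH337.VF
open scoped ENNReal RealInnerProductSpace

variable {N m : ℕ}

lemma om_pos (m : ℕ) : 0 < om m := ENNReal.toReal_pos (omega_pos m) (omega_lt m)

lemma ofReal_om (m : ℕ) : ENNReal.ofReal (om m) = volume (ball (0 : EuclideanSpace ℝ (Fin m)) 1) :=
  ENNReal.ofReal_toReal (omega_lt m)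

lemma Nice.mono {O : Set (E N)} {μ : Measure (E N)} {T : E N → Submodule ℝ (E N)} {Q ε ε' : ℝ}
    (h : Nice m O μ T Q ε) (he : ε ≤ ε') : Nice m O μ T Q ε' := by
  refine ⟨h.isOpen, h.stat, ?_, h.low⟩
  intro a r hr hc
  refine (h.up a r hr hc).trans ?_
  have := om_pos m
  have h1 : 0 ≤ om m * r ^ m := by positivity
  have h2 : (Q + ε) * (om m * r ^ m) ≤ (Q + ε') * (om m * r ^ m) :=
    mul_le_mul_of_nonneg_right (by linarith) h1
  nlinarith

lemma fin_ball {O : Set (E N)} {μ : Measure (E N)} {P : E N → E N →L[ℝ] E N}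
    (h : Stat m O μ P) {a : E N} {R : ℝ} (hR : closedBall a R ⊆ O) : μ (ball a R) < ⊤ :=
  (measure_mono ball_subset_closedBall).trans_lt (h.fin _ hR (isCompact_closedBall a R))

lemma toReal_bd {q : ℝ≥0∞} {R : ℝ} (hR : 0 < R) {x : ℝ≥0∞} (hx : x ≠ ⊤)
    (h : q * (volume (ball (0 : EuclideanSpace ℝ (Fin m)) 1) * ENNReal.ofReal R ^ m) ≤ x) :
    q.toReal * om m * R ^ m ≤ x.toReal := by
  have h1 := ENNReal.toReal_mono hx h
  rw [ENNReal.toReal_mul, ENNReal.toReal_mul, ENNReal.toReal_pow, ENNReal.toReal_ofReal hR.le] at h1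
  rw [mul_assoc]
  exact h1

lemma Low.of_density {O : Set (E N)} {μ : Measure (E N)} {P : E N → E N →L[ℝ] E N}
    (h : Stat m O μ P) {y : E N} {R : ℝ} (hR : closedBall y R ⊆ O) {q : ℝ≥0∞} (hq : q ≠ ⊤)
    (hy : q ≤ density m μ y) : Low m μ q.toReal y R := by
  intro r hr hrR
  have hc : closedBall y r ⊆ O := (closedBall_subset_closedBall hrR).trans hR
  have h1 := density_le h hc hr
  have h2 : q * (volume (ball (0 : EuclideanSpace ℝ (Fin m)) 1) * ENNReal.ofReal r ^ m) ≤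
      μ (ball y r) := (mul_le_mul_left hy _).trans h1
  exact toReal_bd hr (fin_ball h hc).ne h2

/-- the mass ratios at limits of points of density at least `q` -/
lemma Low.of_lim {O : Set (E N)} {μ : Measure (E N)} {P : E N → E N →L[ℝ] E N}
    (h : Stat m O μ P) {y : E N} {R : ℝ} (hR : closedBall y R ⊆ O) {q : ℝ≥0∞} (hq : q ≠ ⊤)
    (hy : ∀ δ : ℝ, 0 < δ → ∃ x ∈ ball y δ, q ≤ density m μ x) : Low m μ q.toReal y R := by
  intro r hr hrR
  have hc : closedBall y r ⊆ O := (closedBall_subset_closedBall hrR).trans hR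
  have h1 := lower h hq hy (ball_subset_closedBall.trans hc) hr
  exact toReal_bd hr (fin_ball h hc).ne h1

/-- a bound for the first order normal part -/
lemma norm_part {O : Set (E N)} {μ : Measure (E N)} {T : E N → Submodule ℝ (E N)} {Q ε : ℝ}
    (hN : Nice m O μ T Q ε) (hQ : 1 ≤ Q) (hε : ε ≤ 1) {z : E N} {ρ κ : ℝ} (hρ : 0 < ρ) (hκ : 0 < κ)
    (hO : closedBall z (20 * ρ) ⊆ O) {L : Submodule ℝ (E N)}
    (hL : ∀ e ∈ L, ‖e‖ ≤ 1 → ∫ x in closedBall z (4 * ρ), ‖nor T x e‖ ^ 2 ∂μ ≤ κ * ρ ^ m)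
    {v : E N} (hv : v ∈ L) (hvρ : ‖v‖ ≤ ρ) :
    ∫ x in closedBall z (4 * ρ), ‖nor T x v‖ ∂μ ≤
      √κ * ((Q + 1) * om m * 5 ^ m + 1) * ρ ^ (m + 1) := by
  have hom := om_pos m
  have hcs : closedBall z (4 * ρ) ⊆ O := (closedBall_subset_closedBall (by linarith)).trans hO
  have hfin : μ (closedBall z (4 * ρ)) < ⊤ := hN.stat.fin _ hcs (isCompact_closedBall _ _)
  have : IsFiniteMeasure (μ.restrict (closedBall z (4 * ρ))) := ⟨by simpa using hfin⟩
  have hnor : ∀ e x, nor T x e = e - pr T x e := fun e x => rfl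
  have hmeas : ∀ e, Measurable fun x => nor T x e := by
    intro e
    have h1 : Measurable fun x => pr T x e :=
      (ContinuousLinearMap.apply ℝ (E N) e).continuous.measurable.comp hN.stat.meas
    exact measurable_const.sub h1
  have hnle : ∀ e x, ‖nor T x e‖ ≤ ‖e‖ := by
    intro e x
    have e1 : nor T x e = (T x)ᗮ.starProjection e := by
      rw [Submodule.starProjection_orthogonal_val]
      rfl
    rw [e1]
    exact Submodule.norm_starProjection_apply_le _ _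
  have hint1 : ∀ e, Integrable (fun x => ‖nor T x e‖) (μ.restrict (closedBall z (4 * ρ))) := by
    intro e
    refine Integrable.of_bound (C := ‖e‖) (hmeas e).norm.aestronglyMeasurable ?_
    filter_upwards with x
    rw [norm_norm]
    exact hnle e x
  have hint2 : ∀ e, Integrable (fun x => ‖nor T x e‖ ^ 2) (μ.restrict (closedBall z (4 * ρ))) := by
    intro e
    refine Integrable.of_bound (C := ‖e‖ ^ 2) ((hmeas e).norm.pow_const 2).aestronglyMeasurable ?_
    filter_upwards with x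
    rw [Real.norm_eq_abs, abs_of_nonneg (by positivity)]
    exact pow_le_pow_left₀ (norm_nonneg _) (hnle e x) 2
  -- second order bound for v
  have h2 : ∫ x in closedBall z (4 * ρ), ‖nor T x v‖ ^ 2 ∂μ ≤ κ * ρ ^ (m + 2) := by
    have h3 := hL (ρ⁻¹ • v) (L.smul_mem _ hv) (by
      rw [norm_smul, norm_inv, Real.norm_eq_abs, abs_of_pos hρ, inv_mul_le_iff₀ hρ, mul_one]
      exact hvρ)
    have h4 : ∀ x, ‖nor T x (ρ⁻¹ • v)‖ ^ 2 = (ρ⁻¹) ^ 2 * ‖nor T x v‖ ^ 2 := by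
      intro x
      rw [hnor, hnor, map_smul, ← smul_sub, norm_smul, mul_pow, norm_inv, Real.norm_eq_abs,
        abs_of_pos hρ]
    simp only [h4] at h3
    rw [integral_const_mul] at h3
    have h5 : (ρ⁻¹) ^ 2 * ρ ^ 2 = 1 := by
      field_simp
    have h6 : 0 ≤ ∫ x in closedBall z (4 * ρ), ‖nor T x v‖ ^ 2 ∂μ :=
      integral_nonneg fun x => by positivity
    calc ∫ x in closedBall z (4 * ρ), ‖nor T x v‖ ^ 2 ∂μ
        = ((ρ⁻¹) ^ 2 * ∫ x in closedBall z (4 * ρ), ‖nor T x v‖ ^ 2 ∂μ) * ρ ^ 2 := by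
          rw [mul_comm ((ρ⁻¹) ^ 2), mul_assoc, h5, mul_one]
      _ ≤ (κ * ρ ^ m) * ρ ^ 2 := mul_le_mul_of_nonneg_right h3 (by positivity)
      _ = κ * ρ ^ (m + 2) := by ring
  have h3 : μ.real (closedBall z (4 * ρ)) ≤ (Q + 1) * om m * 5 ^ m * ρ ^ m := by
    have h4 : closedBall z (4 * ρ) ⊆ ball z (5 * ρ) := closedBall_subset_ball (by linarith)
    have h5 : closedBall z (5 * ρ) ⊆ O := (closedBall_subset_closedBall (by linarith)).trans hO
    have h6 := measureReal_mono h4 (fin_ball hN.stat h5).ne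
    have h7 := (hN.mono hε).up z (5 * ρ) (by positivity) h5
    refine (h6.trans h7).trans (le_of_eq ?_)
    rw [mul_pow]
    ring
  have hsκ : 0 < √κ := Real.sqrt_pos.2 hκ
  have hsκ2 : √κ * √κ = κ := Real.mul_self_sqrt hκ.le
  have hpt : ∀ x, ‖nor T x v‖ ≤ √κ * ρ + (√κ * ρ)⁻¹ * ‖nor T x v‖ ^ 2 := by
    intro x
    have hp : 0 < √κ * ρ := by positivity
    have h4 : 0 ≤ ‖nor T x v‖ := norm_nonneg _
    rw [← sub_nonneg]
    have e : √κ * ρ + (√κ * ρ)⁻¹ * ‖nor T x v‖ ^ 2 - ‖nor T x v‖ =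
        (√κ * ρ)⁻¹ * ((√κ * ρ) ^ 2 + ‖nor T x v‖ ^ 2 - (√κ * ρ) * ‖nor T x v‖) := by
      field_simp
    rw [e]
    apply mul_nonneg (by positivity)
    nlinarith [sq_nonneg (√κ * ρ - ‖nor T x v‖)]
  calc ∫ x in closedBall z (4 * ρ), ‖nor T x v‖ ∂μ
      ≤ ∫ x in closedBall z (4 * ρ), (√κ * ρ + (√κ * ρ)⁻¹ * ‖nor T x v‖ ^ 2) ∂μ := by
        apply integral_mono (hint1 v) ((integrable_const _).add ((hint2 v).const_mul _))
        exact hpt
    _ = √κ * ρ * μ.real (closedBall z (4 * ρ)) +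
        (√κ * ρ)⁻¹ * ∫ x in closedBall z (4 * ρ), ‖nor T x v‖ ^ 2 ∂μ := by
        rw [integral_add (integrable_const _) ((hint2 v).const_mul _)]
        congr 1
        · rw [setIntegral_const, smul_eq_mul]
          ring
        · rw [integral_const_mul]
    _ ≤ √κ * ρ * ((Q + 1) * om m * 5 ^ m * ρ ^ m) + (√κ * ρ)⁻¹ * (κ * ρ ^ (m + 2)) := by
        gcongr
    _ = √κ * ((Q + 1) * om m * 5 ^ m + 1) * ρ ^ (m + 1) := by
        have e : (√κ * ρ)⁻¹ * (κ * ρ ^ (m + 2)) = √κ * ρ ^ (m + 1) := by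
          have e2 : (√κ * ρ)⁻¹ * (κ * ρ ^ (m + 2)) =
              ((√κ)⁻¹ * √κ) * √κ * (ρ⁻¹ * ρ ^ (m + 2)) := by
            have e3 : κ * ρ ^ (m + 2) = (√κ * √κ) * ρ ^ (m + 2) := by rw [hsκ2]
            rw [e3, mul_inv]
            ring
          rw [e2, inv_mul_cancel₀ hsκ.ne', one_mul]
          congr 1
          rw [pow_succ' ρ (m + 1), ← mul_assoc, inv_mul_cancel₀ hρ.ne', one_mul]
        rw [e]
        ring

end Pool.Agent.Helper83K9.HD
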