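import Pool.Agent.TH337.VF.Side
import Pool.Agent.TH337.VF.Local

/-!
Half-density interfaces of stationary varifolds: common definitions.
-/

namespace Pool.Agent.Helper83K9.HD

open MeasureTheory Set Filter Topology Metric Pool.Agent.TH337.VF
open scoped ENNReal RealInnerProductSpace

/-- volume of the unit ball of `ℝ^m` -/
noncomputable def om (m : ℕ) : ℝ := (volume (ball (0 : EuclideanSpace ℝ (Fin m)) 1)).toReal

/-- the plane field as a field of orthogonal projections -/
noncomputable def pr {N : ℕ} (T : E N → Submodule ℝ (E N)) (x : E N) : E N →L[ℝ] E N :=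
  (T x).starProjection

/-- the part of `v` normal to the plane at `x` -/
noncomputable def nor {N : ℕ} (T : E N → Submodule ℝ (E N)) (x v : E N) : E N :=
  v - (T x).starProjection v

/-- `y` is a point whose mass ratios up to scale `R` are at least `Q` -/
def Low {N : ℕ} (m : ℕ) (μ : Measure (E N)) (Q : ℝ) (y : E N) (R : ℝ) : Prop :=
  ∀ r : ℝ, 0 < r → r ≤ R → Q * om m * r ^ m ≤ μ.real (ball y r)

/-- a stationary varifold in `O` all of whose mass ratios are at most `Q + ε`, and at least one at
points of the support -/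
structure Nice {N : ℕ} (m : ℕ) (O : Set (E N)) (μ : Measure (E N)) (T : E N → Submodule ℝ (E N))
    (Q ε : ℝ) : Prop where
  isOpen : IsOpen O
  stat : Stat m O μ (pr T)
  up : ∀ (a : E N) (r : ℝ), 0 < r → closedBall a r ⊆ O → μ.real (ball a r) ≤ (Q + ε) * om m * r ^ m
  low : ∀ a ∈ μ.support, ∀ r : ℝ, 0 < r → closedBall a r ⊆ O → om m * r ^ m ≤ μ.real (ball a r)

end Pool.Agent.Helper83K9.HD
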