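import Pool.Agent.Helper83K9.HD.Uni

/-!
Half-density interfaces: localization, the Baire category argument.
-/

namespace Pool.Agent.Helper83K9.HD

open MeasureTheory Set Filter Topology Metric Pool.Agent.TH337.VF
open scoped ENNReal RealInnerProductSpace

variable {N m : ℕ}

lemma Nice.sub {U O : Set (E N)} {μ : Measure (E N)} {T : E N → Submodule ℝ (E N)} {Q ε : ℝ}
    (h : Nice m U μ T Q ε) (hO : IsOpen O) (hOU : O ⊆ U) : Nice m O μ T Q ε where
  isOpen := hO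
  stat := h.stat.sub hOU
  up := fun a r hr hc => h.up a r hr (hc.trans hOU)
  low := fun a ha r hr hc => h.low a ha r hr (hc.trans hOU)

lemma radius_le (hN : 1 ≤ N) {a x₀ : E N} {r δ : ℝ} (hr : 0 < r)
    (h : closedBall a r ⊆ ball x₀ δ) : r + dist a x₀ < δ := by
  by_cases hax : a = x₀
  · subst hax
    have : Nonempty (Fin N) := ⟨⟨0, hN⟩⟩
    obtain ⟨v, hv⟩ := exists_norm_eq (E N) hr.le
    have h1 : a + v ∈ closedBall a r := by
      rw [mem_closedBall, dist_eq_norm, add_sub_cancel_left, hv]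
    have h2 := h h1
    rw [mem_ball, dist_eq_norm, add_sub_cancel_left, hv] at h2
    rw [dist_self, add_zero]
    exact h2
  · have hd : 0 < ‖a - x₀‖ := norm_pos_iff.2 (sub_ne_zero.2 hax)
    have h1 : a + (r / ‖a - x₀‖) • (a - x₀) ∈ closedBall a r := by
      rw [mem_closedBall, dist_eq_norm, add_sub_cancel_left, norm_smul, norm_div, norm_norm,
        Real.norm_of_nonneg hr.le, div_mul_cancel₀ _ hd.ne']
    have h2 := h h1
    have e : a + (r / ‖a - x₀‖) • (a - x₀) - x₀ = (1 + r / ‖a - x₀‖) • (a - x₀) := by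
      rw [add_smul, one_smul]
      abel
    rw [mem_ball, dist_eq_norm, e, norm_smul, Real.norm_of_nonneg (by positivity), add_mul,
      one_mul, div_mul_cancel₀ _ hd.ne'] at h2
    rw [dist_eq_norm]
    linarith

/-- near `x₀` all mass ratios are less than `Θ(x₀) + ε` -/
lemma nice_near (hN : 1 ≤ N) {U : Set (E N)} (hU : IsOpen U) {μ : Measure (E N)}
    {T : E N → Submodule ℝ (E N)} (hS : Stat m U μ (pr T))
    (h1 : ∀ᵐ x ∂(μ.restrict U), 1 ≤ density m μ x) {x₀ : E N} (hx₀ : x₀ ∈ U) {ε : ℝ} (hε : 0 < ε) :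
    ∃ δ : ℝ, 0 < δ ∧ ball x₀ δ ⊆ U ∧ Nice m (ball x₀ δ) μ T (density m μ x₀).toReal ε := by
  have hom := om_pos m
  set Q := density m μ x₀ with hQ
  have hQt : Q ≠ ⊤ := density_lt_top hS hU hx₀
  set q : ℝ := Q.toReal with hq
  have hq0 : 0 ≤ q := ENNReal.toReal_nonneg
  obtain ⟨R₀, hR₀, hRU⟩ := Metric.isOpen_iff.1 hU x₀ hx₀
  have h3 : Q < Q + ENNReal.ofReal (ε / 2) :=
    ENNReal.lt_add_right hQt (ENNReal.ofReal_pos.2 (by positivity)).ne'
  have h2 : ∀ᶠ r : ℝ in 𝓝[>] 0, μ (ball x₀ r) /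
      (volume (ball (0 : EuclideanSpace ℝ (Fin m)) 1) * ENNReal.ofReal r ^ m) <
      Q + ENNReal.ofReal (ε / 2) := eventually_lt_of_limsup_lt h3
  obtain ⟨R, hR1, hR2⟩ := (h2.and (Ioo_mem_nhdsGT hR₀)).exists
  have hR0 : 0 < R := hR2.1
  have hcU : closedBall x₀ R ⊆ U := (closedBall_subset_ball hR2.2).trans hRU
  have hR' : ENNReal.ofReal R ≠ 0 := (ENNReal.ofReal_pos.2 hR0).ne'
  have h4 : μ (ball x₀ R) < (Q + ENNReal.ofReal (ε / 2)) *
      (volume (ball (0 : EuclideanSpace ℝ (Fin m)) 1) * ENNReal.ofReal R ^ m) :=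
    (ENNReal.div_lt_iff (Or.inl (mul_ne_zero (omega_pos m) (pow_ne_zero _ hR')))
      (Or.inl (ENNReal.mul_ne_top (omega_lt m) (ENNReal.pow_ne_top ENNReal.ofReal_ne_top)))).1 hR1
  have h5 : μ.real (ball x₀ R) ≤ (q + ε / 2) * om m * R ^ m := by
    have h6 := ENNReal.toReal_mono (ENNReal.mul_ne_top (ENNReal.add_ne_top.2
      ⟨hQt, ENNReal.ofReal_ne_top⟩) (ENNReal.mul_ne_top (omega_lt m)
      (ENNReal.pow_ne_top ENNReal.ofReal_ne_top))) h4.le
    rw [ENNReal.toReal_mul, ENNReal.toReal_add hQt ENNReal.ofReal_ne_top,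
      ENNReal.toReal_ofReal (by positivity), ENNReal.toReal_mul, ENNReal.toReal_pow,
      ENNReal.toReal_ofReal hR0.le] at h6
    rw [mul_assoc]
    exact h6
  -- choose δ
  obtain ⟨δ, hδ1, hδ2⟩ : ∃ δ : ℝ, (q + ε / 2) * R ^ m < (q + ε) * (R - δ) ^ m ∧ δ ∈ Ioo 0 R := by
    have h6 : Tendsto (fun δ : ℝ => (q + ε) * (R - δ) ^ m) (𝓝[>] 0) (𝓝 ((q + ε) * (R - 0) ^ m)) := by
      apply tendsto_nhdsWithin_of_tendsto_nhds
      have : Continuous fun δ : ℝ => (q + ε) * (R - δ) ^ m := by fun_prop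
      exact this.tendsto 0
    rw [sub_zero] at h6
    have h7 : (q + ε / 2) * R ^ m < (q + ε) * R ^ m := by
      have : 0 < R ^ m := by positivity
      nlinarith
    exact ((h6.eventually (lt_mem_nhds h7)).and (Ioo_mem_nhdsGT hR0)).exists
  have hδU : ball x₀ δ ⊆ U := ((ball_subset_ball hδ2.2.le).trans ball_subset_closedBall).trans hcU
  refine ⟨δ, hδ2.1, hδU, isOpen_ball, hS.sub hδU, ?_, ?_⟩
  · intro a r hr hc
    have h6 := radius_le hN hr hc
    have hd0 : 0 ≤ dist a x₀ := dist_nonneg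
    set R' : ℝ := R - dist a x₀ with hR'
    have hR'0 : 0 < R' := by linarith [hδ2.2]
    have hsub : ball a R' ⊆ ball x₀ R := by
      apply ball_subset_ball'
      rw [hR']
      linarith
    have hcsub : closedBall a R' ⊆ U := by
      refine subset_trans ?_ hcU
      apply closedBall_subset_closedBall'
      rw [hR']
      linarith
    have h7 := mono hS hcsub hr (by linarith [hδ2.2])
    have h8 := measureReal_mono hsub (fin_ball hS hcU).ne
    rw [div_le_div_iff₀ (by positivity) (by positivity)] at h7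
    have h9 : (R - δ) ^ m ≤ R' ^ m := pow_le_pow_left₀ (by linarith [hδ2.2]) (by linarith) m
    have h10 : μ.real (ball x₀ R) ≤ (q + ε) * om m * R' ^ m := by
      refine h5.trans ?_
      have h11 : (q + ε) * (R - δ) ^ m ≤ (q + ε) * R' ^ m :=
        mul_le_mul_of_nonneg_left h9 (by positivity)
      nlinarith
    have h11 : μ.real (ball a r) * R' ^ m ≤ ((q + ε) * om m * r ^ m) * R' ^ m := by
      refine h7.trans ?_
      have h12 : 0 ≤ r ^ m := by positivity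
      nlinarith [mul_le_mul_of_nonneg_right (h8.trans h10) h12]
    exact le_of_mul_le_mul_right h11 (by positivity)
  · intro a ha r hr hc
    have h6 := Low.of_lim (hS.sub hδU) hc (q := 1) ENNReal.one_ne_top (by
      intro ξ hξ
      have haδ : a ∈ ball x₀ δ := hc (mem_closedBall_self hr.le)
      obtain ⟨r', hr', hrO⟩ := Metric.isOpen_iff.1 (isOpen_ball (x := x₀) (ε := δ)) a haδ
      rw [Measure.mem_support_iff_forall] at ha
      have hne : μ (ball a (min ξ r')) ≠ 0 := (ha _ (ball_mem_nhds a (lt_min hξ hr'))).ne'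
      have hsub : ball a (min ξ r') ⊆ U := ((ball_subset_ball (min_le_right _ _)).trans hrO).trans hδU
      obtain ⟨x, hx1, hx2⟩ := Measure.exists_mem_of_measure_ne_zero_of_ae hne
        (ae_restrict_of_ae_restrict_of_subset hsub h1)
      exact ⟨x, ball_subset_ball (min_le_left _ _) hx1, hx2⟩)
    have h7 := h6 r hr le_rfl
    simpa using h7

/-- the Baire category argument -/
theorem baire_half (hm : 1 ≤ m) {U : Set (E N)} (hU : IsOpen U) {μ : Measure (E N)}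
    {P : E N → E N →L[ℝ] E N} (hS : Stat m U μ P) {S : Set (E N)}
    {q q' : ℝ≥0∞} (hq : q ≠ ⊤) (hq' : q' ≠ ⊤)
    (hqS : ∀ᵐ x ∂(μ.restrict U), x ∈ S → q ≤ density m μ x)
    (hqS' : ∀ᵐ x ∂(μ.restrict U), x ∈ Sᶜ → q' ≤ density m μ x)
    (hlt : ∀ x ∈ U, density m μ x < q + q')
    (C : ℕ → Set (E N)) (hC : ∀ n, IsClosed (C n))
    (hC0 : ∀ n, μH[((m - 1 : ℕ):ℝ)] (C n) ≠ ⊤) {Z : Set (E N)}
    (hZ : μH[((m - 1 : ℕ):ℝ)] Z = 0)
    (hz' : ∀ z ∈ ifc U μ S, (∃ n, z ∈ C n) → z ∉ Z →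
      upperDens m μ S z = 0 ∨ upperDens m μ Sᶜ z = 0) {t : ℝ≥0∞}
    (hun : ∀ O : Set (E N), IsOpen O → O ⊆ U → ∀ A : Set (E N), (A = S ∨ A = Sᶜ) →
      ∀ r₀ : ℝ, 0 < r₀ → ∀ c : ℝ≥0∞, c < t → (∀ z ∈ ifc O μ S, ∀ r : ℝ, 0 < r → r < r₀ →
        μ (ball z r ∩ A) ≤ c * (volume (ball (0 : EuclideanSpace ℝ (Fin m)) 1) *
          ENNReal.ofReal r ^ m)) → ifc O μ S = ∅)
    (hz : ∀ z ∈ ifc U μ S, (∀ n, z ∉ C n) → upperDens m μ S z < t ∨ upperDens m μ Sᶜ z < t) :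
    ifc U μ S = ∅ := by
  classical
  by_contra hne
  obtain ⟨z₁, hz₁⟩ := nonempty_iff_ne_empty.2 hne
  obtain ⟨R₀, hR₀, hRU⟩ := Metric.isOpen_iff.1 hU z₁ hz₁.1
  set R := R₀ / 2 with hR
  have hR0 : 0 < R := by positivity
  have hcU : closedBall z₁ R ⊆ U := (closedBall_subset_ball (by linarith)).trans hRU
  set J : Set (E N) := ifc U μ S ∩ ball z₁ R with hJ
  set F : Set (E N) := closure J with hF
  have hFb : F ⊆ closedBall z₁ R :=
    closure_minimal (inter_subset_right.trans ball_subset_closedBall) isClosed_closedBall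
  have hFn : F ⊆ (nn μ S ∪ nn μ Sᶜ)ᶜ :=
    closure_minimal (fun z hz => hz.1.2) ((isOpen_nn μ S).union (isOpen_nn μ Sᶜ)).isClosed_compl
  have hFI : F ⊆ ifc U μ S := fun z hz => ⟨hcU (hFb hz), hFn hz⟩
  have hFc : IsCompact F := (isCompact_closedBall z₁ R).of_isClosed_subset isClosed_closure hFb
  have hz₁J : z₁ ∈ J := ⟨hz₁, mem_ball_self hR0⟩
  have : CompactSpace F := isCompact_iff_compactSpace.1 hFc
  have : Nonempty F := ⟨⟨z₁, subset_closure hz₁J⟩⟩
  let f : (ℕ ⊕ ((ℕ × ℚ) ⊕ (ℕ × ℚ))) → Set (E N) := fun i => match i with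
    | Sum.inl n => C n
    | Sum.inr (Sum.inl i) => GG m μ S t i
    | Sum.inr (Sum.inr i) => GG m μ Sᶜ t i
  have hfc : ∀ i, IsClosed (f i) := by
    rintro (n | i | i)
    · exact hC n
    · exact isClosed_GG m μ S t i
    · exact isClosed_GG m μ Sᶜ t i
  have hfU : ⋃ i, (Subtype.val ⁻¹' (f i) : Set F) = univ := by
    rw [eq_univ_iff_forall]
    intro z
    rw [mem_iUnion]
    by_cases hzC : ∀ n, (z : E N) ∉ C n
    · rcases hz z.1 (hFI z.2) hzC with h | h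
      · obtain ⟨i, hi⟩ := mem_GG h
        exact ⟨Sum.inr (Sum.inl i), hi⟩
      · obtain ⟨i, hi⟩ := mem_GG h
        exact ⟨Sum.inr (Sum.inr i), hi⟩
    · push Not at hzC
      obtain ⟨n, hn⟩ := hzC
      exact ⟨Sum.inl n, hn⟩
  obtain ⟨i, hi⟩ := nonempty_interior_of_iUnion_of_closed
    (fun i => (hfc i).preimage continuous_subtype_val) hfU
  obtain ⟨w, hw⟩ := hi
  rw [mem_interior] at hw
  obtain ⟨V, hVf, hVo, hwV⟩ := hw
  obtain ⟨O₁, hO₁, rfl⟩ := isOpen_induced_iff.1 hVo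
  have hO₁f : ∀ z ∈ F, z ∈ O₁ → z ∈ f i := fun z hz hzO => hVf (a := ⟨z, hz⟩) hzO
  -- a point of J in O₁
  have hwF : (w : E N) ∈ closure J := w.2
  obtain ⟨p, hpO, hpJ⟩ := mem_closure_iff.1 hwF O₁ hO₁ hwV
  have hpF : p ∈ F := subset_closure hpJ
  have hpf : p ∈ f i := hO₁f p hpF hpO
  set O₂ : Set (E N) := O₁ ∩ ball z₁ R with hO₂
  have hO₂o : IsOpen O₂ := hO₁.inter isOpen_ball
  have hO₂U : O₂ ⊆ U := inter_subset_right.trans (ball_subset_closedBall.trans hcU)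
  have hpI : p ∈ ifc O₂ μ S := ⟨⟨hpO, hpJ.2⟩, hpJ.1.2⟩
  have hall : ∀ z ∈ ifc O₂ μ S, z ∈ f i := by
    intro z hz
    exact hO₁f z (subset_closure ⟨⟨hO₂U hz.1, hz.2⟩, hz.1.2⟩) hz.1.1
  rcases i with n | ⟨k, c⟩ | ⟨k, c⟩
  · have he : ifc O₂ μ S = ∅ := by
      apply finite_ifc hm hS hO₂o hO₂U hq hq' hqS hqS' hlt _ hZ
      · intro z hz hzZ
        exact hz' z ⟨hO₂U hz.1, hz.2⟩ ⟨n, hall z hz⟩ hzZ
      · exact ((measure_mono (fun z hz => hall z hz)).trans_lt (lt_top_iff_ne_top.2 (hC0 n))).ne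
    rw [he] at hpI
    exact hpI
  · have he : ifc O₂ μ S = ∅ := by
      apply hun O₂ hO₂o hO₂U S (Or.inl rfl) (1 / ((k:ℝ) + 1)) (by positivity)
        ((Real.toNNReal c : NNReal) : ℝ≥0∞) hpf.1
      intro z hz r hr hrk
      exact (hall z hz).2 r hr hrk
    rw [he] at hpI
    exact hpI
  · have he : ifc O₂ μ S = ∅ := by
      apply hun O₂ hO₂o hO₂U Sᶜ (Or.inr rfl) (1 / ((k:ℝ) + 1)) (by positivity)
        ((Real.toNNReal c : NNReal) : ℝ≥0∞) hpf.1
      intro z hz r hr hrk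
      exact (hall z hz).2 r hr hrk
    rw [he] at hpI
    exact hpI

end Pool.Agent.Helper83K9.HD
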