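import Pool.Agent.Helper83K9.HD.Stm

set_option autoImplicit false

/-! # [HB] volume of half balls -/

namespace Pool.Agent.Helper83K9.HD

open MeasureTheory Set Filter Topology Metric Pool.Agent.TH337.VF
open scoped ENNReal RealInnerProductSpace

namespace Hb

/-- open half ball -/
def Hf {m : ℕ} (e : E m) : Set (E m) := {p | ‖p‖ < 1 ∧ 0 < ⟪p, e⟫}

/-- closed smaller half ball -/
def Sf {m : ℕ} (e : E m) (τ : ℝ) : Set (E m) := {p | ‖p‖ ≤ 1 - τ ∧ τ ≤ ⟪p, e⟫}

theorem half {m : ℕ} (e : E m) (he : ‖e‖ = 1) : om m = 2 * volume.real (Hf e) := by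
  have mi : Measurable fun p : E m => ⟪p, e⟫ := by fun_prop
  have hmH : MeasurableSet (Hf e) := by
    have i1 : MeasurableSet {p : E m | ‖p‖ < 1} := measurableSet_lt measurable_norm measurable_const
    have i2 : MeasurableSet {p : E m | 0 < ⟪p, e⟫} := measurableSet_lt measurable_const mi
    exact i1.inter i2
  set Hm : Set (E m) := {p | ‖p‖ < 1 ∧ ⟪p, e⟫ < 0} with hHm
  have hmHm : MeasurableSet Hm := by
    have i1 : MeasurableSet {p : E m | ‖p‖ < 1} := measurableSet_lt measurable_norm measurable_const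
    have i2 : MeasurableSet {p : E m | ⟪p, e⟫ < 0} := measurableSet_lt mi measurable_const
    exact i1.inter i2
  have hZ : volume {p : E m | ⟪p, e⟫ = 0} = 0 := by
    have h1 : {p : E m | ⟪p, e⟫ = 0} = ((ℝ ∙ e)ᗮ : Submodule ℝ (E m)) := by
      ext p
      simp only [mem_ofPred_eq, SetLike.mem_coe, Submodule.mem_orthogonal_singleton_iff_inner_left]
    rw [h1]
    apply Measure.addHaar_submodule
    intro htop
    have h2 : e ∈ ((ℝ ∙ e)ᗮ : Submodule ℝ (E m)) := by rw [htop]; trivial
    rw [Submodule.mem_orthogonal_singleton_iff_inner_left, real_inner_self_eq_norm_sq, he] at h2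
    norm_num at h2
  have hneg : volume Hm = volume (Hf e) := by
    have h1 : Hm = Neg.neg ⁻¹' (Hf e) := by
      ext p
      simp only [hHm, Hf, mem_ofPred_eq, mem_preimage, norm_neg, inner_neg_left]
      constructor
      · rintro ⟨h1, h2⟩; exact ⟨h1, by linarith⟩
      · rintro ⟨h1, h2⟩; exact ⟨h1, by linarith⟩
    rw [h1]
    exact (Measure.measurePreserving_neg (volume : Measure (E m))).measure_preimage
      hmH.nullMeasurableSet
  have hball : (ball (0 : E m) 1) = (Hf e ∪ Hm) ∪ (ball (0 : E m) 1 ∩ {p : E m | ⟪p, e⟫ = 0}) := by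
    ext p
    simp only [mem_ball_zero_iff, mem_union, mem_inter_iff, hHm, Hf, mem_ofPred_eq]
    constructor
    · intro h
      rcases lt_trichotomy (0 : ℝ) ⟪p, e⟫ with h1 | h1 | h1
      · exact Or.inl (Or.inl ⟨h, h1⟩)
      · exact Or.inr ⟨h, h1.symm⟩
      · exact Or.inl (Or.inr ⟨h, h1⟩)
    · rintro ((h | h) | h)
      · exact h.1
      · exact h.1
      · exact h.1
  have hdisj : Disjoint (Hf e) Hm := by
    rw [Set.disjoint_left]
    rintro p h1 h2
    have := h1.2
    have := h2.2
    linarith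
  have hv : volume (ball (0 : E m) 1) = volume (Hf e) + volume (Hf e) := by
    apply le_antisymm
    · rw [hball]
      refine le_trans (measure_union_le _ _) ?_
      rw [measure_union hdisj hmHm, hneg, measure_mono_null inter_subset_right hZ, add_zero]
    · conv_lhs => rw [← hneg]
      rw [hneg]
      conv_lhs =>
        enter [2]
        rw [← hneg]
      rw [← measure_union hdisj hmHm]
      apply measure_mono
      rintro p (h | h)
      · exact mem_ball_zero_iff.2 h.1
      · exact mem_ball_zero_iff.2 h.1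
  have hfin : volume (Hf e) ≠ ⊤ := by
    refine ne_top_of_le_ne_top (measure_ball_lt_top (x := (0 : E m)) (r := 1)).ne
      (measure_mono ?_)
    intro p h
    exact mem_ball_zero_iff.2 h.1
  unfold om
  rw [hv, ENNReal.toReal_add hfin hfin]
  simp only [measureReal_def]
  ring

theorem rot {m : ℕ} (e e' : E m) (he : ‖e‖ = 1) (he' : ‖e'‖ = 1) (τ : ℝ) :
    volume.real (Sf e τ) = volume.real (Sf e' τ) := by
  set ρ := Submodule.reflection ((ℝ ∙ (e - e'))ᗮ : Submodule ℝ (E m)) with hρ
  have h1 : ρ e = e' := Submodule.reflection_sub (by rw [he, he'])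
  have h2 : Sf e τ = ρ ⁻¹' (Sf e' τ) := by
    ext p
    simp only [Sf, mem_ofPred_eq, mem_preimage, LinearIsometryEquiv.norm_map]
    rw [← h1, LinearIsometryEquiv.inner_map_map]
  have mi : Measurable fun p : E m => ⟪p, e'⟫ := by fun_prop
  have hm : MeasurableSet (Sf e' τ) := by
    have i1 : MeasurableSet {p : E m | ‖p‖ ≤ 1 - τ} :=
      measurableSet_le measurable_norm measurable_const
    have i2 : MeasurableSet {p : E m | τ ≤ ⟪p, e'⟫} := measurableSet_le measurable_const mi
    exact i1.inter i2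
  simp only [measureReal_def]
  rw [h2, (LinearIsometryEquiv.measurePreserving ρ).measure_preimage hm.nullMeasurableSet]

end Hb

open Hb in
theorem hb : S_HB := by
  intro m hm κ hκ
  set e0 : E m := EuclideanSpace.single (⟨0, hm⟩ : Fin m) (1 : ℝ) with he0
  have hn0 : ‖e0‖ = 1 := by rw [he0]; simp
  have hom : 0 < om m := by
    unfold om
    exact ENNReal.toReal_pos (measure_ball_pos _ _ one_pos).ne' measure_ball_lt_top.ne
  have hhalf := half e0 hn0
  -- the sets increase to the half ball
  let s : ℕ → Set (E m) := fun n => Sf e0 (1 / ((n : ℝ) + 2))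
  have hs : Monotone s := by
    intro a b hab p hp
    have h1 : 1 / ((b : ℝ) + 2) ≤ 1 / ((a : ℝ) + 2) := by
      apply one_div_le_one_div_of_le
      · positivity
      · have : (a : ℝ) ≤ b := by exact_mod_cast hab
        linarith
    exact ⟨hp.1.trans (by linarith), h1.trans hp.2⟩
  have hU : ⋃ n, s n = Hf e0 := by
    ext p
    simp only [mem_iUnion, s, Sf, Hf, mem_ofPred_eq]
    constructor
    · rintro ⟨n, h1, h2⟩
      have : (0 : ℝ) < 1 / ((n : ℝ) + 2) := by positivity
      exact ⟨by linarith, by linarith⟩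
    · rintro ⟨h1, h2⟩
      obtain ⟨n, hn⟩ := exists_nat_one_div_lt (lt_min (sub_pos.2 h1) h2)
      have h3 : 1 / ((n : ℝ) + 2) ≤ 1 / ((n : ℝ) + 1) := by
        apply one_div_le_one_div_of_le
        · positivity
        · linarith
      have h4 := hn.trans_le (min_le_left _ _)
      have h5 := hn.trans_le (min_le_right _ _)
      exact ⟨n, by linarith, by linarith⟩
  have hlim : Tendsto (fun n => volume (s n)) atTop (𝓝 (volume (Hf e0))) := by
    rw [← hU]
    exact tendsto_measure_iUnion_atTop hs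
  have hfin : volume (Hf e0) ≠ ⊤ := by
    refine ne_top_of_le_ne_top (measure_ball_lt_top (x := (0 : E m)) (r := 1)).ne
      (measure_mono ?_)
    intro p h
    exact mem_ball_zero_iff.2 h.1
  have hlim' : Tendsto (fun n => volume.real (s n)) atTop (𝓝 (volume.real (Hf e0))) :=
    (ENNReal.tendsto_toReal hfin).comp hlim
  have hlt : (1 / 2 - κ) * om m < volume.real (Hf e0) := by
    nlinarith [mul_pos hκ hom]
  obtain ⟨n, hn⟩ := (hlim'.eventually (lt_mem_nhds hlt)).exists
  refine ⟨1 / ((n : ℝ) + 2), by positivity, ?_, ?_⟩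
  · rw [div_lt_one (by positivity)]
    have : (0 : ℝ) ≤ n := by positivity
    linarith
  · intro e he
    have h1 := rot e e0 he hn0 (1 / ((n : ℝ) + 2))
    have h2 : volume.real {p : E m | ‖p‖ ≤ 1 - 1 / ((n : ℝ) + 2) ∧ 1 / ((n : ℝ) + 2) ≤ ⟪p, e⟫}
        = volume.real (Sf e (1 / ((n : ℝ) + 2))) := rfl
    rw [h2, h1]
    exact hn.le

end Pool.Agent.Helper83K9.HD
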