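import Pool.Agent.Helper83K9.HD.Stm

/-!
Half-density interfaces: [LC] layer cake (helper94)
-/

namespace Pool.Agent.Helper83K9.HD

open MeasureTheory Set Filter Topology Metric Pool.Agent.TH337.VF
open scoped ENNReal RealInnerProductSpace

namespace LcL

/-- the radius of the superlevel sets of `wt j` -/
noncomputable def sj (j : ℕ) (t : ℝ) : ℝ := (1 - √t) ^ (((2 * (j + 1) : ℕ) : ℝ)⁻¹)

lemma sj_pow {j : ℕ} {t : ℝ} (ht : t ∈ Ioo (0:ℝ) 1) : sj j t ^ (2 * (j + 1)) = 1 - √t := by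
  unfold sj
  rw [Real.rpow_inv_natCast_pow]
  · have : √t ≤ 1 := by
      rw [Real.sqrt_le_one]
      exact ht.2.le
    linarith
  · omega

lemma one_sub_pos {t : ℝ} (ht : t ∈ Ioo (0:ℝ) 1) : 0 < 1 - √t := by
  have : √t < 1 := by
    rw [Real.sqrt_lt' one_pos]
    simpa using ht.2
  linarith

lemma sj_pos {j : ℕ} {t : ℝ} (ht : t ∈ Ioo (0:ℝ) 1) : 0 < sj j t :=
  Real.rpow_pos_of_pos (one_sub_pos ht) _

lemma sj_le {j : ℕ} {t : ℝ} (ht : t ∈ Ioo (0:ℝ) 1) : sj j t ≤ 1 := by
  apply Real.rpow_le_one (one_sub_pos ht).le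
  · have := Real.sqrt_nonneg t
    linarith
  · positivity

lemma sj_cont (j : ℕ) : Continuous (sj j) := by
  unfold sj
  apply Continuous.rpow_const (by fun_prop)
  intro x
  right
  positivity

lemma sj_lim {t : ℝ} (ht : t ∈ Ioo (0:ℝ) 1) : Tendsto (fun j => sj j t) atTop (𝓝 1) := by
  have h1 : Tendsto (fun j : ℕ => (((2 * (j + 1) : ℕ) : ℝ))⁻¹) atTop (𝓝 0) := by
    apply Tendsto.comp tendsto_inv_atTop_zero
    apply tendsto_natCast_atTop_atTop.comp
    apply tendsto_atTop_mono (f := fun j => j) (fun j => by omega) tendsto_id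
  have h2 := (Real.continuousAt_const_rpow (one_sub_pos ht).ne').tendsto.comp h1
  rw [Real.rpow_zero] at h2
  exact h2

lemma level {N : ℕ} (a : E N) {s : ℝ} (hs : 0 < s) (j : ℕ) {t : ℝ} (ht : t ∈ Ioo (0:ℝ) 1) :
    {y : E N | t < wt j (‖y - a‖ ^ 2 / s ^ 2)} = ball a (s * sj j t) := by
  ext y
  rw [mem_ball, dist_eq_norm]
  have hu : ‖y - a‖ ^ 2 / s ^ 2 = (‖y - a‖ / s) ^ 2 := by rw [div_pow]
  have h0 : 0 ≤ ‖y - a‖ / s := by positivity
  have h1 : t < wt j (‖y - a‖ ^ 2 / s ^ 2) ↔ √t < max 0 (1 - (‖y - a‖ ^ 2 / s ^ 2) ^ (j + 1)) := by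
    unfold wt
    rw [← Real.sqrt_lt_sqrt_iff ht.1.le, Real.sqrt_sq (le_max_left _ _)]
  have h2 : √t < max 0 (1 - (‖y - a‖ ^ 2 / s ^ 2) ^ (j + 1)) ↔
      (‖y - a‖ / s) ^ (2 * (j + 1)) < sj j t ^ (2 * (j + 1)) := by
    rw [sj_pow ht, lt_max_iff, hu, ← pow_mul]
    constructor
    · rintro (h | h)
      · exact absurd h (not_lt.2 (Real.sqrt_nonneg t))
      · linarith
    · intro h
      right
      linarith
  have h3 : ‖y - a‖ / s < sj j t ↔ ‖y - a‖ < s * sj j t := by
    rw [div_lt_iff₀ hs, mul_comm]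
  change t < wt j (‖y - a‖ ^ 2 / s ^ 2) ↔ _
  rw [h1, h2, pow_lt_pow_iff_left₀ h0 (sj_pos ht).le (by omega), h3]

lemma wt_le (j : ℕ) (u : ℝ) (hu : 0 ≤ u) : wt j u ≤ 1 := by
  unfold wt
  have h2 : 0 ≤ u ^ (j + 1) := by positivity
  have h3 : max 0 (1 - u ^ (j + 1)) ≤ 1 := max_le (by norm_num) (by linarith)
  have h4 : 0 ≤ max 0 (1 - u ^ (j + 1)) := le_max_left _ _
  nlinarith

lemma wt_nonneg (j : ℕ) (u : ℝ) : 0 ≤ wt j u := by
  unfold wt
  positivity

lemma I_eq {N : ℕ} (ν : Measure (E N)) [IsFiniteMeasure ν] (a : E N) {s : ℝ} (hs : 0 < s)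
    (j : ℕ) : I (wt j) ν a s = ∫ t in Ioo (0:ℝ) 1, ν.real (ball a (s * sj j t)) := by
  unfold I
  rw [(integrable_wt (wt_Wt j) ν a s).integral_eq_integral_meas_lt
    (Eventually.of_forall fun y => wt_nonneg j _)]
  rw [setIntegral_eq_of_subset_of_forall_diff_eq_zero (s := Ioo (0:ℝ) 1) measurableSet_Ioi
    (fun t ht => ht.1)]
  · apply setIntegral_congr_fun measurableSet_Ioo
    intro t ht
    dsimp only
    rw [level a hs j ht]
  · rintro t ⟨ht1, ht2⟩
    have h1 : 1 ≤ t := by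
      by_contra h
      exact ht2 ⟨ht1, not_le.1 h⟩
    have h2 : {y : E N | t < wt j (‖y - a‖ ^ 2 / s ^ 2)} = ∅ := by
      ext y
      simp only [mem_setOf_eq, mem_empty_iff_false, iff_false, not_lt]
      exact (wt_le j _ (by positivity)).trans h1
    rw [h2]
    simp

lemma int_ball {N : ℕ} (ν : Measure (E N)) [IsFiniteMeasure ν] (a : E N) {s : ℝ} (hs : 0 < s)
    (j : ℕ) : IntegrableOn (fun t => ν.real (ball a (s * sj j t))) (Ioo (0:ℝ) 1) := by
  have h1 : Measurable fun t : ℝ => ν.real {y : E N | t < wt j (‖y - a‖ ^ 2 / s ^ 2)} := by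
    apply Antitone.measurable
    intro t t' htt
    apply measureReal_mono _ (measure_ne_top _ _)
    intro y hy
    exact htt.trans_lt hy
  have h2 : IntegrableOn (fun t : ℝ => ν.real {y : E N | t < wt j (‖y - a‖ ^ 2 / s ^ 2)})
      (Ioo (0:ℝ) 1) := by
    refine Measure.integrableOn_of_bounded (M := ν.real univ) (by simp) h1.aestronglyMeasurable ?_
    filter_upwards with t
    rw [Real.norm_eq_abs, abs_of_nonneg measureReal_nonneg]
    exact measureReal_mono (subset_univ _) (measure_ne_top _ _)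
  refine h2.congr_fun (fun t ht => ?_) measurableSet_Ioo
  dsimp only
  rw [level a hs j ht]

lemma int_sj (m j : ℕ) : IntegrableOn (fun t => sj j t ^ m) (Ioo (0:ℝ) 1) := by
  refine Measure.integrableOn_of_bounded (M := 1) (by simp)
    ((sj_cont j).pow m).aestronglyMeasurable ?_
  filter_upwards [ae_restrict_mem measurableSet_Ioo] with t ht
  rw [Real.norm_eq_abs, abs_of_nonneg (pow_nonneg (sj_pos ht).le _)]
  exact pow_le_one₀ (sj_pos ht).le (sj_le ht)

end LcL

open LcL in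
theorem lc : S_LC := by
  intro m
  refine ⟨fun j => ∫ t in Ioo (0:ℝ) 1, sj j t ^ m, fun j => ⟨?_, ?_⟩, ?_, ?_⟩
  · rw [setIntegral_pos_iff_support_of_nonneg_ae _ (int_sj m j)]
    · have : Function.support (fun t => sj j t ^ m) ∩ Ioo (0:ℝ) 1 = Ioo (0:ℝ) 1 := by
        apply inter_eq_right.2
        intro t ht
        exact (pow_pos (sj_pos ht) m).ne'
      rw [this]
      simp
    · filter_upwards [ae_restrict_mem measurableSet_Ioo] with t ht
      exact pow_nonneg (sj_pos ht).le _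
  · have h1 : ∫ t in Ioo (0:ℝ) 1, sj j t ^ m ≤ ∫ t in Ioo (0:ℝ) 1, (1:ℝ) := by
      apply setIntegral_mono_on (int_sj m j) (by simp) measurableSet_Ioo
      intro t ht
      exact pow_le_one₀ (sj_pos ht).le (sj_le ht)
    simpa using h1
  · have h1 : Tendsto (fun j => ∫ t in Ioo (0:ℝ) 1, sj j t ^ m) atTop
        (𝓝 (∫ t in Ioo (0:ℝ) 1, (1:ℝ))) := by
      apply tendsto_integral_of_dominated_convergence (fun _ => (1:ℝ))
      · intro j
        exact ((sj_cont j).pow m).aestronglyMeasurable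
      · simp
      · intro j
        filter_upwards [ae_restrict_mem measurableSet_Ioo] with t ht
        rw [Real.norm_eq_abs, abs_of_nonneg (pow_nonneg (sj_pos ht).le _)]
        exact pow_le_one₀ (sj_pos ht).le (sj_le ht)
      · filter_upwards [ae_restrict_mem measurableSet_Ioo] with t ht
        have := (sj_lim ht).pow m
        rwa [one_pow] at this
    simpa using h1
  · intro N ν _ a s q j hs hq
    have he : q * (∫ t in Ioo (0:ℝ) 1, sj j t ^ m) * s ^ m =
        ∫ t in Ioo (0:ℝ) 1, q * (s * sj j t) ^ m := by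
      have : ∀ t, q * (s * sj j t) ^ m = (q * s ^ m) * sj j t ^ m := fun t => by
        rw [mul_pow]
        ring
      simp only [this]
      rw [integral_const_mul]
      ring
    have hi : IntegrableOn (fun t => q * (s * sj j t) ^ m) (Ioo (0:ℝ) 1) := by
      have : ∀ t, q * (s * sj j t) ^ m = (q * s ^ m) * sj j t ^ m := fun t => by
        rw [mul_pow]
        ring
      simp only [this]
      exact (int_sj m j).const_mul _
    have hr : ∀ t ∈ Ioo (0:ℝ) 1, 0 < s * sj j t ∧ s * sj j t ≤ s := fun t ht =>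
      ⟨mul_pos hs (sj_pos ht), mul_le_of_le_one_right hs.le (sj_le ht)⟩
    constructor
    · intro h
      rw [he, I_eq ν a hs j]
      exact setIntegral_mono_on hi (int_ball ν a hs j) measurableSet_Ioo fun t ht =>
        h _ (hr t ht).1 (hr t ht).2
    · intro h
      rw [he, I_eq ν a hs j]
      exact setIntegral_mono_on (int_ball ν a hs j) hi measurableSet_Ioo fun t ht =>
        h _ (hr t ht).1 (hr t ht).2

end Pool.Agent.Helper83K9.HD
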