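import Pool.Agent.Helper83K9.HD.Fin

/-!
Half-density interfaces: the assembly.
-/

namespace Pool.Agent.Helper83K9.HD

open MeasureTheory Set Filter Topology Metric Pool.Agent.TH337.VF
open scoped ENNReal RealInnerProductSpace

variable {N m : ℕ}

/-- near flatness with multiplicity at most `Q + δ`, along a sequence of scales -/
def Flat (m : ℕ) (μ : Measure (E N)) (T : E N → Submodule ℝ (E N)) (Q : ℝ≥0∞) (δ : ℝ)
    (z : E N) : Prop :=
  ∀ r₀ : ℝ, 0 < r₀ → ∃ r : ℝ, 0 < r ∧ r < r₀ ∧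
    μ (ball z r) ≤ (Q + ENNReal.ofReal δ) *
      (volume (ball (0 : EuclideanSpace ℝ (Fin m)) 1) * ENNReal.ofReal r ^ m) ∧
    ∃ L : Submodule ℝ (E N), Module.finrank ℝ L = m ∧
      (∀ x ∈ μ.support, x ∈ ball z r → ‖(x - z) - L.starProjection (x - z)‖ ≤ δ * r) ∧
      ∀ e ∈ L, ‖e‖ ≤ 1 → ∫ x in ball z r, ‖e - (T x).starProjection e‖ ^ 2 ∂μ ≤ δ * r ^ m

/-- interface points at which the phase `S` has positive upper density are nearly flat -/
lemma flat_of_dens (hPL : S_PL) (N m : ℕ) (hm : 1 ≤ m) {Q c δ : ℝ} (hQ : 1 ≤ Q) (hc : 0 < c)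
    (hδ : 0 < δ) : ∃ ε : ℝ, 0 < ε ∧ ∀ (O : Set (E N)) (μ : Measure (E N))
    (T : E N → Submodule ℝ (E N)), Nice m O μ T Q ε →
    ∀ S : Set (E N), (∀ᵐ x ∂(μ.restrict O), x ∈ S → ENNReal.ofReal Q ≤ density m μ x) →
    ∀ z ∈ ifc O μ S, ENNReal.ofReal c < upperDens m μ S z → Flat m μ T (ENNReal.ofReal Q) δ z := by
  have hom := om_pos m
  obtain ⟨ε₁, hε₁, hε₁1, hpl⟩ := hPL N m hm Q (c * om m * 2 ^ m) δ hQ (by positivity) hδ
  refine ⟨min ε₁ δ, lt_min hε₁ hδ, ?_⟩
  intro O μ T hN S hqS z hz hzc r₀ hr₀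
  have hN1 : Nice m O μ T Q ε₁ := hN.mono (min_le_left _ _)
  have hNδ : Nice m O μ T Q δ := hN.mono (min_le_right _ _)
  have hO := hN.isOpen
  have hS := hN.stat
  obtain ⟨R₀, hR₀, hRO⟩ := Metric.isOpen_iff.1 hO z hz.1
  have hfr : ∃ᶠ r : ℝ in 𝓝[>] 0, ENNReal.ofReal c < μ (ball z r ∩ S) /
      (volume (ball (0 : EuclideanSpace ℝ (Fin m)) 1) * ENNReal.ofReal r ^ m) :=
    frequently_lt_of_lt_limsup (by isBoundedDefault) hzc
  obtain ⟨r, hr1, hr2⟩ := (hfr.and_eventually (Ioo_mem_nhdsGT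
    (show 0 < min r₀ (R₀ / 40) by positivity))).exists
  have hr0 : 0 < r := hr2.1
  have hrr₀ : r < r₀ := hr2.2.trans_le (min_le_left _ _)
  have hrR₀ : r < R₀ / 40 := hr2.2.trans_le (min_le_right _ _)
  have hr' : ENNReal.ofReal r ≠ 0 := (ENNReal.ofReal_pos.2 hr0).ne'
  have hr3 : ENNReal.ofReal c * (volume (ball (0 : EuclideanSpace ℝ (Fin m)) 1) *
      ENNReal.ofReal r ^ m) < μ (ball z r ∩ S) :=
    (ENNReal.lt_div_iff_mul_lt (Or.inl (mul_ne_zero (omega_pos m) (pow_ne_zero _ hr')))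
      (Or.inl (ENNReal.mul_ne_top (omega_lt m) (ENNReal.pow_ne_top ENNReal.ofReal_ne_top)))).1 hr1
  set ρ : ℝ := r / 2 with hρ
  have hρ0 : 0 < ρ := by positivity
  have hr2ρ : r = 2 * ρ := by rw [hρ]; ring
  have hzball : closedBall z (20 * ρ) ⊆ O :=
    (closedBall_subset_ball (by rw [hρ]; linarith)).trans hRO
  have hzlow : Low m μ Q z (20 * ρ) := low_ifc hO hS (by linarith) hqS hz hzball
  set G : Set (E N) := {x | (x ∈ ball z (2 * ρ) ∧ x ∈ S) ∧ ENNReal.ofReal Q ≤ density m μ x}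
    with hG
  have hGfin : μ (ball z (2 * ρ)) < ⊤ :=
    fin_ball hS ((closedBall_subset_closedBall (by linarith)).trans hzball)
  have hGball : μ (ball z (2 * ρ) ∩ S) ≤ μ G := by
    have hsub : ball z (2 * ρ) ∩ S ⊆ G ∪ ({x | ¬ (x ∈ S → ENNReal.ofReal Q ≤ density m μ x)} ∩ O) := by
      intro x hx
      by_cases hxd : ENNReal.ofReal Q ≤ density m μ x
      · exact Or.inl ⟨hx, hxd⟩
      · refine Or.inr ⟨fun hc => hxd (hc hx.2), ?_⟩
        exact hzball (closedBall_subset_closedBall (by linarith) (ball_subset_closedBall hx.1))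
    refine (measure_mono hsub).trans ((measure_union_le _ _).trans ?_)
    have h0 : μ ({x | ¬ (x ∈ S → ENNReal.ofReal Q ≤ density m μ x)} ∩ O) = 0 := by
      have h2 := ae_iff.1 hqS
      rwa [Measure.restrict_apply' hO.measurableSet] at h2
    rw [h0, add_zero]
  have hGmass : c * om m * 2 ^ m * ρ ^ m ≤ μ.real G := by
    have hGf : μ G ≠ ⊤ := ((measure_mono fun x hx => hx.1.1).trans_lt hGfin).ne
    have h1 : ENNReal.ofReal c * (volume (ball (0 : EuclideanSpace ℝ (Fin m)) 1) *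
      ENNReal.ofReal r ^ m) ≤ μ G := by
      rw [hr2ρ] at hr3 ⊢
      exact hr3.le.trans hGball
    have h2 := toReal_bd hr0 hGf h1
    rw [ENNReal.toReal_ofReal hc.le] at h2
    refine le_trans (le_of_eq ?_) h2
    rw [hr2ρ, mul_pow]
    ring
  obtain ⟨L, hLm, hL, hLh⟩ := hpl O μ T hN1 z ρ hρ0 hzball
    (fun r hr hr' => hzlow r hr (by linarith)) G (fun x hx => hx.1.1) (by
      intro x hx
      have h1 := Low.of_density hS (y := x) (R := 16 * ρ) (q := ENNReal.ofReal Q) (by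
        refine subset_trans ?_ hzball
        apply closedBall_subset_closedBall'
        have := mem_ball.1 hx.1.1
        linarith) ENNReal.ofReal_ne_top hx.2
      rwa [ENNReal.toReal_ofReal (by linarith)] at h1) hGmass
  refine ⟨r, hr0, hrr₀, ?_, L, hLm, ?_, ?_⟩
  · have hcr : closedBall z r ⊆ O := (closedBall_subset_closedBall (by linarith)).trans hzball
    have h1 := hNδ.up z r hr0 hcr
    have h2 : μ (ball z r) = ENNReal.ofReal (μ.real (ball z r)) :=
      (ENNReal.ofReal_toReal (fin_ball hS hcr).ne).symm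
    rw [h2]
    refine (ENNReal.ofReal_le_ofReal h1).trans (le_of_eq ?_)
    rw [mul_assoc, ENNReal.ofReal_mul (by positivity), ENNReal.ofReal_mul hom.le,
      ENNReal.ofReal_add (by positivity) hδ.le, ofReal_om, ENNReal.ofReal_pow hr0.le]
  · intro x hx hxr
    refine (hLh x hx (ball_subset_ball (by linarith) hxr)).trans ?_
    rw [hr2ρ]
    nlinarith
  · intro e he he1
    have h1 := hL e he he1
    have hcs : closedBall z (4 * ρ) ⊆ O := (closedBall_subset_closedBall (by linarith)).trans hzball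
    have hμfin : μ (closedBall z (4 * ρ)) < ⊤ := hN.stat.fin _ hcs (isCompact_closedBall _ _)
    have hμF : IsFiniteMeasure (μ.restrict (closedBall z (4 * ρ))) := ⟨by simpa using hμfin⟩
    have hint : Integrable (fun x => ‖nor T x e‖ ^ 2) (μ.restrict (closedBall z (4 * ρ))) := by
      refine Integrable.of_bound (C := ‖e‖ ^ 2)
        ((meas_nor hN.stat e).norm.pow_const 2).aestronglyMeasurable ?_
      filter_upwards with x
      rw [Real.norm_eq_abs, abs_of_nonneg (by positivity)]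
      exact pow_le_pow_left₀ (norm_nonneg _) (nor_le T x e) 2
    have h2 : ∫ x in ball z r, ‖e - (T x).starProjection e‖ ^ 2 ∂μ ≤
        ∫ x in closedBall z (4 * ρ), ‖nor T x e‖ ^ 2 ∂μ := by
      apply integral_mono_measure (Measure.restrict_mono
        (ball_subset_closedBall.trans (closedBall_subset_closedBall (by linarith))) le_rfl) _ hint
      exact Eventually.of_forall fun x => by positivity
    refine h2.trans (h1.trans ?_)
    have h3 : ρ ^ m ≤ r ^ m := pow_le_pow_left₀ hρ0.le (by linarith) m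
    exact mul_le_mul_of_nonneg_left h3 hδ.le

/-- the main theorem, internal form -/
theorem main_half (hLC : S_LC) (hSH : S_SH) (hAV : S_AV1) (hHB : S_HB) (hPL : S_PL) (hm : 1 ≤ m)
    {U : Set (E N)} (hU : IsOpen U) {μ : Measure (E N)} {T : E N → Submodule ℝ (E N)}
    (hS : Stat m U μ (pr T)) (hdim : ∀ᵐ x ∂(μ.restrict U), Module.finrank ℝ (T x) = m)
    (h1 : ∀ᵐ x ∂(μ.restrict U), 1 ≤ density m μ x) {x₀ : E N} (hx₀ : x₀ ∈ U)
    (hpos : ∀ r : ℝ, 0 < r → μ (ball x₀ r ∩ {x | density m μ x = density m μ x₀}) ≠ 0)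
    {θ δ : ℝ} (hθ : θ < 1 / 2) (hδ : 0 < δ)
    (C : ℕ → Set (E N)) (hC : ∀ n, IsClosed (C n))
    (hC0 : ∀ n, μH[((m - 1 : ℕ):ℝ)] (C n) ≠ ⊤)
    (hI : ∀ z ∈ ifc U μ {x | density m μ x = density m μ x₀}, z ∉ ⋃ n, C n →
      Flat m μ T (density m μ x₀) δ z →
      upperDens m μ {x | density m μ x ≠ density m μ x₀} z ≤
        ENNReal.ofReal θ * density m μ x₀ ∨
      upperDens m μ {x | density m μ x = density m μ x₀} z ≤
        ENNReal.ofReal θ * density m μ x₀)
    {Z : Set (E N)} (hZ : μH[((m - 1 : ℕ):ℝ)] Z = 0)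
    (hI' : ∀ z ∈ ifc U μ {x | density m μ x = density m μ x₀}, z ∈ ⋃ n, C n → z ∉ Z →
      upperDens m μ {x | density m μ x ≠ density m μ x₀} z = 0 ∨
      upperDens m μ {x | density m μ x = density m μ x₀} z = 0) :
    ∃ r : ℝ, 0 < r ∧ ∀ᵐ x ∂(μ.restrict (ball x₀ r)), density m μ x = density m μ x₀ := by
  have hom := om_pos m
  set Q := density m μ x₀ with hQ
  have hQt : Q ≠ ⊤ := density_lt_top hS hU hx₀
  set S : Set (E N) := {x | density m μ x = Q} with hSdef
  have hSc : Sᶜ = {x | density m μ x ≠ Q} := rfl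
  -- the density at `x₀` is at least one, and the space is not trivial
  obtain ⟨R₀, hR₀, hRU⟩ := Metric.isOpen_iff.1 hU x₀ hx₀
  obtain ⟨x₁, hx₁, hx₁1, hx₁d⟩ := Measure.exists_mem_of_measure_ne_zero_of_ae (hpos R₀ hR₀)
    ((ae_restrict_of_ae_restrict_of_subset (inter_subset_left.trans hRU) h1).and
      (ae_restrict_of_ae_restrict_of_subset (inter_subset_left.trans hRU) hdim))
  have hQ1 : 1 ≤ Q := by
    rw [← show density m μ x₁ = Q from hx₁.2]
    exact hx₁1
  have hN1 : 1 ≤ N := by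
    have h2 := Submodule.finrank_le (T x₁)
    rw [hx₁d, finrank_euclideanSpace_fin] at h2
    omega
  set q : ℝ := Q.toReal with hq
  have hqQ : ENNReal.ofReal q = Q := ENNReal.ofReal_toReal hQt
  have hq1 : 1 ≤ q := by
    have := ENNReal.toReal_mono hQt hQ1
    simpa using this
  -- the constants
  set θ₃ : ℝ := max θ (1 / 4) with hθ₃
  have hθ₃1 : θ₃ < 1 / 2 := max_lt hθ (by norm_num)
  have hθ₃0 : 0 < θ₃ := lt_of_lt_of_le (by norm_num) (le_max_right _ _)
  set θ₄ : ℝ := (θ₃ + 1 / 2) / 2 with hθ₄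
  have hθ₄1 : θ₄ < 1 / 2 := by linarith
  have hθ₃₄ : θ₃ < θ₄ := by linarith
  obtain ⟨ε₁, hε₁, huni⟩ := uniform2 hLC hSH hAV hHB hPL N m hm hq1 (by linarith : 0 ≤ θ₄) hθ₄1
  obtain ⟨ε₂, hε₂, hfl⟩ := flat_of_dens hPL N m hm (Q := q) (c := θ₃ * q) hq1 (by positivity) hδ
  obtain ⟨δ₁, hδ₁, hδ₁U, hN⟩ := nice_near (m := m) hN1 hU hS h1 hx₀ (ε := min (min ε₁ ε₂) (1 / 2))
    (by positivity)
  have hNi1 : Nice m (ball x₀ δ₁) μ T q ε₁ := hN.mono ((min_le_left _ _).trans (min_le_left _ _))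
  have hNi2 : Nice m (ball x₀ δ₁) μ T q ε₂ := hN.mono ((min_le_left _ _).trans (min_le_right _ _))
  have hqS : ∀ᵐ x ∂(μ.restrict (ball x₀ δ₁)), x ∈ S → ENNReal.ofReal q ≤ density m μ x := by
    filter_upwards with x hx
    rw [hqQ]
    exact (show density m μ x = Q from hx).ge
  have hd1 : ∀ᵐ x ∂(μ.restrict (ball x₀ δ₁)), 1 ≤ density m μ x :=
    ae_restrict_of_ae_restrict_of_subset hδ₁U h1
  have hifc : ∀ z ∈ ifc (ball x₀ δ₁) μ S, z ∈ ifc U μ S := fun z hz => ⟨hδ₁U hz.1, hz.2⟩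
  -- near `x₀` the density is less than `Q + 1`
  have hlt : ∀ x ∈ ball x₀ δ₁, density m μ x < Q + 1 := by
    intro x hx
    obtain ⟨r, hr, hrO⟩ := Metric.isOpen_iff.1 (isOpen_ball (x := x₀) (ε := δ₁)) x hx
    have hc : closedBall x (r / 2) ⊆ ball x₀ δ₁ := (closedBall_subset_ball (by linarith)).trans hrO
    have h2 := density_le (hS.sub hδ₁U) hc (half_pos hr)
    have h3 := hN.up x (r / 2) (half_pos hr) hc
    have hfb := fin_ball (hS.sub hδ₁U) hc
    have hdx : density m μ x ≠ ⊤ := density_lt_top hS hU (hδ₁U hx)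
    have h4 := toReal_bd (half_pos hr) hfb.ne h2
    have h5 : (density m μ x).toReal ≤ q + 1 / 2 := by
      have h6 : (density m μ x).toReal * (om m * (r / 2) ^ m) ≤ (q + 1 / 2) * (om m * (r / 2) ^ m) := by
        have h7 : 0 ≤ om m * (r / 2) ^ m := by positivity
        have h8 : (q + min (min ε₁ ε₂) (1 / 2)) * (om m * (r / 2) ^ m) ≤
            (q + 1 / 2) * (om m * (r / 2) ^ m) := by
          apply mul_le_mul_of_nonneg_right _ h7
          linarith [min_le_right (min ε₁ ε₂) (1 / 2)]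
        have h9 : μ.real (ball x (r / 2)) = (μ (ball x (r / 2))).toReal := rfl
        rw [h9] at h3
        linarith
      exact le_of_mul_le_mul_right h6 (by positivity)
    have h6 : (Q + 1).toReal = q + 1 := by
      rw [ENNReal.toReal_add hQt ENNReal.one_ne_top, ENNReal.toReal_one]
    rw [← ENNReal.toReal_lt_toReal hdx (ENNReal.add_ne_top.2 ⟨hQt, ENNReal.one_ne_top⟩), h6]
    linarith
  have hempty : ifc (ball x₀ δ₁) μ S = ∅ := by
    apply baire_half hm isOpen_ball (hS.sub hδ₁U) (q := Q) (q' := 1) hQt ENNReal.one_ne_top ?_ ?_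
      hlt C hC hC0 hZ ?_ (t := ENNReal.ofReal (θ₄ * q)) ?_ ?_
    · rwa [hqQ] at hqS
    · filter_upwards [hd1] with x hx _
      exact hx
    · intro z hz hzC hzZ
      exact (hI' z (hifc z hz) (mem_iUnion.2 hzC) hzZ).symm
    · intro O hO hOU A hA r₀ hr₀ c hc hsmall
      apply huni O μ T (hNi1.sub hO hOU) S (ae_restrict_of_ae_restrict_of_subset hOU hqS)
        (ae_restrict_of_ae_restrict_of_subset hOU hd1) A hA r₀ hr₀
      intro z hz r hr hrr
      refine (hsmall z hz r hr hrr).trans ?_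
      have e : ENNReal.ofReal (θ₄ * q * om m * r ^ m) = ENNReal.ofReal (θ₄ * q) *
          (volume (ball (0 : EuclideanSpace ℝ (Fin m)) 1) * ENNReal.ofReal r ^ m) := by
        rw [mul_assoc, ENNReal.ofReal_mul (by positivity), ENNReal.ofReal_mul hom.le, ofReal_om,
          ENNReal.ofReal_pow hr.le]
      rw [e]
      exact mul_le_mul_left hc.le _
    · intro z hz hzC
      have hlt4 : ENNReal.ofReal (θ₃ * q) < ENNReal.ofReal (θ₄ * q) := by
        rw [ENNReal.ofReal_lt_ofReal_iff (by positivity)]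
        nlinarith
      by_cases hup : upperDens m μ S z ≤ ENNReal.ofReal (θ₃ * q)
      · exact Or.inl (hup.trans_lt hlt4)
      · rw [not_le] at hup
        have hflat := hfl (ball x₀ δ₁) μ T hNi2 S hqS z hz hup
        rw [hqQ] at hflat
        have hzC' : z ∉ ⋃ n, C n := by
          rw [mem_iUnion, not_exists]
          exact hzC
        have hθq : ENNReal.ofReal θ * Q ≤ ENNReal.ofReal (θ₃ * q) := by
          rw [ENNReal.ofReal_mul hθ₃0.le, hqQ]
          exact mul_le_mul_left (ENNReal.ofReal_le_ofReal (le_max_left _ _)) _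
        rcases hI z (hifc z hz) hzC' hflat with h | h
        · exact Or.inr ((h.trans hθq).trans_lt hlt4)
        · exact Or.inl ((h.trans hθq).trans_lt hlt4)
  have hx₀n : x₀ ∈ nn μ S ∪ nn μ Sᶜ := by
    by_contra hcon
    have : x₀ ∈ ifc (ball x₀ δ₁) μ S := ⟨mem_ball_self hδ₁, hcon⟩
    rw [hempty] at this
    exact this
  rcases hx₀n with ⟨r, hr, h⟩ | ⟨r, hr, h⟩
  · exact absurd h (hpos r hr)
  · refine ⟨r, hr, ?_⟩
    rw [ae_iff, Measure.restrict_apply' measurableSet_ball, inter_comm]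
    exact h

end Pool.Agent.Helper83K9.HD
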