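import Pool.Agent.Helper83K9.HD.Stm

/-!
Half-density interfaces: [MR] monotonicity with remainder (helper94)
-/

namespace Pool.Agent.Helper83K9.HD

open MeasureTheory Set Filter Topology Metric Pool.Agent.TH337.VF
open scoped ENNReal RealInnerProductSpace

namespace MrL

variable {N : ℕ}

lemma inner_pr (T : E N → Submodule ℝ (E N)) (x v : E N) :
    ⟪v, pr T x v⟫ = ‖v‖ ^ 2 - ‖nor T x v‖ ^ 2 := by
  have h1 : ⟪v - (T x).starProjection v, (T x).starProjection v⟫ = 0 :=
    Submodule.starProjection_inner_eq_zero _ _ (Submodule.starProjection_apply_mem _ _)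
  have h2 : ‖nor T x v‖ ^ 2 = ‖v‖ ^ 2 - 2 * ⟪v, (T x).starProjection v⟫ +
      ‖(T x).starProjection v‖ ^ 2 := by
    unfold nor
    exact norm_sub_sq_real _ _
  rw [inner_sub_left, real_inner_self_eq_norm_sq] at h1
  unfold pr
  linarith

lemma nor_le (T : E N → Submodule ℝ (E N)) (x v : E N) : ‖nor T x v‖ ≤ ‖v‖ := by
  have e1 : nor T x v = (T x)ᗮ.starProjection v := by
    rw [Submodule.starProjection_orthogonal_val]
    rfl
  rw [e1]
  exact Submodule.norm_starProjection_apply_le _ _

lemma nor_meas {m : ℕ} {U : Set (E N)} {μ : Measure (E N)} {T : E N → Submodule ℝ (E N)}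
    (hS : Stat m U μ (pr T)) (a : E N) : Measurable fun y => nor T y (y - a) := by
  have h1 : Measurable fun y : E N => pr T y (y - a) := by
    have hc : Continuous fun p : (E N →L[ℝ] E N) × E N => p.1 p.2 :=
      isBoundedBilinearMap_apply.continuous
    exact hc.measurable.comp (hS.meas.prodMk (measurable_id.sub_const a))
  exact (measurable_id.sub_const a).sub h1

/-- the remainder -/
noncomputable def J (f' : ℝ → ℝ) (T : E N → Submodule ℝ (E N)) (ν : Measure (E N)) (a : E N)
    (r : ℝ) : ℝ :=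
  ∫ y, -f' (‖y - a‖ ^ 2 / r ^ 2) * ‖nor T y (y - a)‖ ^ 2 ∂ν

lemma int_J {m : ℕ} {U : Set (E N)} {μ : Measure (E N)} {T : E N → Submodule ℝ (E N)}
    (hS : Stat m U μ (pr T)) {f f' : ℝ → ℝ} (hf : Wt f f') (ν : Measure (E N))
    [IsFiniteMeasure ν] (a : E N) {r : ℝ} (hr : 0 < r) :
    Integrable (fun y => -f' (‖y - a‖ ^ 2 / r ^ 2) * ‖nor T y (y - a)‖ ^ 2) ν := by
  obtain ⟨C, hC0, hC⟩ := hf.bound'
  refine Integrable.of_bound (C := C * r ^ 2) ?_ ?_
  · apply Measurable.aestronglyMeasurable
    have h1 : Continuous fun y : E N => ‖y - a‖ ^ 2 / r ^ 2 := by fun_prop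
    exact (hf.cont.comp h1).measurable.neg.mul ((nor_meas hS a).norm.pow_const 2)
  · filter_upwards with y
    rw [Real.norm_eq_abs, abs_mul, abs_neg, abs_of_nonneg (sq_nonneg ‖nor T y (y - a)‖)]
    have hr2 : 0 < r ^ 2 := by positivity
    rcases le_total (‖y - a‖ ^ 2 / r ^ 2) 1 with h1 | h1
    · rw [div_le_one hr2] at h1
      have h2 : ‖nor T y (y - a)‖ ^ 2 ≤ r ^ 2 :=
        (pow_le_pow_left₀ (norm_nonneg _) (nor_le T y (y - a)) 2).trans h1
      exact mul_le_mul (hC _ (by positivity)) h2 (by positivity) hC0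
    · rw [hf.zero' _ h1, abs_zero, zero_mul]
      positivity

/-- stationarity tested with a radial field, exact version -/
lemma test_rad_eq {m : ℕ} {U : Set (E N)} {μ : Measure (E N)} {T : E N → Submodule ℝ (E N)}
    (hS : Stat m U μ (pr T)) {f f' : ℝ → ℝ} (hf : Wt f f') {a : E N} {R r : ℝ}
    (hR : closedBall a R ⊆ U) (hr : 0 < r) (hrR : r ≤ R) :
    ∫ y, (m * f (‖y - a‖ ^ 2 / r ^ 2) + 2 * (‖y - a‖ ^ 2 / r ^ 2) * f' (‖y - a‖ ^ 2 / r ^ 2) +
      2 / r ^ 2 * (-f' (‖y - a‖ ^ 2 / r ^ 2) * ‖nor T y (y - a)‖ ^ 2))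
      ∂(μ.restrict (closedBall a R)) = 0 := by
  classical
  have hr2 : 0 < r ^ 2 := by positivity
  set g : ℝ → ℝ := fun s => f (s / r ^ 2) with hgdef
  set g' : ℝ → ℝ := fun s => f' (s / r ^ 2) / r ^ 2 with hg'def
  have hg : ∀ s, HasDerivAt g (g' s) s := by
    intro s
    have h1 : HasDerivAt (fun s : ℝ => s / r ^ 2) (1 / r ^ 2) s := (hasDerivAt_id s).div_const _
    have h2 := (hf.der (s / r ^ 2)).comp s h1
    have e : g' s = f' (s / r ^ 2) * (1 / r ^ 2) := by
      simp only [hg'def]
      ring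
    rw [e]
    exact h2
  have hgc : ContDiff ℝ 1 g := hf.contDiff.comp (contDiff_id.div_const _)
  have hX : ContDiff ℝ 1 (rad g a) :=
    (hgc.comp (contDiff_sq a)).smul (contDiff_id.sub contDiff_const)
  have hzero : ∀ y, y ∉ closedBall a r → rad g a y = 0 := by
    intro y hy
    have h1 : r < ‖y - a‖ := by
      rw [mem_closedBall, dist_eq_norm] at hy
      exact not_le.1 hy
    have h2 : 1 ≤ ‖y - a‖ ^ 2 / r ^ 2 := by
      rw [one_le_div hr2]
      exact pow_le_pow_left₀ hr.le h1.le 2
    simp [rad, hgdef, hf.zero _ h2]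
  have hsub : tsupport (rad g a) ⊆ closedBall a r := by
    apply closure_minimal _ isClosed_closedBall
    intro y hy
    by_contra hc
    exact hy (hzero y hc)
  have hcs : HasCompactSupport (rad g a) :=
    HasCompactSupport.intro (isCompact_closedBall a r) hzero
  have hbR : closedBall a r ⊆ closedBall a R := closedBall_subset_closedBall hrR
  have hstat := hS.stat (rad g a) hX hcs (hsub.trans (hbR.trans hR))
  have h3 : ∫ y, trc (pr T y ∘L fderiv ℝ (rad g a) y) ∂μ =
      ∫ y, trc (pr T y ∘L fderiv ℝ (rad g a) y) ∂(μ.restrict (closedBall a R)) := by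
    symm
    apply setIntegral_eq_integral_of_forall_compl_eq_zero
    intro y hy
    have hy' : y ∉ tsupport (rad g a) := fun h => hy (hbR (hsub h))
    have : fderiv ℝ (rad g a) y = 0 := by
      by_contra hc
      exact hy' (support_fderiv_subset ℝ (by simpa using hc))
    rw [this, ContinuousLinearMap.comp_zero, trc_zero]
  rw [h3] at hstat
  have htr : ∀ᵐ x ∂(μ.restrict (closedBall a R)), trc (pr T x) = m :=
    ae_restrict_of_ae_restrict_of_subset hR hS.tr
  rw [← hstat]
  apply integral_congr_ae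
  filter_upwards [htr] with y hy
  rw [trc_rad hg a y (pr T y), hy, inner_pr]
  simp only [hgdef, hg'def]
  field_simp
  ring

/-- the exact differential equation -/
lemma I_eq {m : ℕ} {U : Set (E N)} {μ : Measure (E N)} {T : E N → Submodule ℝ (E N)}
    (hS : Stat m U μ (pr T)) {f f' : ℝ → ℝ} (hf : Wt f f') {a : E N} {R r : ℝ}
    (hR : closedBall a R ⊆ U) (hr : 0 < r) (hrR : r ≤ R) :
    r * ∫ y, f' (‖y - a‖ ^ 2 / r ^ 2) * (-2 * ‖y - a‖ ^ 2 / r ^ 3)
      ∂(μ.restrict (closedBall a R)) =
    m * I f (μ.restrict (closedBall a R)) a r +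
      2 / r ^ 2 * J f' T (μ.restrict (closedBall a R)) a r := by
  have : IsFiniteMeasure (μ.restrict (closedBall a R)) :=
    ⟨by simpa using hS.fin _ hR (isCompact_closedBall a R)⟩
  have h1 := test_rad_eq hS hf hR hr hrR
  have h2 := (hasDerivAt_I hf (μ.restrict (closedBall a R)) a hr).1
  have h3 := integrable_wt hf (μ.restrict (closedBall a R)) a r
  have h5 := int_J hS hf (μ.restrict (closedBall a R)) a hr
  have h4 : ∫ y, (m * f (‖y - a‖ ^ 2 / r ^ 2) + 2 * (‖y - a‖ ^ 2 / r ^ 2) *
      f' (‖y - a‖ ^ 2 / r ^ 2) + 2 / r ^ 2 * (-f' (‖y - a‖ ^ 2 / r ^ 2) *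
        ‖nor T y (y - a)‖ ^ 2)) ∂(μ.restrict (closedBall a R)) =
      m * I f (μ.restrict (closedBall a R)) a r - r *
      ∫ y, f' (‖y - a‖ ^ 2 / r ^ 2) * (-2 * ‖y - a‖ ^ 2 / r ^ 3)
        ∂(μ.restrict (closedBall a R)) +
      2 / r ^ 2 * J f' T (μ.restrict (closedBall a R)) a r := by
    rw [I, J, ← integral_const_mul, ← integral_const_mul, ← integral_const_mul,
      ← integral_sub (h3.const_mul _) (h2.const_mul _), ← integral_add]
    · apply integral_congr_ae
      filter_upwards with y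
      field_simp
      ring
    · exact (h3.const_mul _).sub (h2.const_mul _)
    · exact h5.const_mul _
  rw [h4] at h1
  linarith

/-- the derivative of the smoothed mass ratio -/
lemma ratio_deriv {m : ℕ} {U : Set (E N)} {μ : Measure (E N)} {T : E N → Submodule ℝ (E N)}
    (hS : Stat m U μ (pr T)) {f f' : ℝ → ℝ} (hf : Wt f f') {a : E N} {R r : ℝ}
    (hR : closedBall a R ⊆ U) (hr : 0 < r) (hrR : r ≤ R) :
    HasDerivAt (fun x => I f (μ.restrict (closedBall a R)) a x / x ^ m)
      (2 * J f' T (μ.restrict (closedBall a R)) a r / r ^ (m + 3)) r := by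
  have : IsFiniteMeasure (μ.restrict (closedBall a R)) :=
    ⟨by simpa using hS.fin _ hR (isCompact_closedBall a R)⟩
  have h1 := (hasDerivAt_I hf (μ.restrict (closedBall a R)) a hr).2.div (hasDerivAt_pow m r)
    (by positivity)
  have h2 := I_eq hS hf hR hr hrR
  set D := ∫ y, f' (‖y - a‖ ^ 2 / r ^ 2) * (-2 * ‖y - a‖ ^ 2 / r ^ 3)
      ∂(μ.restrict (closedBall a R)) with hD
  have h3 : (m:ℝ) * r ^ (m - 1) = m * r ^ m / r := by
    rcases Nat.eq_zero_or_pos m with h0 | h0
    · subst h0
      simp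
    · have h4 : r ^ m = r * r ^ (m - 1) := by
        rw [← pow_succ', Nat.sub_add_cancel h0]
      rw [h4]
      field_simp
  have h5 : 2 * J f' T (μ.restrict (closedBall a R)) a r / r ^ (m + 3) =
      (D * r ^ m - I f (μ.restrict (closedBall a R)) a r * ((m:ℝ) * r ^ (m - 1))) /
        (r ^ m) ^ 2 := by
    rw [h3]
    have h6 : 2 * J f' T (μ.restrict (closedBall a R)) a r =
        r ^ 2 * (r * D - m * I f (μ.restrict (closedBall a R)) a r) := by
      rw [h2]
      field_simp
      ring
    rw [h6]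
    field_simp
    ring
  rw [h5]
  exact h1

end MrL

open MrL in
theorem mr (hLC : S_LC) : S_MR := by
  intro N m
  obtain ⟨K, hK, -, hK2⟩ := hLC m
  have hom : 0 < om m := ENNReal.toReal_pos (omega_pos m) (omega_lt m)
  refine ⟨2 * om m, by positivity, ?_⟩
  intro O μ T hS y R Q ε hR hQ hε hO hlow hup
  set ν := μ.restrict (closedBall y R) with hν
  have hfin : IsFiniteMeasure ν :=
    ⟨by simpa [hν] using hS.fin _ hO (isCompact_closedBall y R)⟩
  have e : ∀ s, s ≤ R → ν.real (ball y s) = μ.real (ball y s) := by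
    intro s hs
    rw [hν, measureReal_restrict_apply measurableSet_ball]
    congr 1
    exact inter_eq_left.2 (ball_subset_closedBall.trans (closedBall_subset_closedBall hs))
  have hf := wt_Wt 0
  set A := ∫ x in ball y (R / 2), ‖nor T x (x - y)‖ ^ 2 ∂μ with hA
  have hA0 : 0 ≤ A := integral_nonneg fun x => by positivity
  -- lower bound of the remainder
  have hJ : ∀ s, 3 * R / 4 ≤ s → s ≤ R → A ≤ J (wt' 0) T ν y s := by
    intro s hs hsR
    have hs0 : 0 < s := by linarith
    have h1 : A = ∫ x, (ball y (R / 2)).indicator (fun x => ‖nor T x (x - y)‖ ^ 2) x ∂ν := by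
      rw [integral_indicator measurableSet_ball, hν, Measure.restrict_restrict measurableSet_ball,
        inter_eq_left.2 (ball_subset_closedBall.trans (closedBall_subset_closedBall (by linarith)))]
    rw [h1]
    unfold J
    have hpt : ∀ x, (ball y (R / 2)).indicator (fun x => ‖nor T x (x - y)‖ ^ 2) x ≤
        -wt' 0 (‖x - y‖ ^ 2 / s ^ 2) * ‖nor T x (x - y)‖ ^ 2 := by
      intro x
      by_cases hx : x ∈ ball y (R / 2)
      · rw [indicator_of_mem hx]
        rw [mem_ball, dist_eq_norm] at hx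
        have h2 : ‖x - y‖ ^ 2 / s ^ 2 ≤ 1 / 2 := by
          rw [div_le_iff₀ (by positivity)]
          have h3 : ‖x - y‖ ^ 2 ≤ (R / 2) ^ 2 := pow_le_pow_left₀ (norm_nonneg _) hx.le 2
          have h4 : (3 * R / 4) ^ 2 ≤ s ^ 2 := pow_le_pow_left₀ (by positivity) hs 2
          nlinarith
        have h3 : 1 ≤ -wt' 0 (‖x - y‖ ^ 2 / s ^ 2) := by
          unfold wt'
          simp only [zero_add, pow_one, pow_zero, mul_one, Nat.cast_one]
          rw [max_eq_right (by linarith)]
          linarith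
        have h4 : 0 ≤ ‖nor T x (x - y)‖ ^ 2 := by positivity
        nlinarith
      · rw [indicator_of_notMem hx]
        have h2 := hf.nonpos (‖x - y‖ ^ 2 / s ^ 2) (by positivity)
        have h4 : 0 ≤ ‖nor T x (x - y)‖ ^ 2 := by positivity
        nlinarith
    have hJi := int_J hS hf ν y hs0
    refine integral_mono_of_nonneg ?_ hJi (Eventually.of_forall hpt)
    filter_upwards with x
    exact indicator_nonneg (fun x _ => by positivity) x
  -- the mean value theorem
  have hmono : MonotoneOn (fun x => I (wt 0) ν y x / x ^ m - 2 * A / R ^ (m + 3) * x)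
      (Icc (3 * R / 4) R) := by
    have hder : ∀ x, 3 * R / 4 ≤ x → x ≤ R →
        HasDerivAt (fun x => I (wt 0) ν y x / x ^ m - 2 * A / R ^ (m + 3) * x)
        (2 * J (wt' 0) T ν y x / x ^ (m + 3) - 2 * A / R ^ (m + 3)) x := by
      intro x hx hxR
      have h1 := ratio_deriv hS hf hO (by linarith : 0 < x) hxR
      have h2 := (hasDerivAt_id x).const_mul (2 * A / R ^ (m + 3))
      rw [mul_one] at h2
      exact h1.sub h2
    apply monotoneOn_of_deriv_nonneg (convex_Icc _ _)
    · intro x hx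
      exact (hder x hx.1 hx.2).continuousAt.continuousWithinAt
    · intro x hx
      rw [interior_Icc] at hx
      exact (hder x hx.1.le hx.2.le).differentiableAt.differentiableWithinAt
    · intro x hx
      rw [interior_Icc] at hx
      rw [(hder x hx.1.le hx.2.le).deriv]
      have hx0 : 0 < x := by
        have := hx.1
        linarith
      have h1 := hJ x hx.1.le hx.2.le
      have h2 : x ^ (m + 3) ≤ R ^ (m + 3) := pow_le_pow_left₀ hx0.le hx.2.le _
      have h3 : 2 * A / R ^ (m + 3) ≤ 2 * J (wt' 0) T ν y x / x ^ (m + 3) := by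
        apply div_le_div₀ (by linarith) (by linarith) (by positivity) h2
      linarith
  have h1 := hmono ⟨le_rfl, by linarith⟩ ⟨by linarith, le_rfl⟩ (by linarith : 3 * R / 4 ≤ R)
  dsimp only at h1
  -- upper and lower bounds of the smoothed ratios
  have h2 : I (wt 0) ν y R ≤ (Q + ε) * om m * K 0 * R ^ m := by
    apply (hK2 N ν y R ((Q + ε) * om m) 0 hR (by positivity)).2
    intro r hr hrR
    rw [e r hrR]
    have h3 := mono hS hO hr hrR
    rw [div_le_div_iff₀ (by positivity) (by positivity)] at h3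
    have h4 : μ.real (ball y R) * r ^ m ≤ (Q + ε) * om m * R ^ m * r ^ m :=
      mul_le_mul_of_nonneg_right hup (by positivity)
    have h5 : 0 < R ^ m := by positivity
    nlinarith
  have h3 : Q * om m * K 0 * (3 * R / 4) ^ m ≤ I (wt 0) ν y (3 * R / 4) := by
    apply (hK2 N ν y (3 * R / 4) (Q * om m) 0 (by positivity) (by positivity)).1
    intro r hr hrR
    rw [e r (by linarith)]
    exact hlow r hr (by linarith)
  have h4 : I (wt 0) ν y R / R ^ m ≤ (Q + ε) * om m * K 0 := by
    rw [div_le_iff₀ (by positivity)]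
    exact h2
  have h5 : Q * om m * K 0 ≤ I (wt 0) ν y (3 * R / 4) / (3 * R / 4) ^ m := by
    rw [le_div_iff₀ (by positivity)]
    exact h3
  have h6 : ε * om m * K 0 ≤ ε * om m := mul_le_of_le_one_right (by positivity) (hK 0).2
  have h7 : 2 * A / R ^ (m + 3) * (R / 4) ≤ ε * om m := by
    nlinarith
  have h8 : 2 * A / R ^ (m + 3) * (R / 4) = A / (2 * R ^ (m + 2)) := by
    field_simp
    ring
  rw [h8, div_le_iff₀ (by positivity)] at h7
  nlinarith

end Pool.Agent.Helper83K9.HD
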