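import Pool.Agent.Helper83K9.HD.Pl1
import Mathlib.Algebra.Order.Chebyshev

/-!
Many points of large density near a point force the varifold to be nearly flat there.
-/

set_option autoImplicit false

namespace Pool.Agent.Helper83K9.HD

open MeasureTheory Set Filter Topology Metric Pool.Agent.TH337.VF
open scoped ENNReal RealInnerProductSpace

namespace PlL

/-- the setting of `S_PL` -/
structure Cfg (N m : ℕ) (Q c ε : ℝ) (O : Set (E N)) (μ : Measure (E N))
    (T : E N → Submodule ℝ (E N)) (z : E N) (ρ : ℝ) (G : Set (E N)) : Prop where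
  nice : Nice m O μ T Q ε
  pos : 0 < ρ
  sub : closedBall z (20 * ρ) ⊆ O
  low : Low m μ Q z (16 * ρ)
  subG : G ⊆ ball z (2 * ρ)
  lowG : ∀ y ∈ G, Low m μ Q y (16 * ρ)
  massG : c * ρ ^ m ≤ μ.real G

variable {N m : ℕ} {Q c ε : ℝ} {O : Set (E N)} {μ : Measure (E N)} {T : E N → Submodule ℝ (E N)}
  {z : E N} {ρ : ℝ} {G : Set (E N)}

/-- the remainder of the monotonicity formula at `z` or at a point of `G` -/
lemma rem {C : ℝ} (hQ : 0 ≤ Q) (hε : 0 ≤ ε) (h : Cfg N m Q c ε O μ T z ρ G)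
    (hC : ∀ (O : Set (E N)) (μ : Measure (E N))
      (T : E N → Submodule ℝ (E N)), Stat m O μ (pr T) → ∀ (y : E N) (R Q ε : ℝ), 0 < R → 0 ≤ Q →
      0 ≤ ε → closedBall y R ⊆ O → Low m μ Q y R → μ.real (ball y R) ≤ (Q + ε) * om m * R ^ m →
      ∫ x in ball y (R / 2), ‖nor T x (x - y)‖ ^ 2 ∂μ ≤ C * ε * R ^ (m + 2))
    {y : E N} (hy : y = z ∨ y ∈ G) :
    ∫ x in closedBall z (4 * ρ), ‖nor T x (x - y)‖ ^ 2 ∂μ ≤ C * ε * (16 * ρ) ^ (m + 2) := by
  have hρ := h.pos
  have hyz : ‖y - z‖ ≤ 2 * ρ := by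
    rcases hy with rfl | hy
    · rw [sub_self, norm_zero]
      positivity
    · have := h.subG hy
      rw [mem_ball, dist_eq_norm] at this
      exact this.le
  have hyO : closedBall y (16 * ρ) ⊆ O := by
    refine (closedBall_subset_closedBall' ?_).trans h.sub
    rw [dist_eq_norm]
    linarith
  have hlow : Low m μ Q y (16 * ρ) := by
    rcases hy with rfl | hy
    · exact h.low
    · exact h.lowG y hy
  have h1 := hC O μ T h.nice.stat y (16 * ρ) Q ε (by positivity) hQ hε hyO hlow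
    (h.nice.up y _ (by positivity) hyO)
  refine le_trans ?_ h1
  have h2 : closedBall z (4 * ρ) ⊆ ball y (16 * ρ / 2) := by
    apply closedBall_subset_ball'
    rw [dist_comm, dist_eq_norm]
    linarith
  have h3 : ball y (16 * ρ / 2) ⊆ closedBall y (16 * ρ) :=
    ball_subset_closedBall.trans (closedBall_subset_closedBall (by linarith))
  refine setIntegral_mono_set (int_sq h.nice.stat (by fun_prop) hyO h3) ?_ h2.eventuallyLE
  filter_upwards with x
  positivity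

/-- a point of `G` away from a plane of small dimension -/
lemma away (hav2 : S_AV2) (hε : ε ≤ 1) (hQ : 1 ≤ Q) (h : Cfg N m Q c ε O μ T z ρ G) {k : ℕ}
    (hk : k + 1 ≤ m) {τ : ℝ} (hτ : 0 < τ) (hτ1 : τ ≤ 1)
    (hτc : 3 ^ m * 2 ^ m * ((Q + 1) * om m) * τ < c) {e : Fin k → E N} (he : Orthonormal ℝ e) :
    ∃ y ∈ G, τ * ρ < ‖perp e (y - z)‖ := by
  have hρ := h.pos
  have hom := om_pos m
  obtain ⟨φ, hφ⟩ := exists_iso he
  by_contra hcon
  push Not at hcon
  have hO6 : closedBall z (6 * ρ) ⊆ O := (closedBall_subset_closedBall (by linarith)).trans h.sub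
  have hfin : μ (ball z (6 * ρ)) < ⊤ := fin_ball h.nice.stat hO6
  have : IsFiniteMeasure (μ.restrict (ball z (6 * ρ))) := ⟨by simpa using hfin⟩
  have h1 := hav2 N m k φ (μ.restrict (ball z (6 * ρ))) z ρ τ ((Q + 1) * om m) hρ hτ hτ1
    (by positivity) (by omega) (by
      intro a ha
      have haO : closedBall a (2 * τ * ρ) ⊆ O := by
        refine (closedBall_subset_closedBall' ?_).trans h.sub
        rw [mem_ball] at ha
        nlinarith
      have h2 : (μ.restrict (ball z (6 * ρ))).real (ball a (2 * τ * ρ)) ≤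
          μ.real (ball a (2 * τ * ρ)) := by
        apply ENNReal.toReal_mono (fin_ball h.nice.stat haO).ne
        exact Measure.restrict_apply_le _ _
      refine h2.trans ((h.nice.up a _ (by positivity) haO).trans ?_)
      gcongr)
  set S : Set (E N) := {x | x ∈ ball z (2 * ρ) ∧ ∃ p, ‖x - z - φ p‖ ≤ τ * ρ} with hS
  have h2 : G ⊆ S ∩ ball z (6 * ρ) := by
    intro y hy
    refine ⟨⟨h.subG hy, WithLp.toLp 2 (fun j => ⟪e j, y - z⟫), ?_⟩,
      ball_subset_ball (by linarith) (h.subG hy)⟩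
    rw [hφ]
    exact hcon y hy
  have h3 : (μ.restrict (ball z (6 * ρ))).real S = μ.real (S ∩ ball z (6 * ρ)) := by
    unfold Measure.real
    rw [Measure.restrict_apply' measurableSet_ball]
  rw [h3] at h1
  have h4 : μ.real G ≤ μ.real (S ∩ ball z (6 * ρ)) :=
    measureReal_mono h2 ((measure_mono inter_subset_right).trans_lt hfin).ne
  have h5 := h.massG.trans (h4.trans h1)
  have h6 : τ ^ (m - k) ≤ τ := by
    calc τ ^ (m - k) ≤ τ ^ 1 := pow_le_pow_of_le_one hτ.le hτ1 (by omega)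
      _ = τ := pow_one τ
  have h7 : (3 : ℝ) ^ k ≤ 3 ^ m := pow_le_pow_right₀ (by norm_num) (by omega)
  have h8 : 3 ^ k * 2 ^ m * ((Q + 1) * om m) * τ ^ (m - k) * ρ ^ m ≤
      3 ^ m * 2 ^ m * ((Q + 1) * om m) * τ * ρ ^ m := by
    gcongr
  have h9 : 3 ^ m * 2 ^ m * ((Q + 1) * om m) * τ * ρ ^ m < c * ρ ^ m :=
    mul_lt_mul_of_pos_right hτc (by positivity)
  linarith

/-- one more direction -/
lemma next {C : ℝ} (hQ : 1 ≤ Q) (hε : 0 ≤ ε) (h : Cfg N m Q c ε O μ T z ρ G)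
    (hC : ∀ (O : Set (E N)) (μ : Measure (E N))
      (T : E N → Submodule ℝ (E N)), Stat m O μ (pr T) → ∀ (y : E N) (R Q ε : ℝ), 0 < R → 0 ≤ Q →
      0 ≤ ε → closedBall y R ⊆ O → Low m μ Q y R → μ.real (ball y R) ≤ (Q + ε) * om m * R ^ m →
      ∫ x in ball y (R / 2), ‖nor T x (x - y)‖ ^ 2 ∂μ ≤ C * ε * R ^ (m + 2))
    {k : ℕ} {e : Fin k → E N} {τ d : ℝ} (hτ : 0 < τ) (he : Orthonormal ℝ e)
    (hd : ∀ j, ∫ x in closedBall z (4 * ρ), ‖nor T x (e j)‖ ^ 2 ∂μ ≤ d * ρ ^ m)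
    {y : E N} (hy : y ∈ G) (hyτ : τ * ρ < ‖perp e (y - z)‖) :
    ∫ x in closedBall z (4 * ρ), ‖nor T x (‖perp e (y - z)‖⁻¹ • perp e (y - z))‖ ^ 2 ∂μ ≤
      3 / τ ^ 2 * (2 * (C * ε * 16 ^ (m + 2)) + 4 * k ^ 2 * d) * ρ ^ m := by
  have hρ := h.pos
  have hyz : ‖y - z‖ ≤ 2 * ρ := by
    have := h.subG hy
    rw [mem_ball, dist_eq_norm] at this
    exact this.le
  have hO4 : closedBall z (4 * ρ) ⊆ O := (closedBall_subset_closedBall (by linarith)).trans h.sub
  have i1 := rem (by linarith) hε h hC (y := z) (Or.inl rfl)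
  have i2 := rem (by linarith) hε h hC (y := y) (Or.inr hy)
  have n1 : IntegrableOn (fun x => ‖nor T x (x - z)‖ ^ 2) (closedBall z (4 * ρ)) μ :=
    int_sq h.nice.stat (by fun_prop) hO4 subset_rfl
  have n2 : IntegrableOn (fun x => ‖nor T x (x - y)‖ ^ 2) (closedBall z (4 * ρ)) μ :=
    int_sq h.nice.stat (by fun_prop) hO4 subset_rfl
  have n3 : ∀ v : E N, IntegrableOn (fun x => ‖nor T x v‖ ^ 2) (closedBall z (4 * ρ)) μ := fun v =>
    int_sq h.nice.stat (g := fun _ => v) continuous_const hO4 subset_rfl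
  set w := perp e (y - z) with hw
  have hw0 : 0 < ‖w‖ := lt_trans (by positivity) hyτ
  -- the pointwise bound
  have hpt : ∀ x, ‖nor T x (‖w‖⁻¹ • w)‖ ^ 2 ≤ 3 / (τ * ρ) ^ 2 * (‖nor T x (x - z)‖ ^ 2 +
      ‖nor T x (x - y)‖ ^ 2 + (k * (2 * ρ) ^ 2) * ∑ j, ‖nor T x (e j)‖ ^ 2) := by
    intro x
    have e1 : nor T x w = nor T x (x - z) - nor T x (x - y) -
        ∑ j, ⟪e j, y - z⟫ • nor T x (e j) := by
      have e2 : w = (x - z) - (x - y) - ∑ j, ⟪e j, y - z⟫ • e j := by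
        rw [hw]
        unfold perp
        congr 1
        abel
      rw [e2, nor_sub, nor_sub, nor_sum]
      simp only [nor_smul]
    have e3 : ‖nor T x w‖ ≤ ‖nor T x (x - z)‖ + ‖nor T x (x - y)‖ +
        ∑ j, 2 * ρ * ‖nor T x (e j)‖ := by
      rw [e1]
      refine (norm_sub_le _ _).trans (add_le_add (norm_sub_le _ _) ?_)
      refine (norm_sum_le _ _).trans (Finset.sum_le_sum fun j _ => ?_)
      rw [norm_smul, Real.norm_eq_abs]
      apply mul_le_mul_of_nonneg_right _ (norm_nonneg _)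
      have := abs_real_inner_le_norm (e j) (y - z)
      rw [he.1 j, one_mul] at this
      exact this.trans hyz
    have e4 : (∑ j, 2 * ρ * ‖nor T x (e j)‖) ^ 2 ≤
        (k * (2 * ρ) ^ 2) * ∑ j, ‖nor T x (e j)‖ ^ 2 := by
      refine (sq_sum_le_card_mul_sum_sq).trans (le_of_eq ?_)
      rw [Finset.card_univ, Fintype.card_fin]
      simp only [mul_pow]
      rw [← Finset.mul_sum]
      ring
    have e5 : ‖nor T x w‖ ^ 2 ≤ 3 * (‖nor T x (x - z)‖ ^ 2 +
        ‖nor T x (x - y)‖ ^ 2 + (k * (2 * ρ) ^ 2) * ∑ j, ‖nor T x (e j)‖ ^ 2) := by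
      have e6 := pow_le_pow_left₀ (norm_nonneg _) e3 2
      set a := ‖nor T x (x - z)‖
      set b := ‖nor T x (x - y)‖
      set s := ∑ j, 2 * ρ * ‖nor T x (e j)‖
      nlinarith [sq_nonneg (a - b), sq_nonneg (a - s), sq_nonneg (b - s)]
    rw [nor_smul, norm_smul, norm_inv, norm_norm, mul_pow]
    have e7 : (‖w‖⁻¹) ^ 2 ≤ 1 / (τ * ρ) ^ 2 := by
      rw [inv_pow, ← one_div]
      apply one_div_le_one_div_of_le (by positivity)
      exact pow_le_pow_left₀ (by positivity) hyτ.le 2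
    calc (‖w‖⁻¹) ^ 2 * ‖nor T x w‖ ^ 2 ≤ 1 / (τ * ρ) ^ 2 * (3 * (‖nor T x (x - z)‖ ^ 2 +
          ‖nor T x (x - y)‖ ^ 2 + (k * (2 * ρ) ^ 2) * ∑ j, ‖nor T x (e j)‖ ^ 2)) := by
          gcongr
      _ = _ := by ring
  have n4 : IntegrableOn (fun x => ∑ j, ‖nor T x (e j)‖ ^ 2) (closedBall z (4 * ρ)) μ :=
    integrable_finsetSum _ fun j _ => n3 (e j)
  have hsum : ∫ x in closedBall z (4 * ρ), ∑ j, ‖nor T x (e j)‖ ^ 2 ∂μ ≤ k * (d * ρ ^ m) := by
    rw [integral_finsetSum _ fun j _ => n3 (e j)]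
    calc ∑ j, ∫ x in closedBall z (4 * ρ), ‖nor T x (e j)‖ ^ 2 ∂μ ≤ ∑ _j : Fin k, d * ρ ^ m :=
          Finset.sum_le_sum fun j _ => hd j
      _ = _ := by simp
  calc ∫ x in closedBall z (4 * ρ), ‖nor T x (‖w‖⁻¹ • w)‖ ^ 2 ∂μ
      ≤ ∫ x in closedBall z (4 * ρ), (3 / (τ * ρ) ^ 2 * (‖nor T x (x - z)‖ ^ 2 +
      ‖nor T x (x - y)‖ ^ 2 + (k * (2 * ρ) ^ 2) * ∑ j, ‖nor T x (e j)‖ ^ 2)) ∂μ := by
        refine setIntegral_mono (n3 _) ?_ hpt
        exact ((n1.add n2).add (n4.const_mul _)).const_mul _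
    _ = 3 / (τ * ρ) ^ 2 * (∫ x in closedBall z (4 * ρ), ‖nor T x (x - z)‖ ^ 2 ∂μ +
        ∫ x in closedBall z (4 * ρ), ‖nor T x (x - y)‖ ^ 2 ∂μ +
        (k * (2 * ρ) ^ 2) * ∫ x in closedBall z (4 * ρ), ∑ j, ‖nor T x (e j)‖ ^ 2 ∂μ) := by
        have n12 : IntegrableOn (fun x => ‖nor T x (x - z)‖ ^ 2 + ‖nor T x (x - y)‖ ^ 2)
          (closedBall z (4 * ρ)) μ := n1.add n2
        have n5 : IntegrableOn (fun x => (k * (2 * ρ) ^ 2) * ∑ j, ‖nor T x (e j)‖ ^ 2)
          (closedBall z (4 * ρ)) μ := n4.const_mul _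
        rw [integral_const_mul, integral_add n12 n5, integral_add n1 n2, integral_const_mul]
    _ ≤ 3 / (τ * ρ) ^ 2 * (C * ε * (16 * ρ) ^ (m + 2) + C * ε * (16 * ρ) ^ (m + 2) +
        (k * (2 * ρ) ^ 2) * (k * (d * ρ ^ m))) := by
        gcongr
    _ = 3 / τ ^ 2 * (2 * (C * ε * 16 ^ (m + 2)) + 4 * k ^ 2 * d) * ρ ^ m := by
        rw [mul_pow 16 ρ, mul_pow τ ρ, mul_pow 2 ρ, pow_add ρ m 2]
        field_simp
        ring

lemma Cfg.mono {ε' : ℝ} (h : Cfg N m Q c ε O μ T z ρ G) (he : ε ≤ ε') :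
    Cfg N m Q c ε' O μ T z ρ G :=
  ⟨h.nice.mono he, h.pos, h.sub, h.low, h.subG, h.lowG, h.massG⟩

lemma good (mr : S_MR) (av2 : S_AV2) (N m : ℕ) {Q c : ℝ} (hQ : 1 ≤ Q) (hc : 0 < c) :
    ∀ k : ℕ, k ≤ m → ∀ δ : ℝ, 0 < δ → ∃ ε : ℝ, 0 < ε ∧ ε ≤ 1 ∧ ∀ (O : Set (E N))
      (μ : Measure (E N)) (T : E N → Submodule ℝ (E N)) (z : E N) (ρ : ℝ) (G : Set (E N)),
      Cfg N m Q c ε O μ T z ρ G → ∃ e : Fin k → E N, Orthonormal ℝ e ∧
        ∀ j, ∫ x in closedBall z (4 * ρ), ‖nor T x (e j)‖ ^ 2 ∂μ ≤ δ * ρ ^ m := by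
  obtain ⟨C, hC0, hC⟩ := mr N m
  have hom := om_pos m
  intro k
  induction k with
  | zero =>
    intro _ δ _
    exact ⟨1, one_pos, le_rfl, fun _ _ _ _ _ _ _ => ⟨Fin.elim0,
      ⟨fun i => i.elim0, fun i => i.elim0⟩, fun j => j.elim0⟩⟩
  | succ k ih =>
    intro hk δ hδ
    have hM : 0 < 3 ^ m * 2 ^ m * ((Q + 1) * om m) := by positivity
    set τ : ℝ := min 1 (c / (2 * (3 ^ m * 2 ^ m * ((Q + 1) * om m)))) with hτd
    have hτ : 0 < τ := lt_min one_pos (by positivity)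
    have hτ1 : τ ≤ 1 := min_le_left _ _
    have hτc : 3 ^ m * 2 ^ m * ((Q + 1) * om m) * τ < c := by
      have h1 : τ ≤ c / (2 * (3 ^ m * 2 ^ m * ((Q + 1) * om m))) := min_le_right _ _
      calc 3 ^ m * 2 ^ m * ((Q + 1) * om m) * τ ≤ 3 ^ m * 2 ^ m * ((Q + 1) * om m) *
            (c / (2 * (3 ^ m * 2 ^ m * ((Q + 1) * om m)))) := mul_le_mul_of_nonneg_left h1 hM.le
        _ = c / 2 := by field_simp
        _ < c := by linarith
    set d : ℝ := δ * τ ^ 2 / (24 * (k + 1) ^ 2) with hdd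
    have hd0 : 0 < d := by positivity
    have hdδ : d ≤ δ := by
      rw [hdd, div_le_iff₀ (by positivity)]
      have h1 : τ ^ 2 ≤ 1 := pow_le_one₀ hτ.le hτ1
      have h2 : (1 : ℝ) ≤ 24 * (k + 1) ^ 2 := by
        have : (0 : ℝ) ≤ k := Nat.cast_nonneg k
        nlinarith
      calc δ * τ ^ 2 ≤ δ * 1 := mul_le_mul_of_nonneg_left h1 hδ.le
        _ ≤ δ * (24 * (k + 1) ^ 2) := mul_le_mul_of_nonneg_left h2 hδ.le
    obtain ⟨ε₁, hε₁, hε₁1, h1⟩ := ih (by omega) d hd0
    refine ⟨min ε₁ (δ * τ ^ 2 / (12 * C * 16 ^ (m + 2))), lt_min hε₁ (by positivity),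
      (min_le_left _ _).trans hε₁1, fun O μ T z ρ G h => ?_⟩
    set ε : ℝ := min ε₁ (δ * τ ^ 2 / (12 * C * 16 ^ (m + 2))) with hεd
    have hε0 : 0 < ε := lt_min hε₁ (by positivity)
    have hε1 : ε ≤ 1 := (min_le_left _ _).trans hε₁1
    have hρ := h.pos
    obtain ⟨e, he, hde⟩ := h1 O μ T z ρ G (h.mono (min_le_left _ _))
    obtain ⟨y, hy, hyτ⟩ := away av2 hε1 hQ h hk hτ hτ1 hτc he
    have h2 := next hQ hε0.le h hC hτ he hde hy hyτ
    have hw : perp e (y - z) ≠ 0 := by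
      rw [← norm_pos_iff]
      exact lt_trans (by positivity) hyτ
    refine ⟨_, extend he hw, fun j => ?_⟩
    rcases Fin.eq_castSucc_or_eq_last j with ⟨j, rfl⟩ | rfl
    · rw [Fin.snoc_castSucc]
      exact (hde j).trans (mul_le_mul_of_nonneg_right hdδ (by positivity))
    · rw [Fin.snoc_last]
      refine h2.trans (mul_le_mul_of_nonneg_right ?_ (by positivity))
      have h3 : C * ε * 16 ^ (m + 2) ≤ δ * τ ^ 2 / 12 := by
        have h4 : ε ≤ δ * τ ^ 2 / (12 * C * 16 ^ (m + 2)) := min_le_right _ _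
        calc C * ε * 16 ^ (m + 2) ≤ C * (δ * τ ^ 2 / (12 * C * 16 ^ (m + 2))) * 16 ^ (m + 2) := by
              gcongr
          _ = δ * τ ^ 2 / 12 := by field_simp
      have h5 : 4 * (k : ℝ) ^ 2 * d ≤ δ * τ ^ 2 / 6 := by
        rw [hdd, le_div_iff₀ (by norm_num)]
        have h6 : (k : ℝ) ^ 2 ≤ (k + 1) ^ 2 := by
          have : (0 : ℝ) ≤ k := Nat.cast_nonneg k
          nlinarith
        calc 4 * (k : ℝ) ^ 2 * (δ * τ ^ 2 / (24 * (k + 1) ^ 2)) * 6
            = δ * τ ^ 2 * ((k : ℝ) ^ 2 / (k + 1) ^ 2) := by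
              field_simp
              ring
          _ ≤ δ * τ ^ 2 * 1 := by
              apply mul_le_mul_of_nonneg_left _ (by positivity)
              rw [div_le_one (by positivity)]
              exact h6
          _ = δ * τ ^ 2 := mul_one _
      calc 3 / τ ^ 2 * (2 * (C * ε * 16 ^ (m + 2)) + 4 * k ^ 2 * d)
          ≤ 3 / τ ^ 2 * (2 * (δ * τ ^ 2 / 12) + δ * τ ^ 2 / 6) := by gcongr
        _ = δ := by
            field_simp
            ring

/-- heights above the plane -/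
lemma height (h : Cfg N m Q c ε O μ T z ρ G) {e : Fin m → E N} (he : Orthonormal ℝ e) {d C' : ℝ}
    (hd : ∀ j, ∫ x in closedBall z (4 * ρ), ‖nor T x (e j)‖ ^ 2 ∂μ ≤ d * ρ ^ m)
    (hz : ∫ x in closedBall z (4 * ρ), ‖nor T x (x - z)‖ ^ 2 ∂μ ≤ C') {L : Submodule ℝ (E N)}
    (hL : L = Submodule.span ℝ (range e)) :
    ∫ x in closedBall z (4 * ρ), ‖(x - z) - L.starProjection (x - z)‖ ^ 2 ∂μ ≤
      2 * (4 * ρ) ^ 2 * (m * (d * ρ ^ m)) + 2 * C' := by
  have hρ := h.pos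
  have hO4 : closedBall z (4 * ρ) ⊆ O := (closedBall_subset_closedBall (by linarith)).trans h.sub
  have hfin : μ (closedBall z (4 * ρ)) < ⊤ := h.nice.stat.fin _ hO4 (isCompact_closedBall _ _)
  have : IsFiniteMeasure (μ.restrict (closedBall z (4 * ρ))) := ⟨by simpa using hfin⟩
  have n1 : IntegrableOn (fun x => ‖nor T x (x - z)‖ ^ 2) (closedBall z (4 * ρ)) μ :=
    int_sq h.nice.stat (by fun_prop) hO4 subset_rfl
  have n3 : ∀ v : E N, IntegrableOn (fun x => ‖nor T x v‖ ^ 2) (closedBall z (4 * ρ)) μ := fun v =>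
    int_sq h.nice.stat (g := fun _ => v) continuous_const hO4 subset_rfl
  have n4 : IntegrableOn (fun x => ∑ j, ‖nor T x (e j)‖ ^ 2) (closedBall z (4 * ρ)) μ :=
    integrable_finsetSum _ fun j _ => n3 (e j)
  have n5 : IntegrableOn (fun x => 2 * (4 * ρ) ^ 2 * ∑ j, ‖nor T x (e j)‖ ^ 2)
    (closedBall z (4 * ρ)) μ := n4.const_mul _
  have n6 : IntegrableOn (fun x => 2 * ‖nor T x (x - z)‖ ^ 2) (closedBall z (4 * ρ)) μ :=
    n1.const_mul _
  have hq : ∀ u : E N, ‖u - L.starProjection u‖ ≤ ‖u‖ := by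
    intro u
    have e1 : u - L.starProjection u = Lᗮ.starProjection u := by
      rw [Submodule.starProjection_orthogonal_val]
    rw [e1]
    exact Submodule.norm_starProjection_apply_le _ _
  have hpt : ∀ᵐ x ∂(μ.restrict (closedBall z (4 * ρ))),
      ‖(x - z) - L.starProjection (x - z)‖ ^ 2 ≤
        2 * (4 * ρ) ^ 2 * ∑ j, ‖nor T x (e j)‖ ^ 2 + 2 * ‖nor T x (x - z)‖ ^ 2 := by
    filter_upwards [ae_restrict_of_ae_restrict_of_subset hO4 h.nice.stat.tr,
      ae_restrict_mem isClosed_closedBall.measurableSet] with x hx hxz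
    have hT : Module.finrank ℝ (T x) = m := by
      have := trc_starProjection (T x)
      have h2 : trc (pr T x) = trc (T x).starProjection := rfl
      rw [h2, this] at hx
      exact_mod_cast hx
    rw [mem_closedBall, dist_eq_norm] at hxz
    have h1 := cross hT he hL (x - z)
    have h2 : (x - z) - L.starProjection (x - z) =
        ((T x).starProjection (x - z) - L.starProjection ((T x).starProjection (x - z))) +
        (nor T x (x - z) - L.starProjection (nor T x (x - z))) := by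
      have e1 : x - z = (T x).starProjection (x - z) + nor T x (x - z) := by
        unfold nor
        abel
      conv_lhs => rw [e1, map_add]
      abel
    have h3 := hq (nor T x (x - z))
    set a := ‖(T x).starProjection (x - z) - L.starProjection ((T x).starProjection (x - z))‖
    set b := ‖nor T x (x - z) - L.starProjection (nor T x (x - z))‖
    have h4 : ‖(x - z) - L.starProjection (x - z)‖ ≤ a + b := by
      rw [h2]
      exact norm_add_le _ _
    have h5 : b ^ 2 ≤ ‖nor T x (x - z)‖ ^ 2 := pow_le_pow_left₀ (norm_nonneg _) h3 2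
    have h6 : a ^ 2 ≤ (4 * ρ) ^ 2 * ∑ j, ‖nor T x (e j)‖ ^ 2 := by
      refine h1.trans ?_
      apply mul_le_mul_of_nonneg_right (pow_le_pow_left₀ (norm_nonneg _) hxz 2)
      exact Finset.sum_nonneg fun _ _ => by positivity
    have h7 := pow_le_pow_left₀ (norm_nonneg _) h4 2
    nlinarith [sq_nonneg (a - b)]
  have n7 : IntegrableOn (fun x => ‖(x - z) - L.starProjection (x - z)‖ ^ 2)
      (closedBall z (4 * ρ)) μ := by
    have hcont : Continuous fun x : E N => ‖(x - z) - L.starProjection (x - z)‖ ^ 2 := by fun_prop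
    exact hcont.continuousOn.integrableOn_of_subset_isCompact (isCompact_closedBall _ _)
      isClosed_closedBall.measurableSet subset_rfl hfin.ne
  have n8 : IntegrableOn (fun x => 2 * (4 * ρ) ^ 2 * ∑ j, ‖nor T x (e j)‖ ^ 2 +
      2 * ‖nor T x (x - z)‖ ^ 2) (closedBall z (4 * ρ)) μ := n5.add n6
  calc ∫ x in closedBall z (4 * ρ), ‖(x - z) - L.starProjection (x - z)‖ ^ 2 ∂μ
      ≤ ∫ x in closedBall z (4 * ρ), (2 * (4 * ρ) ^ 2 * ∑ j, ‖nor T x (e j)‖ ^ 2 +
        2 * ‖nor T x (x - z)‖ ^ 2) ∂μ := integral_mono_ae n7 n8 hpt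
    _ = 2 * (4 * ρ) ^ 2 * ∑ j, ∫ x in closedBall z (4 * ρ), ‖nor T x (e j)‖ ^ 2 ∂μ +
        2 * ∫ x in closedBall z (4 * ρ), ‖nor T x (x - z)‖ ^ 2 ∂μ := by
        rw [integral_add n5 n6, integral_const_mul, integral_const_mul,
          integral_finsetSum _ fun j _ => n3 (e j)]
    _ ≤ 2 * (4 * ρ) ^ 2 * ∑ _j : Fin m, d * ρ ^ m + 2 * C' := by
        gcongr with j _
        exact hd j
    _ = _ := by simp

end PlL

open PlL in
theorem pl (mr : S_MR) (av2 : S_AV2) : S_PL := by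
  intro N m hm Q c δ hQ hc hδ
  obtain ⟨C, hC0, hC⟩ := mr N m
  have hom := om_pos m
  set δ₁ : ℝ := min δ 1 with hδ₁d
  have hδ₁ : 0 < δ₁ := lt_min hδ one_pos
  have hδ₁1 : δ₁ ≤ 1 := min_le_right _ _
  have hδ₁δ : δ₁ ≤ δ := min_le_left _ _
  set κ : ℝ := (δ₁ / 2) ^ (m + 2) * om m with hκd
  have hκ : 0 < κ := by positivity
  have hm0 : (0 : ℝ) < m := by exact_mod_cast hm
  set d : ℝ := min (δ / m ^ 2) (κ / (128 * m)) with hdd
  have hd0 : 0 < d := lt_min (by positivity) (by positivity)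
  have hd1 : m ^ 2 * d ≤ δ := by
    have : d ≤ δ / m ^ 2 := min_le_left _ _
    calc m ^ 2 * d ≤ m ^ 2 * (δ / m ^ 2) := mul_le_mul_of_nonneg_left this (by positivity)
      _ = δ := by field_simp
  have hd2 : 32 * (m * d) ≤ κ / 4 := by
    have : d ≤ κ / (128 * m) := min_le_right _ _
    calc 32 * (m * d) ≤ 32 * (m * (κ / (128 * m))) := by gcongr
      _ = κ / 4 := by
        field_simp
        norm_num
  obtain ⟨ε₁, hε₁, hε₁1, h1⟩ := good mr av2 N m hQ hc m le_rfl d hd0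
  refine ⟨min ε₁ (κ / (8 * C * 16 ^ (m + 2))), lt_min hε₁ (by positivity),
    (min_le_left _ _).trans hε₁1, fun O μ T hN z ρ hρ hO hlow G hG hlowG hmass => ?_⟩
  set ε : ℝ := min ε₁ (κ / (8 * C * 16 ^ (m + 2))) with hεd
  have hε0 : 0 < ε := lt_min hε₁ (by positivity)
  have h : Cfg N m Q c ε O μ T z ρ G := ⟨hN, hρ, hO, hlow, hG, hlowG, hmass⟩
  obtain ⟨e, he, hde⟩ := h1 O μ T z ρ G (h.mono (min_le_left _ _))
  have hCε : 2 * (C * ε * 16 ^ (m + 2)) ≤ κ / 4 := by
    have h4 : ε ≤ κ / (8 * C * 16 ^ (m + 2)) := min_le_right _ _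
    calc 2 * (C * ε * 16 ^ (m + 2)) ≤ 2 * (C * (κ / (8 * C * 16 ^ (m + 2))) * 16 ^ (m + 2)) := by
          gcongr
      _ = κ / 4 := by
          field_simp
          norm_num
  have hO4 : closedBall z (4 * ρ) ⊆ O := (closedBall_subset_closedBall (by linarith)).trans h.sub
  have hfin : μ (closedBall z (4 * ρ)) < ⊤ := h.nice.stat.fin _ hO4 (isCompact_closedBall _ _)
  have n3 : ∀ v : E N, IntegrableOn (fun x => ‖nor T x v‖ ^ 2) (closedBall z (4 * ρ)) μ := fun v =>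
    int_sq h.nice.stat (g := fun _ => v) continuous_const hO4 subset_rfl
  have n4 : IntegrableOn (fun x => ∑ j, ‖nor T x (e j)‖ ^ 2) (closedBall z (4 * ρ)) μ :=
    integrable_finsetSum _ fun j _ => n3 (e j)
  refine ⟨Submodule.span ℝ (range e), ?_, ?_, ?_⟩
  · rw [finrank_span_eq_card he.linearIndependent, Fintype.card_fin]
  · intro v hv hv1
    have hv2 : v = ∑ j, ⟪e j, v⟫ • e j := by
      rw [← star_eq he rfl]
      exact (Submodule.starProjection_eq_self_iff.2 hv).symm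
    have hpt : ∀ x, ‖nor T x v‖ ^ 2 ≤ m * ∑ j, ‖nor T x (e j)‖ ^ 2 := by
      intro x
      have e1 : ‖nor T x v‖ ≤ ∑ j, ‖nor T x (e j)‖ := by
        conv_lhs => rw [hv2, nor_sum]
        refine (norm_sum_le _ _).trans (Finset.sum_le_sum fun j _ => ?_)
        rw [nor_smul, norm_smul, Real.norm_eq_abs]
        have := abs_real_inner_le_norm (e j) v
        rw [he.1 j, one_mul] at this
        have h2 : |⟪e j, v⟫| ≤ 1 := this.trans hv1
        calc |⟪e j, v⟫| * ‖nor T x (e j)‖ ≤ 1 * ‖nor T x (e j)‖ :=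
              mul_le_mul_of_nonneg_right h2 (norm_nonneg _)
          _ = _ := one_mul _
      refine (pow_le_pow_left₀ (norm_nonneg _) e1 2).trans (sq_sum_le_card_mul_sum_sq.trans
        (le_of_eq ?_))
      rw [Finset.card_univ, Fintype.card_fin]
    calc ∫ x in closedBall z (4 * ρ), ‖nor T x v‖ ^ 2 ∂μ
        ≤ ∫ x in closedBall z (4 * ρ), m * ∑ j, ‖nor T x (e j)‖ ^ 2 ∂μ :=
          setIntegral_mono (n3 v) (n4.const_mul _) hpt
      _ = m * ∑ j, ∫ x in closedBall z (4 * ρ), ‖nor T x (e j)‖ ^ 2 ∂μ := by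
          rw [integral_const_mul, integral_finsetSum _ fun j _ => n3 (e j)]
      _ ≤ m * ∑ _j : Fin m, d * ρ ^ m := by
          gcongr with j _
          exact hde j
      _ = (m ^ 2 * d) * ρ ^ m := by
          rw [Finset.sum_const, Finset.card_univ, Fintype.card_fin, nsmul_eq_mul]
          ring
      _ ≤ δ * ρ ^ m := mul_le_mul_of_nonneg_right hd1 (by positivity)
  · intro x₀ hx₀ hx₀z
    set L := Submodule.span ℝ (range e) with hL
    by_contra hcon
    push Not at hcon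
    have i1 := height h he hde (rem (by linarith) hε0.le h hC (y := z) (Or.inl rfl)) hL
    set r : ℝ := δ₁ * ρ / 2 with hr
    have hr0 : 0 < r := by positivity
    have hrρ : r ≤ ρ / 2 := by
      rw [hr]
      nlinarith
    rw [mem_ball, dist_eq_norm] at hx₀z
    have hbz : ball x₀ r ⊆ closedBall z (4 * ρ) := by
      refine ball_subset_closedBall.trans (closedBall_subset_closedBall' ?_)
      rw [dist_eq_norm]
      linarith
    have hcO : closedBall x₀ r ⊆ O := by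
      refine (closedBall_subset_closedBall' ?_).trans hO4
      rw [dist_eq_norm]
      linarith
    have hmassr := hN.low x₀ hx₀ r hr0 hcO
    have hq : ∀ u : E N, ‖u - L.starProjection u‖ ≤ ‖u‖ := by
      intro u
      have e1 : u - L.starProjection u = Lᗮ.starProjection u := by
        rw [Submodule.starProjection_orthogonal_val]
      rw [e1]
      exact Submodule.norm_starProjection_apply_le _ _
    have hpt : ∀ x ∈ ball x₀ r, r ^ 2 ≤ ‖(x - z) - L.starProjection (x - z)‖ ^ 2 := by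
      intro x hx
      apply pow_le_pow_left₀ hr0.le
      have e1 : (x₀ - z) - L.starProjection (x₀ - z) =
          ((x - z) - L.starProjection (x - z)) + ((x₀ - x) - L.starProjection (x₀ - x)) := by
        have e2 : x₀ - z = (x - z) + (x₀ - x) := by abel
        conv_lhs => rw [e2, map_add]
        abel
      have e3 : ‖(x₀ - z) - L.starProjection (x₀ - z)‖ ≤
          ‖(x - z) - L.starProjection (x - z)‖ + ‖x₀ - x‖ := by
        rw [e1]
        refine (norm_add_le _ _).trans ?_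
        have := hq (x₀ - x)
        linarith
      rw [mem_ball, dist_comm, dist_eq_norm] at hx
      have e4 : 2 * r ≤ δ * ρ := by
        rw [hr]
        nlinarith
      linarith
    have n7 : IntegrableOn (fun x => ‖(x - z) - L.starProjection (x - z)‖ ^ 2)
        (closedBall z (4 * ρ)) μ := by
      have hcont : Continuous fun x : E N => ‖(x - z) - L.starProjection (x - z)‖ ^ 2 := by
        fun_prop
      exact hcont.continuousOn.integrableOn_of_subset_isCompact (isCompact_closedBall _ _)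
        isClosed_closedBall.measurableSet subset_rfl hfin.ne
    have i2 : r ^ 2 * μ.real (ball x₀ r) ≤
        ∫ x in closedBall z (4 * ρ), ‖(x - z) - L.starProjection (x - z)‖ ^ 2 ∂μ := by
      have e1 : ∫ x in ball x₀ r, ‖(x - z) - L.starProjection (x - z)‖ ^ 2 ∂μ ≤
          ∫ x in closedBall z (4 * ρ), ‖(x - z) - L.starProjection (x - z)‖ ^ 2 ∂μ := by
        refine setIntegral_mono_set n7 ?_ hbz.eventuallyLE
        filter_upwards with x
        positivity
      have e2 : ∫ _x in ball x₀ r, r ^ 2 ∂μ ≤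
          ∫ x in ball x₀ r, ‖(x - z) - L.starProjection (x - z)‖ ^ 2 ∂μ := by
        refine setIntegral_mono_on ?_ (n7.mono_set hbz) measurableSet_ball hpt
        exact integrableOn_const ((measure_mono hbz).trans_lt hfin).ne
      rw [setIntegral_const, smul_eq_mul] at e2
      linarith
    have i3 : κ * ρ ^ (m + 2) ≤ r ^ 2 * μ.real (ball x₀ r) := by
      calc κ * ρ ^ (m + 2) = r ^ 2 * (om m * r ^ m) := by
            rw [hκd, hr]
            rw [show δ₁ * ρ / 2 = (δ₁ / 2) * ρ by ring, mul_pow, mul_pow]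
            ring
        _ ≤ _ := mul_le_mul_of_nonneg_left hmassr (by positivity)
    have i4 : 2 * (4 * ρ) ^ 2 * (m * (d * ρ ^ m)) + 2 * (C * ε * (16 * ρ) ^ (m + 2)) =
        (32 * (m * d) + 2 * (C * ε * 16 ^ (m + 2))) * ρ ^ (m + 2) := by
      rw [mul_pow 16 ρ, pow_add ρ m 2]
      ring
    rw [i4] at i1
    have i5 : (32 * (m * d) + 2 * (C * ε * 16 ^ (m + 2))) * ρ ^ (m + 2) ≤
        (κ / 2) * ρ ^ (m + 2) := mul_le_mul_of_nonneg_right (by linarith) (by positivity)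
    have i6 : (κ / 2) * ρ ^ (m + 2) < κ * ρ ^ (m + 2) :=
      mul_lt_mul_of_pos_right (by linarith) (by positivity)
    linarith

end Pool.Agent.Helper83K9.HD
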