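import Pool.Agent.Helper83K9.HD.Base

/-!
Nearly flat varifolds: linear algebra and measurability.
-/

set_option autoImplicit false

namespace Pool.Agent.Helper83K9.HD

open MeasureTheory Set Filter Topology Metric Pool.Agent.TH337.VF
open scoped ENNReal RealInnerProductSpace

namespace PlL

variable {N : ℕ} {ι : Type*} [Fintype ι]

/-- the component orthogonal to an orthonormal family -/
noncomputable def perp (e : ι → E N) (v : E N) : E N := v - ∑ j, ⟪e j, v⟫ • e j

lemma perp_inner {e : ι → E N} (he : Orthonormal ℝ e) (v : E N) (i : ι) : ⟪e i, perp e v⟫ = 0 := by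
  unfold perp
  rw [inner_sub_right, he.inner_right_fintype, sub_self]

lemma perp_sq {e : ι → E N} (he : Orthonormal ℝ e) (v : E N) :
    ‖perp e v‖ ^ 2 = ‖v‖ ^ 2 - ∑ j, ⟪e j, v⟫ ^ 2 := by
  have h1 : ⟪perp e v, ∑ j, ⟪e j, v⟫ • e j⟫ = 0 := by
    rw [inner_sum]
    refine Finset.sum_eq_zero fun j _ => ?_
    rw [inner_smul_right, real_inner_comm (e j) (perp e v), perp_inner he, mul_zero]
  have h2 : ‖perp e v‖ ^ 2 = ⟪perp e v, v⟫ := by
    rw [← real_inner_self_eq_norm_sq]
    conv_lhs => rw [show ⟪perp e v, perp e v⟫ = ⟪perp e v, v - ∑ j, ⟪e j, v⟫ • e j⟫ from rfl]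
    rw [inner_sub_right, h1, sub_zero]
  rw [h2]
  unfold perp
  rw [inner_sub_left, real_inner_self_eq_norm_sq, sum_inner]
  congr 1
  refine Finset.sum_congr rfl fun j _ => ?_
  rw [inner_smul_left]
  simp [sq]

lemma bessel {e : ι → E N} (he : Orthonormal ℝ e) (v : E N) :
    ∑ j, ⟪e j, v⟫ ^ 2 ≤ ‖v‖ ^ 2 := by
  have := perp_sq he v
  have := sq_nonneg ‖perp e v‖
  linarith

lemma star_eq {e : ι → E N} (he : Orthonormal ℝ e) {L : Submodule ℝ (E N)}
    (hL : L = Submodule.span ℝ (range e)) (v : E N) :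
    L.starProjection v = ∑ j, ⟪e j, v⟫ • e j := by
  apply Submodule.eq_starProjection_of_mem_of_inner_eq_zero
  · rw [hL]
    exact Submodule.sum_mem _ fun j _ =>
      Submodule.smul_mem _ _ (Submodule.subset_span (mem_range_self j))
  · intro w hw
    rw [hL] at hw
    induction hw using Submodule.span_induction with
    | mem x hx =>
      obtain ⟨i, rfl⟩ := hx
      rw [real_inner_comm]
      exact perp_inner he v i
    | zero => exact inner_zero_right _
    | add x y _ _ hx hy => rw [inner_add_right, hx, hy, add_zero]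
    | smul a x _ hx => rw [inner_smul_right, hx, mul_zero]

lemma exists_basis {m : ℕ} (T : Submodule ℝ (E N)) (hT : Module.finrank ℝ T = m) :
    ∃ t : Fin m → E N, Orthonormal ℝ t ∧ T = Submodule.span ℝ (range t) := by
  let b := (stdOrthonormalBasis ℝ T).reindex (finCongr hT)
  refine ⟨fun i => (b i : E N), ?_, ?_⟩
  · exact b.orthonormal.comp_linearIsometry T.subtypeₗᵢ
  · have h1 := b.toBasis.span_eq
    have h2 : range (fun i => (b i : E N)) = T.subtype '' range b.toBasis := by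
      rw [← range_comp]
      congr 1
    rw [h2, Submodule.span_image, h1, Submodule.map_top, Submodule.range_subtype]

/-- the part of a projected vector orthogonal to another space of the same dimension -/
lemma cross {m : ℕ} {T L : Submodule ℝ (E N)} (hT : Module.finrank ℝ T = m) {e : Fin m → E N}
    (he : Orthonormal ℝ e) (hL : L = Submodule.span ℝ (range e)) (v : E N) :
    ‖T.starProjection v - L.starProjection (T.starProjection v)‖ ^ 2 ≤
      ‖v‖ ^ 2 * ∑ j, ‖e j - T.starProjection (e j)‖ ^ 2 := by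
  obtain ⟨t, ht, hTt⟩ := exists_basis T hT
  have h1 : T.starProjection v - L.starProjection (T.starProjection v) =
      ∑ i, ⟪t i, v⟫ • perp e (t i) := by
    rw [star_eq ht hTt, map_sum, ← Finset.sum_sub_distrib]
    refine Finset.sum_congr rfl fun i _ => ?_
    rw [map_smul, ← smul_sub, star_eq he hL]
    rfl
  have h2 : ‖∑ i, ⟪t i, v⟫ • perp e (t i)‖ ≤ ∑ i, |⟪t i, v⟫| * ‖perp e (t i)‖ := by
    refine (norm_sum_le _ _).trans (le_of_eq ?_)
    exact Finset.sum_congr rfl fun i _ => by rw [norm_smul, Real.norm_eq_abs]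
  have h3 : (∑ i, |⟪t i, v⟫| * ‖perp e (t i)‖) ^ 2 ≤
      (∑ i, |⟪t i, v⟫| ^ 2) * ∑ i, ‖perp e (t i)‖ ^ 2 := Finset.sum_mul_sq_le_sq_mul_sq _ _ _
  have h4 : ∑ i, ‖perp e (t i)‖ ^ 2 = ∑ j, ‖e j - T.starProjection (e j)‖ ^ 2 := by
    have h5 : ∀ i, ‖perp e (t i)‖ ^ 2 = 1 - ∑ j, ⟪e j, t i⟫ ^ 2 := by
      intro i
      rw [perp_sq he, ht.1 i]
      norm_num
    have h6 : ∀ j, ‖e j - T.starProjection (e j)‖ ^ 2 = 1 - ∑ i, ⟪e j, t i⟫ ^ 2 := by
      intro j
      rw [star_eq ht hTt]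
      change ‖perp t (e j)‖ ^ 2 = _
      rw [perp_sq ht, he.1 j]
      norm_num
      exact Finset.sum_congr rfl fun i _ => by rw [real_inner_comm]
    simp only [h5, h6]
    rw [Finset.sum_sub_distrib, Finset.sum_sub_distrib, Finset.sum_comm]
  have h7 : ∑ i, |⟪t i, v⟫| ^ 2 ≤ ‖v‖ ^ 2 := by
    simp only [sq_abs]
    exact bessel ht v
  rw [h1]
  calc ‖∑ i, ⟪t i, v⟫ • perp e (t i)‖ ^ 2 ≤ (∑ i, |⟪t i, v⟫| * ‖perp e (t i)‖) ^ 2 :=
        pow_le_pow_left₀ (norm_nonneg _) h2 2
    _ ≤ (∑ i, |⟪t i, v⟫| ^ 2) * ∑ i, ‖perp e (t i)‖ ^ 2 := h3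
    _ ≤ ‖v‖ ^ 2 * ∑ i, ‖perp e (t i)‖ ^ 2 :=
        mul_le_mul_of_nonneg_right h7 (Finset.sum_nonneg fun _ _ => by positivity)
    _ = _ := by rw [h4]

/-- extension of an orthonormal family -/
lemma extend {k : ℕ} {e : Fin k → E N} (he : Orthonormal ℝ e) {v : E N} (hv : perp e v ≠ 0) :
    Orthonormal ℝ (Fin.snoc e (‖perp e v‖⁻¹ • perp e v) : Fin (k + 1) → E N) := by
  have hn : ‖perp e v‖ ≠ 0 := norm_ne_zero_iff.2 hv
  refine ⟨fun i => ?_, fun i j hij => ?_⟩
  · refine Fin.lastCases ?_ (fun i => ?_) i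
    · rw [Fin.snoc_last, norm_smul, norm_inv, norm_norm, inv_mul_cancel₀ hn]
    · rw [Fin.snoc_castSucc]
      exact he.1 i
  · change ⟪(Fin.snoc e (‖perp e v‖⁻¹ • perp e v) : Fin (k + 1) → E N) i,
      (Fin.snoc e (‖perp e v‖⁻¹ • perp e v) : Fin (k + 1) → E N) j⟫ = 0
    rcases Fin.eq_castSucc_or_eq_last i with ⟨i, rfl⟩ | rfl
    · rcases Fin.eq_castSucc_or_eq_last j with ⟨j, rfl⟩ | rfl
      · rw [Fin.snoc_castSucc, Fin.snoc_castSucc]
        exact he.2 fun h => hij (by rw [h])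
      · rw [Fin.snoc_last, Fin.snoc_castSucc, inner_smul_right, perp_inner he, mul_zero]
    · rcases Fin.eq_castSucc_or_eq_last j with ⟨j, rfl⟩ | rfl
      · rw [Fin.snoc_last, Fin.snoc_castSucc, inner_smul_left, real_inner_comm, perp_inner he,
          mul_zero]
      · exact absurd rfl hij

/-- an isometry from an orthonormal family -/
lemma exists_iso {k : ℕ} {e : Fin k → E N} (he : Orthonormal ℝ e) :
    ∃ φ : E k →ₗᵢ[ℝ] E N, ∀ p, φ p = ∑ j, p j • e j := by
  let f : E k →ₗ[ℝ] E N :=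
    { toFun := fun p => ∑ j, p j • e j
      map_add' := fun p q => by
        simp only [PiLp.add_apply, add_smul, Finset.sum_add_distrib]
      map_smul' := fun a p => by
        simp only [PiLp.smul_apply, smul_eq_mul, mul_smul, Finset.smul_sum, RingHom.id_apply] }
  refine ⟨⟨f, fun p => ?_⟩, fun p => rfl⟩
  have h1 : ‖f p‖ ^ 2 = ‖p‖ ^ 2 := by
    rw [← real_inner_self_eq_norm_sq, EuclideanSpace.real_norm_sq_eq]
    change ⟪∑ j, p j • e j, ∑ j, p j • e j⟫ = _
    rw [sum_inner]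
    refine Finset.sum_congr rfl fun i _ => ?_
    rw [inner_smul_left, he.inner_right_fintype]
    simp [sq]
  exact (sq_eq_sq₀ (norm_nonneg _) (norm_nonneg _)).1 h1

/-! ### measurability -/

lemma nor_sub (T : E N → Submodule ℝ (E N)) (x u v : E N) :
    nor T x (u - v) = nor T x u - nor T x v := by
  unfold nor
  rw [map_sub]
  abel

lemma nor_smul (T : E N → Submodule ℝ (E N)) (x : E N) (a : ℝ) (v : E N) :
    nor T x (a • v) = a • nor T x v := by
  unfold nor
  rw [map_smul, smul_sub]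

lemma nor_sum (T : E N → Submodule ℝ (E N)) (x : E N) (v : ι → E N) :
    nor T x (∑ i, v i) = ∑ i, nor T x (v i) := by
  unfold nor
  rw [map_sum, Finset.sum_sub_distrib]

lemma nor_le (T : E N → Submodule ℝ (E N)) (x v : E N) : ‖nor T x v‖ ≤ ‖v‖ := by
  have e1 : nor T x v = (T x)ᗮ.starProjection v := by
    rw [Submodule.starProjection_orthogonal_val]
    rfl
  rw [e1]
  exact Submodule.norm_starProjection_apply_le _ _

lemma meas_nor {m : ℕ} {O : Set (E N)} {μ : Measure (E N)} {T : E N → Submodule ℝ (E N)}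
    (hS : Stat m O μ (pr T)) {g : E N → E N} (hg : Measurable g) :
    Measurable fun x => nor T x (g x) := by
  have h1 : Measurable fun x => pr T x (g x) :=
    isBoundedBilinearMap_apply.continuous.measurable.comp (hS.meas.prodMk hg)
  exact hg.sub h1

lemma int_sq {m : ℕ} {O : Set (E N)} {μ : Measure (E N)} {T : E N → Submodule ℝ (E N)}
    (hS : Stat m O μ (pr T)) {g : E N → E N} (hg : Continuous g) {a : E N} {R : ℝ}
    (hR : closedBall a R ⊆ O) {K : Set (E N)} (hK : K ⊆ closedBall a R) :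
    IntegrableOn (fun x => ‖nor T x (g x)‖ ^ 2) K μ := by
  refine IntegrableOn.mono_set ?_ hK
  have hfin : μ (closedBall a R) < ⊤ := hS.fin _ hR (isCompact_closedBall _ _)
  have : IsFiniteMeasure (μ.restrict (closedBall a R)) := ⟨by simpa using hfin⟩
  obtain ⟨C, hC⟩ := (isCompact_closedBall a R).exists_bound_of_continuousOn hg.continuousOn
  refine Integrable.of_bound (C := C ^ 2)
    ((meas_nor hS hg.measurable).norm.pow_const 2).aestronglyMeasurable ?_
  filter_upwards [ae_restrict_mem isClosed_closedBall.measurableSet] with x hx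
  rw [Real.norm_eq_abs, abs_of_nonneg (by positivity)]
  exact pow_le_pow_left₀ (norm_nonneg _) ((nor_le T x _).trans (hC x hx)) 2

end PlL

end Pool.Agent.Helper83K9.HD
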