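import Pool.Agent.Helper83K9.HD.Stm

set_option autoImplicit false

/-! # [SH] the shift inequality -/

namespace Pool.Agent.Helper83K9.HD

open MeasureTheory Set Filter Topology Metric Pool.Agent.TH337.VF
open scoped ENNReal RealInnerProductSpace

namespace Sh

variable {N m : ℕ}

lemma meas_P {O : Set (E N)} {μ : Measure (E N)} {T : E N → Submodule ℝ (E N)}
    (hS : Stat m O μ (pr T)) (e : E N) : Measurable fun x => pr T x e :=
  (ContinuousLinearMap.apply ℝ (E N) e).continuous.measurable.comp hS.meas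

lemma meas_nor {O : Set (E N)} {μ : Measure (E N)} {T : E N → Submodule ℝ (E N)}
    (hS : Stat m O μ (pr T)) (e : E N) : Measurable fun x => nor T x e :=
  measurable_const.sub (meas_P hS e)

lemma nor_le (T : E N → Submodule ℝ (E N)) (x e : E N) : ‖nor T x e‖ ≤ ‖e‖ := by
  have e1 : nor T x e = (T x)ᗮ.starProjection e := by
    rw [Submodule.starProjection_orthogonal_val]
    rfl
  rw [e1]
  exact Submodule.norm_starProjection_apply_le _ _

/-- the weight is concentrated on the ball -/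
lemma wt_mul_le {f f' : ℝ → ℝ} (hf : Wt f f') {C : ℝ} (hC : ∀ u : ℝ, 0 ≤ u → |f' u| ≤ C)
    {s : ℝ} (hs : 0 < s) (w : E N) : |f' (‖w‖ ^ 2 / s ^ 2)| * ‖w‖ ≤ C * s := by
  have hC0 : 0 ≤ C := (abs_nonneg _).trans (hC 0 le_rfl)
  rcases le_total ‖w‖ s with h | h
  · exact mul_le_mul (hC _ (by positivity)) h (norm_nonneg _) hC0
  · have h2 : 1 ≤ ‖w‖ ^ 2 / s ^ 2 := by
      rw [one_le_div (by positivity)]
      exact pow_le_pow_left₀ hs.le h 2
    rw [hf.zero' _ h2, abs_zero, zero_mul]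
    positivity

/-- stationarity tested with a bump times a constant vector -/
lemma test_shift {O : Set (E N)} {μ : Measure (E N)} {P : E N → E N →L[ℝ] E N}
    (hS : Stat m O μ P) {f f' : ℝ → ℝ} (hf : Wt f f') {c v : E N} {s : ℝ} (hs : 0 < s)
    {D : Set (E N)} (hDO : D ⊆ O) (hcD : closedBall c s ⊆ D) :
    ∫ y, f' (‖y - c‖ ^ 2 / s ^ 2) * (2 / s ^ 2) * ⟪y - c, P y v⟫ ∂(μ.restrict D) = 0 := by
  have hs2 : 0 < s ^ 2 := by positivity
  set X : E N → E N := fun y => f (‖y - c‖ ^ 2 / s ^ 2) • v with hXdef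
  have hder : ∀ y, HasFDerivAt X
      ((f' (‖y - c‖ ^ 2 / s ^ 2) • ((s ^ 2)⁻¹ • ((2:ℝ) • innerSL ℝ (y - c)))).smulRight v) y := by
    intro y
    have h0 : HasFDerivAt (fun y : E N => ‖y - c‖ ^ 2 / s ^ 2)
        ((s ^ 2)⁻¹ • ((2:ℝ) • innerSL ℝ (y - c))) y := by
      have := (hasFDerivAt_sq c y).const_mul ((s ^ 2)⁻¹)
      have e : (fun y : E N => ‖y - c‖ ^ 2 / s ^ 2) = fun y => (s ^ 2)⁻¹ * ‖y - c‖ ^ 2 := by
        funext y; rw [div_eq_inv_mul]
      rw [e]
      exact this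
    have h1 : HasFDerivAt (fun y : E N => f (‖y - c‖ ^ 2 / s ^ 2))
        (f' (‖y - c‖ ^ 2 / s ^ 2) • ((s ^ 2)⁻¹ • ((2:ℝ) • innerSL ℝ (y - c)))) y :=
      (hf.der _).comp_hasFDerivAt y h0
    exact h1.smul_const v
  have hXc : ContDiff ℝ 1 X :=
    (hf.contDiff.comp ((contDiff_sq c).div_const _)).smul contDiff_const
  have hzero : ∀ y, y ∉ closedBall c s → X y = 0 := by
    intro y hy
    have h1 : s < ‖y - c‖ := by
      rw [mem_closedBall, dist_eq_norm] at hy
      exact not_le.1 hy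
    have h2 : 1 ≤ ‖y - c‖ ^ 2 / s ^ 2 := by
      rw [one_le_div hs2]
      exact pow_le_pow_left₀ hs.le h1.le 2
    simp [hXdef, hf.zero _ h2]
  have hsub : tsupport X ⊆ closedBall c s := by
    apply closure_minimal _ isClosed_closedBall
    intro y hy
    by_contra hc
    exact hy (hzero y hc)
  have hcs : HasCompactSupport X := HasCompactSupport.intro (isCompact_closedBall c s) hzero
  have hstat := hS.stat X hXc hcs (hsub.trans (hcD.trans hDO))
  have h3 : ∫ y, trc (P y ∘L fderiv ℝ X y) ∂μ =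
      ∫ y, trc (P y ∘L fderiv ℝ X y) ∂(μ.restrict D) := by
    symm
    apply setIntegral_eq_integral_of_forall_compl_eq_zero
    intro y hy
    have hy' : y ∉ tsupport X := fun h => hy (hcD (hsub h))
    have : fderiv ℝ X y = 0 := by
      by_contra hc
      exact hy' (support_fderiv_subset ℝ (by simpa using hc))
    rw [this, ContinuousLinearMap.comp_zero, trc_zero]
  rw [h3] at hstat
  rw [← hstat]
  apply integral_congr_ae
  filter_upwards with y
  rw [(hder y).fderiv, trc_rank]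
  simp only [smul_apply, innerSL_apply_apply, smul_eq_mul]
  field_simp

end Sh

open Sh in
theorem sh : S_SH := by
  intro N m O μ T hS f f' hf C hC a b s D hs hDc hDO hball
  have hC0 : 0 ≤ C := (abs_nonneg _).trans (hC 0 le_rfl)
  have hs2 : 0 < s ^ 2 := by positivity
  set ν := μ.restrict D with hν
  have hfin : IsFiniteMeasure ν := ⟨by simpa [hν] using hS.fin D hDO hDc⟩
  set v := b - a with hv
  let c : ℝ → E N := fun t => a + t • v
  have hcd : ∀ t y, HasDerivAt (fun t => ‖y - c t‖ ^ 2 / s ^ 2) (-(2 / s ^ 2) * ⟪y - c t, v⟫) t := by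
    intro t y
    have h1 : HasDerivAt (fun t => y - c t) (-v) t := by
      have h2 : HasDerivAt (fun t : ℝ => t • v) ((1 : ℝ) • v) t := (hasDerivAt_id t).smul_const v
      have h3 := (h2.const_add a).const_sub y
      simpa only [one_smul] using h3
    have h4 := h1.norm_sq.div_const (s ^ 2)
    have e : -(2 / s ^ 2) * ⟪y - c t, v⟫ = 2 * ⟪y - c t, -v⟫ / s ^ 2 := by
      rw [inner_neg_right]; ring
    rw [e]
    exact h4
  -- derivative of the integral
  have hderI : ∀ t, Integrable (fun y => f' (‖y - c t‖ ^ 2 / s ^ 2) *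
      (-(2 / s ^ 2) * ⟪y - c t, v⟫)) ν ∧ HasDerivAt (fun t => I f ν (c t) s)
      (∫ y, f' (‖y - c t‖ ^ 2 / s ^ 2) * (-(2 / s ^ 2) * ⟪y - c t, v⟫) ∂ν) t := by
    intro t
    refine hasDerivAt_integral_of_dominated_loc_of_deriv_le
      (bound := fun _ => 2 / s ^ 2 * (C * s) * ‖v‖) (univ_mem : (univ : Set ℝ) ∈ 𝓝 t)
      (F := fun t y => f (‖y - c t‖ ^ 2 / s ^ 2))
      (F' := fun t y => f' (‖y - c t‖ ^ 2 / s ^ 2) * (-(2 / s ^ 2) * ⟪y - c t, v⟫)) ?_ ?_ ?_ ?_ ?_ ?_
    · exact Eventually.of_forall fun x => (integrable_wt hf ν (c x) s).1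
    · exact integrable_wt hf ν (c t) s
    · apply Continuous.aestronglyMeasurable
      have h1 : Continuous fun y : E N => ‖y - c t‖ ^ 2 / s ^ 2 := by fun_prop
      have h2 : Continuous fun y : E N => (-(2 / s ^ 2) * ⟪y - c t, v⟫) := by fun_prop
      exact (hf.cont.comp h1).mul h2
    · filter_upwards with y
      intro x _
      rw [Real.norm_eq_abs, abs_mul, abs_mul, abs_neg, abs_of_pos (by positivity : 0 < 2 / s ^ 2)]
      have h1 := abs_real_inner_le_norm (y - c x) v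
      have h2 := wt_mul_le hf hC hs (y - c x)
      calc |f' (‖y - c x‖ ^ 2 / s ^ 2)| * (2 / s ^ 2 * |⟪y - c x, v⟫|)
          ≤ |f' (‖y - c x‖ ^ 2 / s ^ 2)| * (2 / s ^ 2 * (‖y - c x‖ * ‖v‖)) := by gcongr
        _ = 2 / s ^ 2 * (|f' (‖y - c x‖ ^ 2 / s ^ 2)| * ‖y - c x‖) * ‖v‖ := by ring
        _ ≤ 2 / s ^ 2 * (C * s) * ‖v‖ := by gcongr
    · exact integrable_const _
    · filter_upwards with y
      intro x _
      exact (hf.der _).comp x (hcd x y)
  -- the bound of the derivative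
  have hnorI : Integrable (fun y => 2 * C / s * ‖nor T y v‖) ν := by
    refine Integrable.const_mul ?_ _
    refine Integrable.of_bound (C := ‖v‖) (meas_nor hS v).norm.aestronglyMeasurable ?_
    filter_upwards with x
    rw [norm_norm]
    exact nor_le T x v
  have hbd : ∀ t ∈ Icc (0:ℝ) 1, ‖∫ y, f' (‖y - c t‖ ^ 2 / s ^ 2) *
      (-(2 / s ^ 2) * ⟪y - c t, v⟫) ∂ν‖ ≤ 2 * C / s * ∫ x in D, ‖nor T x v‖ ∂μ := by
    intro t ht
    have h0 := test_shift hS hf (c := c t) (v := v) hs hDO (hball t ht)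
    have hGi : Integrable (fun y => f' (‖y - c t‖ ^ 2 / s ^ 2) * (2 / s ^ 2) *
        ⟪y - c t, pr T y v⟫) ν := by
      refine Integrable.of_bound (C := 2 / s ^ 2 * (C * s) * ‖v‖) ?_ ?_
      · apply Measurable.aestronglyMeasurable
        have h1 : Continuous fun y : E N => f' (‖y - c t‖ ^ 2 / s ^ 2) * (2 / s ^ 2) := by
          have h2 : Continuous fun y : E N => ‖y - c t‖ ^ 2 / s ^ 2 := by fun_prop
          exact (hf.cont.comp h2).mul continuous_const
        have h3 : Measurable fun y : E N => y - c t := measurable_id.sub_const _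
        have h4 : Measurable fun y : E N => ⟪y - c t, pr T y v⟫ :=
          continuous_inner.measurable.comp (h3.prodMk (meas_P hS v))
        exact h1.measurable.mul h4
      · filter_upwards with y
        rw [Real.norm_eq_abs, abs_mul, abs_mul, abs_of_pos (by positivity : 0 < 2 / s ^ 2)]
        have h1 := abs_real_inner_le_norm (y - c t) (pr T y v)
        have h2 := wt_mul_le hf hC hs (y - c t)
        have h3 : ‖pr T y v‖ ≤ ‖v‖ := Submodule.norm_starProjection_apply_le _ _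
        calc |f' (‖y - c t‖ ^ 2 / s ^ 2)| * (2 / s ^ 2) * |⟪y - c t, pr T y v⟫|
            ≤ |f' (‖y - c t‖ ^ 2 / s ^ 2)| * (2 / s ^ 2) * (‖y - c t‖ * ‖v‖) := by
              refine mul_le_mul_of_nonneg_left (h1.trans ?_) (by positivity)
              exact mul_le_mul_of_nonneg_left h3 (norm_nonneg _)
          _ = 2 / s ^ 2 * (|f' (‖y - c t‖ ^ 2 / s ^ 2)| * ‖y - c t‖) * ‖v‖ := by ring
          _ ≤ 2 / s ^ 2 * (C * s) * ‖v‖ := by gcongr
    have h1 : ∫ y, f' (‖y - c t‖ ^ 2 / s ^ 2) * (-(2 / s ^ 2) * ⟪y - c t, v⟫) ∂ν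
        = ∫ y, (f' (‖y - c t‖ ^ 2 / s ^ 2) * (-(2 / s ^ 2) * ⟪y - c t, v⟫) +
          f' (‖y - c t‖ ^ 2 / s ^ 2) * (2 / s ^ 2) * ⟪y - c t, pr T y v⟫) ∂ν := by
      rw [integral_add (hderI t).1 hGi]
      have h0' : ∫ y, f' (‖y - c t‖ ^ 2 / s ^ 2) * (2 / s ^ 2) * ⟪y - c t, pr T y v⟫ ∂ν = 0 := h0
      rw [h0', add_zero]
    rw [h1]
    refine (norm_integral_le_of_norm_le hnorI ?_).trans (le_of_eq ?_)
    · filter_upwards with y
      have e : f' (‖y - c t‖ ^ 2 / s ^ 2) * (-(2 / s ^ 2) * ⟪y - c t, v⟫) +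
          f' (‖y - c t‖ ^ 2 / s ^ 2) * (2 / s ^ 2) * ⟪y - c t, pr T y v⟫
          = -(f' (‖y - c t‖ ^ 2 / s ^ 2) * (2 / s ^ 2) * ⟪y - c t, nor T y v⟫) := by
        have h2 : ⟪y - c t, nor T y v⟫ = ⟪y - c t, v⟫ - ⟪y - c t, pr T y v⟫ := by
          rw [← inner_sub_right]; rfl
        rw [h2]; ring
      rw [e, norm_neg, Real.norm_eq_abs, abs_mul, abs_mul,
        abs_of_pos (by positivity : 0 < 2 / s ^ 2)]
      have h2 := abs_real_inner_le_norm (y - c t) (nor T y v)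
      have h3 := wt_mul_le hf hC hs (y - c t)
      calc |f' (‖y - c t‖ ^ 2 / s ^ 2)| * (2 / s ^ 2) * |⟪y - c t, nor T y v⟫|
          ≤ |f' (‖y - c t‖ ^ 2 / s ^ 2)| * (2 / s ^ 2) * (‖y - c t‖ * ‖nor T y v‖) := by gcongr
        _ = 2 / s ^ 2 * (|f' (‖y - c t‖ ^ 2 / s ^ 2)| * ‖y - c t‖) * ‖nor T y v‖ := by ring
        _ ≤ 2 / s ^ 2 * (C * s) * ‖nor T y v‖ := by gcongr
        _ = 2 * C / s * ‖nor T y v‖ := by field_simp
    · rw [integral_const_mul]
  -- mean value
  have hmv := norm_image_sub_le_of_norm_deriv_le_segment_01' (f := fun t => I f ν (c t) s)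
    (f' := fun t => ∫ y, f' (‖y - c t‖ ^ 2 / s ^ 2) * (-(2 / s ^ 2) * ⟪y - c t, v⟫) ∂ν)
    (C := 2 * C / s * ∫ x in D, ‖nor T x v‖ ∂μ)
    (fun t _ => (hderI t).2.hasDerivWithinAt) (fun t ht => hbd t ⟨ht.1, ht.2.le⟩)
  have e1 : c 1 = b := by simp [c, hv]
  have e0 : c 0 = a := by simp [c]
  simp only [e1, e0] at hmv
  exact hmv

end Pool.Agent.Helper83K9.HD
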