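import Pool.Agent.Helper83K9.HD.Base

/-!
Half-density interfaces: transport of lower mass bounds along a nearly tangent plane.
-/

namespace Pool.Agent.Helper83K9.HD

open MeasureTheory Set Filter Topology Metric Pool.Agent.TH337.VF
open scoped ENNReal RealInnerProductSpace

variable {N m : ℕ}

lemma wt_nonneg (j : ℕ) (u : ℝ) : 0 ≤ wt j u := by
  unfold wt
  positivity

lemma wt_le_one (j : ℕ) {u : ℝ} (hu : 0 ≤ u) : wt j u ≤ 1 := by
  unfold wt
  have h2 : 0 ≤ u ^ (j + 1) := by positivity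
  have h3 : max 0 (1 - u ^ (j + 1)) ≤ 1 := max_le (by norm_num) (by linarith)
  have h4 : 0 ≤ max 0 (1 - u ^ (j + 1)) := le_max_left _ _
  nlinarith

lemma I_le_ball (j : ℕ) (ν : Measure (E N)) [IsFiniteMeasure ν] (a : E N) {s : ℝ} (hs : 0 < s) :
    I (wt j) ν a s ≤ ν.real (ball a s) := by
  have h1 : ν.real (ball a s) = ∫ y, (ball a s).indicator (fun _ => (1:ℝ)) y ∂ν := by
    rw [integral_indicator measurableSet_ball]
    simp [Measure.real]
  rw [h1]
  unfold I
  apply integral_mono (integrable_wt (wt_Wt j) ν a s)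
  · exact (integrable_const _).indicator measurableSet_ball
  · intro y
    by_cases hy : y ∈ ball a s
    · rw [indicator_of_mem hy]
      exact wt_le_one j (by positivity)
    · rw [indicator_of_notMem hy]
      rw [mem_ball, dist_eq_norm, not_lt] at hy
      have h2 : 1 ≤ ‖y - a‖ ^ 2 / s ^ 2 := by
        rw [one_le_div (by positivity)]
        exact pow_le_pow_left₀ hs.le hy 2
      exact ((wt_Wt j).zero _ h2).le

lemma real_restrict_ball {ν : Measure (E N)} {D : Set (E N)} {a : E N} {r : ℝ}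
    (h : ball a r ⊆ D) : (ν.restrict D).real (ball a r) = ν.real (ball a r) := by
  rw [measureReal_restrict_apply measurableSet_ball, inter_eq_left.2 h]

lemma meas_nor {O : Set (E N)} {μ : Measure (E N)} {T : E N → Submodule ℝ (E N)}
    (hS : Stat m O μ (pr T)) (e : E N) : Measurable fun x => nor T x e := by
  have h1 : Measurable fun x => pr T x e :=
    (ContinuousLinearMap.apply ℝ (E N) e).continuous.measurable.comp hS.meas
  exact measurable_const.sub h1

lemma nor_le (T : E N → Submodule ℝ (E N)) (x e : E N) : ‖nor T x e‖ ≤ ‖e‖ := by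
  have e1 : nor T x e = (T x)ᗮ.starProjection e := by
    rw [Submodule.starProjection_orthogonal_val]
    rfl
  rw [e1]
  exact Submodule.norm_starProjection_apply_le _ _

/-- lower mass bounds are transported along directions of the nearly tangent plane -/
lemma shift_low (hLC : S_LC) (hSH : S_SH) (N m : ℕ) {Q σ ι : ℝ} (hQ : 1 ≤ Q) (hσ : 0 < σ)
    (hι : 0 < ι) : ∃ κ₀ : ℝ, 0 < κ₀ ∧ ∀ κ : ℝ, 0 < κ → κ ≤ κ₀ →
    ∀ (O : Set (E N)) (μ : Measure (E N)) (T : E N → Submodule ℝ (E N)), Nice m O μ T Q 1 →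
    ∀ (z : E N) (ρ : ℝ), 0 < ρ → closedBall z (20 * ρ) ⊆ O →
    ∀ L : Submodule ℝ (E N),
    (∀ e ∈ L, ‖e‖ ≤ 1 → ∫ x in closedBall z (4 * ρ), ‖nor T x e‖ ^ 2 ∂μ ≤ κ * ρ ^ m) →
    ∀ (ν : Measure (E N)) (W D : Set (E N)), ν ≤ μ → Stat m W ν (pr T) → IsCompact D → D ⊆ W →
    D ⊆ closedBall z (4 * ρ) → ∀ (a v : E N) (q : ℝ), v ∈ L → ‖v‖ ≤ ρ → 0 ≤ q → q ≤ Q →
    (∀ t ∈ Icc (0:ℝ) 1, closedBall (a + t • v) (σ * ρ) ⊆ D) → Low m ν q a (σ * ρ) →
    (q - ι) * om m * (σ * ρ) ^ m ≤ ν.real (ball (a + v) (σ * ρ)) := by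
  have hom := om_pos m
  obtain ⟨K, hK, hKt, hKl⟩ := hLC m
  -- choose the profile
  have h1 : ∀ᶠ j in atTop, 1 - ι / (2 * Q) < K j :=
    hKt.eventually (lt_mem_nhds (by
      have : 0 < ι / (2 * Q) := by positivity
      linarith))
  obtain ⟨j, hj⟩ := h1.exists
  obtain ⟨C, hC0, hC⟩ := (wt_Wt j).bound'
  set C₁ : ℝ := (Q + 1) * om m * 5 ^ m + 1 with hC₁
  have hC₁0 : 0 < C₁ := by positivity
  set b : ℝ := (ι / 2) * om m * σ ^ m * σ / (2 * (C + 1) * C₁) with hb
  have hb0 : 0 < b := by positivity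
  refine ⟨b ^ 2, by positivity, ?_⟩
  intro κ hκ hκb O μ T hN z ρ hρ hO L hL ν W D hνμ hνW hDc hDW hDz a v q hv hvρ hq0 hqQ hseg hlow
  have hsκ : √κ ≤ b := by
    rw [Real.sqrt_le_left hb0.le]
    exact hκb
  have hs : 0 < σ * ρ := by positivity
  have hνD : ν D < ⊤ := hνW.fin D hDW hDc
  have hfin : IsFiniteMeasure (ν.restrict D) := ⟨by simpa using hνD⟩
  have hcs : closedBall z (4 * ρ) ⊆ O := (closedBall_subset_closedBall (by linarith)).trans hO
  have hμfin : μ (closedBall z (4 * ρ)) < ⊤ := hN.stat.fin _ hcs (isCompact_closedBall _ _)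
  have hμF : IsFiniteMeasure (μ.restrict (closedBall z (4 * ρ))) := ⟨by simpa using hμfin⟩
  have ha : closedBall a (σ * ρ) ⊆ D := by
    have := hseg 0 ⟨le_rfl, zero_le_one⟩
    simpa using this
  have hb' : closedBall (a + v) (σ * ρ) ⊆ D := by
    have := hseg 1 ⟨zero_le_one, le_rfl⟩
    simpa using this
  have h2 := (hKl N (ν.restrict D) a (σ * ρ) (q * om m) j hs (by positivity)).1 (by
    intro r hr hrs
    rw [real_restrict_ball ((ball_subset_closedBall.trans (closedBall_subset_closedBall hrs)).trans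
      ha)]
    exact hlow r hr hrs)
  have h3 := hSH N m W ν T hνW (wt j) (wt' j) (wt_Wt j) C hC a (a + v) (σ * ρ) D hs hDc hDW (by
    intro t ht
    rw [add_sub_cancel_left]
    exact hseg t ht)
  rw [add_sub_cancel_left] at h3
  have h4 : ∫ x in D, ‖nor T x v‖ ∂ν ≤ √κ * C₁ * ρ ^ (m + 1) := by
    refine le_trans ?_ (norm_part hN hQ le_rfl hρ hκ hO hL hv hvρ)
    apply integral_mono_measure (Measure.restrict_mono hDz hνμ)
    · exact Eventually.of_forall fun x => norm_nonneg _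
    · refine Integrable.of_bound (C := ‖v‖) (meas_nor hN.stat v).norm.aestronglyMeasurable ?_
      filter_upwards with x
      rw [norm_norm]
      exact nor_le T x v
  have h5 : 2 * C / (σ * ρ) * ∫ x in D, ‖nor T x v‖ ∂ν ≤ (ι / 2) * om m * (σ * ρ) ^ m := by
    calc 2 * C / (σ * ρ) * ∫ x in D, ‖nor T x v‖ ∂ν
        ≤ 2 * (C + 1) / (σ * ρ) * (b * C₁ * ρ ^ (m + 1)) := by
          apply mul_le_mul _ _ (integral_nonneg fun x => norm_nonneg _) (by positivity)
          · gcongr
            linarith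
          · refine h4.trans ?_
            gcongr
      _ = (ι / 2) * om m * (σ * ρ) ^ m := by
          rw [hb, mul_pow, pow_succ]
          field_simp
  have h6 := (abs_le.1 h3).1
  have h7 := I_le_ball j (ν.restrict D) (a + v) hs
  rw [real_restrict_ball (ball_subset_closedBall.trans hb')] at h7
  have h8 : (q - ι / 2) * om m * (σ * ρ) ^ m ≤ q * om m * K j * (σ * ρ) ^ m := by
    have h9 : q - ι / 2 ≤ q * K j := by
      have h10 : q * (ι / (2 * Q)) ≤ ι / 2 := by
        rw [mul_div_assoc', div_le_div_iff₀ (by positivity) (by positivity)]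
        nlinarith
      nlinarith
    have h10 : 0 ≤ om m * (σ * ρ) ^ m := by positivity
    nlinarith
  have h9 : (q - ι) * om m * (σ * ρ) ^ m =
      (q - ι / 2) * om m * (σ * ρ) ^ m - (ι / 2) * om m * (σ * ρ) ^ m := by ring
  rw [h9]
  linarith

end Pool.Agent.Helper83K9.HD
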