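import Pool.Agent.Helper83K9.HD.Defs

/-!
Half-density interfaces of stationary varifolds: statements of the leaves.
-/

namespace Pool.Agent.Helper83K9.HD

open MeasureTheory Set Filter Topology Metric Pool.Agent.TH337.VF
open scoped ENNReal RealInnerProductSpace

/-- [LC] layer cake: smoothed mass ratios with the profile `wt j` from mass ratios of balls -/
def S_LC : Prop := ∀ m : ℕ, ∃ K : ℕ → ℝ, (∀ j, 0 < K j ∧ K j ≤ 1) ∧ Tendsto K atTop (𝓝 1) ∧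
  ∀ (N : ℕ) (ν : Measure (E N)) [IsFiniteMeasure ν] (a : E N) (s q : ℝ) (j : ℕ), 0 < s → 0 ≤ q →
    ((∀ r : ℝ, 0 < r → r ≤ s → q * r ^ m ≤ ν.real (ball a r)) → q * K j * s ^ m ≤ I (wt j) ν a s) ∧
    ((∀ r : ℝ, 0 < r → r ≤ s → ν.real (ball a r) ≤ q * r ^ m) → I (wt j) ν a s ≤ q * K j * s ^ m)

/-- [MR] monotonicity with remainder -/
def S_MR : Prop := ∀ N m : ℕ, ∃ C : ℝ, 0 < C ∧ ∀ (O : Set (E N)) (μ : Measure (E N))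
  (T : E N → Submodule ℝ (E N)), Stat m O μ (pr T) → ∀ (y : E N) (R Q ε : ℝ), 0 < R → 0 ≤ Q →
    0 ≤ ε → closedBall y R ⊆ O → Low m μ Q y R → μ.real (ball y R) ≤ (Q + ε) * om m * R ^ m →
    ∫ x in ball y (R / 2), ‖nor T x (x - y)‖ ^ 2 ∂μ ≤ C * ε * R ^ (m + 2)

/-- [SH] the shift inequality -/
def S_SH : Prop := ∀ (N m : ℕ) (O : Set (E N)) (μ : Measure (E N))
  (T : E N → Submodule ℝ (E N)), Stat m O μ (pr T) → ∀ (f f' : ℝ → ℝ), Wt f f' → ∀ C : ℝ,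
  (∀ u : ℝ, 0 ≤ u → |f' u| ≤ C) → ∀ (a b : E N) (s : ℝ) (D : Set (E N)), 0 < s → IsCompact D →
  D ⊆ O → (∀ t ∈ Icc (0:ℝ) 1, closedBall (a + t • (b - a)) s ⊆ D) →
  |I f (μ.restrict D) b s - I f (μ.restrict D) a s| ≤
    2 * C / s * ∫ x in D, ‖nor T x (b - a)‖ ∂μ

/-- [TON] Tonelli for balls centred in an affine plane -/
def S_TON : Prop := ∀ (N k : ℕ) (φ : E k →ₗᵢ[ℝ] E N) (ν : Measure (E N)) [IsFiniteMeasure ν]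
  (z : E N) (s : ℝ) (Y : Set (E k)), MeasurableSet Y →
  ∫⁻ p in Y, ν (ball (z + φ p) s) = ∫⁻ x, volume (Y ∩ {p | ‖x - z - φ p‖ < s}) ∂ν

/-- [AV1] upper bound for averages -/
def S_AV1 : Prop := ∀ (N k : ℕ) (φ : E k →ₗᵢ[ℝ] E N) (ν : Measure (E N)) [IsFiniteMeasure ν]
  (z : E N) (s b : ℝ) (Y : Set (E k)) (A : Set (E N)), MeasurableSet Y → volume Y < ⊤ →
  MeasurableSet A → 0 < s → 0 ≤ b → (∀ p ∈ Y, ball (z + φ p) s ⊆ A) →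
  (∀ p ∈ Y, b ≤ ν.real (ball (z + φ p) s)) → b * volume.real Y ≤ om k * s ^ k * ν.real A

/-- [AV2] the mass of a neighbourhood of an affine plane -/
def S_AV2 : Prop := ∀ (N m k : ℕ) (φ : E k →ₗᵢ[ℝ] E N) (ν : Measure (E N)) [IsFiniteMeasure ν]
  (z : E N) (ρ τ M : ℝ), 0 < ρ → 0 < τ → τ ≤ 1 → 0 ≤ M → k ≤ m →
  (∀ a ∈ ball z (3 * ρ), ν.real (ball a (2 * τ * ρ)) ≤ M * (2 * τ * ρ) ^ m) →
  ν.real {x | x ∈ ball z (2 * ρ) ∧ ∃ p, ‖x - z - φ p‖ ≤ τ * ρ} ≤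
    3 ^ k * 2 ^ m * M * τ ^ (m - k) * ρ ^ m

/-- [HB] volume of half balls -/
def S_HB : Prop := ∀ m : ℕ, 1 ≤ m → ∀ κ : ℝ, 0 < κ → ∃ τ : ℝ, 0 < τ ∧ τ < 1 ∧ ∀ e : E m, ‖e‖ = 1 →
  (1 / 2 - κ) * om m ≤ volume.real {p : E m | ‖p‖ ≤ 1 - τ ∧ τ ≤ ⟪p, e⟫}

/-- [PL] many points of large density near `z` force the varifold to be nearly flat at `z` -/
def S_PL : Prop := ∀ (N m : ℕ), 1 ≤ m → ∀ (Q c δ : ℝ), 1 ≤ Q → 0 < c → 0 < δ → ∃ ε : ℝ, 0 < ε ∧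
  ε ≤ 1 ∧ ∀ (O : Set (E N)) (μ : Measure (E N)) (T : E N → Submodule ℝ (E N)), Nice m O μ T Q ε →
  ∀ (z : E N) (ρ : ℝ), 0 < ρ → closedBall z (20 * ρ) ⊆ O → Low m μ Q z (16 * ρ) →
  ∀ G ⊆ ball z (2 * ρ), (∀ y ∈ G, Low m μ Q y (16 * ρ)) → c * ρ ^ m ≤ μ.real G →
  ∃ L : Submodule ℝ (E N), Module.finrank ℝ L = m ∧
    (∀ e ∈ L, ‖e‖ ≤ 1 → ∫ x in closedBall z (4 * ρ), ‖nor T x e‖ ^ 2 ∂μ ≤ δ * ρ ^ m) ∧
    ∀ x ∈ μ.support, x ∈ ball z (3 * ρ) → ‖(x - z) - L.starProjection (x - z)‖ ≤ δ * ρ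

end Pool.Agent.Helper83K9.HD
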