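import Pool.Agent.Helper83K9.HD.Stm

/-!
Tonelli for balls centred in an affine plane.
-/

set_option autoImplicit false

namespace Pool.Agent.Helper83K9.HD

open MeasureTheory Set Filter Topology Metric Pool.Agent.TH337.VF
open scoped ENNReal RealInnerProductSpace

namespace TonL

variable {N k : ℕ}

/-- the set in the product -/
lemma open_set (φ : E k →ₗᵢ[ℝ] E N) (z : E N) (s : ℝ) :
    IsOpen {q : E k × E N | ‖q.2 - z - φ q.1‖ < s} := by
  apply isOpen_lt _ continuous_const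
  fun_prop

lemma ton (φ : E k →ₗᵢ[ℝ] E N) (ν : Measure (E N)) [IsFiniteMeasure ν]
    (z : E N) (s : ℝ) (Y : Set (E k)) :
    ∫⁻ p in Y, ν (ball (z + φ p) s) = ∫⁻ x, volume (Y ∩ {p | ‖x - z - φ p‖ < s}) ∂ν := by
  have hS : MeasurableSet {q : E k × E N | ‖q.2 - z - φ q.1‖ < s} := (open_set φ z s).measurableSet
  have h1 := Measure.prod_apply (μ := volume.restrict Y) (ν := ν) hS
  have h2 := Measure.prod_apply_symm (μ := volume.restrict Y) (ν := ν) hS
  rw [h1] at h2
  have e1 : ∀ p : E k, Prod.mk p ⁻¹' {q : E k × E N | ‖q.2 - z - φ q.1‖ < s} =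
      ball (z + φ p) s := by
    intro p
    ext x
    simp only [mem_preimage, mem_ofPred_eq, mem_ball, dist_eq_norm]
    rw [sub_sub]
  have e2 : ∀ x : E N, (volume.restrict Y) ((fun p => (p, x)) ⁻¹'
      {q : E k × E N | ‖q.2 - z - φ q.1‖ < s}) = volume (Y ∩ {p | ‖x - z - φ p‖ < s}) := by
    intro x
    have : MeasurableSet ((fun p : E k => (p, x)) ⁻¹' {q : E k × E N | ‖q.2 - z - φ q.1‖ < s}) :=
      measurable_prodMk_right hS
    rw [Measure.restrict_apply this, inter_comm]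
    rfl
  simp only [e1, e2] at h2
  exact h2

lemma meas (φ : E k →ₗᵢ[ℝ] E N) (z : E N) (s : ℝ) (Y : Set (E k)) :
    Measurable fun x => volume (Y ∩ {p : E k | ‖x - z - φ p‖ < s}) := by
  have hS : MeasurableSet {q : E k × E N | ‖q.2 - z - φ q.1‖ < s} := (open_set φ z s).measurableSet
  have h := measurable_measure_prodMk_right (μ := volume.restrict Y) hS
  have e2 : ∀ x : E N, (volume.restrict Y) ((fun p => (p, x)) ⁻¹'
      {q : E k × E N | ‖q.2 - z - φ q.1‖ < s}) = volume (Y ∩ {p | ‖x - z - φ p‖ < s}) := by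
    intro x
    have : MeasurableSet ((fun p : E k => (p, x)) ⁻¹' {q : E k × E N | ‖q.2 - z - φ q.1‖ < s}) :=
      measurable_prodMk_right hS
    rw [Measure.restrict_apply this, inter_comm]
    rfl
  simpa only [e2] using h

/-- the foot of the perpendicular -/
noncomputable def foot (φ : E k →ₗᵢ[ℝ] E N) (v : E N) : E k :=
  ContinuousLinearMap.adjoint φ.toContinuousLinearMap v

lemma foot_sub (φ : E k →ₗᵢ[ℝ] E N) (v : E N) (p : E k) : foot φ v - p = foot φ (v - φ p) := by
  unfold foot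
  rw [map_sub]
  congr 1
  apply ext_inner_right ℝ
  intro q
  rw [ContinuousLinearMap.adjoint_inner_left]
  exact (φ.inner_map_map p q).symm

lemma foot_norm (φ : E k →ₗᵢ[ℝ] E N) (v : E N) : ‖foot φ v‖ ≤ ‖v‖ := by
  unfold foot
  refine (ContinuousLinearMap.le_opNorm _ _).trans ?_
  have h : ‖ContinuousLinearMap.adjoint φ.toContinuousLinearMap‖ ≤ 1 := by
    rw [LinearIsometryEquiv.norm_map]
    exact φ.norm_toContinuousLinearMap_le
  calc _ ≤ 1 * ‖v‖ := mul_le_mul_of_nonneg_right h (norm_nonneg _)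
    _ = ‖v‖ := one_mul _

/-- the foot is the nearest point -/
lemma foot_min (φ : E k →ₗᵢ[ℝ] E N) (v : E N) (p : E k) : ‖v - φ (foot φ v)‖ ≤ ‖v - φ p‖ := by
  have h0 : ∀ q : E k, ⟪v - φ (foot φ v), φ q⟫ = 0 := by
    intro q
    rw [inner_sub_left, φ.inner_map_map]
    unfold foot
    rw [ContinuousLinearMap.adjoint_inner_left]
    simp
  have h1 : v - φ p = (v - φ (foot φ v)) + φ (foot φ v - p) := by
    rw [map_sub]
    abel
  have h2 : ‖v - φ p‖ ^ 2 = ‖v - φ (foot φ v)‖ ^ 2 + ‖φ (foot φ v - p)‖ ^ 2 := by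
    rw [h1, @norm_add_sq_real, h0]
    ring
  have h3 := sq_nonneg ‖φ (foot φ v - p)‖
  exact le_of_sq_le_sq (by linarith) (norm_nonneg _)


lemma vol_ball (k : ℕ) (p : E k) {r : ℝ} (hr : 0 < r) :
    volume (ball p r) = ENNReal.ofReal (om k * r ^ k) := by
  rw [Measure.addHaar_ball_of_pos _ _ hr, finrank_euclideanSpace_fin, mul_comm (om k),
    ENNReal.ofReal_mul (by positivity)]
  congr 1
  unfold om
  rw [ENNReal.ofReal_toReal measure_ball_lt_top.ne]

lemma om_pos (k : ℕ) : 0 < om k :=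
  ENNReal.toReal_pos (measure_ball_pos _ _ one_pos).ne' measure_ball_lt_top.ne

end TonL


theorem ton : S_TON := fun _ _ φ ν _ z s Y _ => TonL.ton φ ν z s Y

end Pool.Agent.Helper83K9.HD
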