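import Pool.Agent.Helper83K9.HD.Shift

/-!
Half-density interfaces: a single phase inside the touching ball, and the mass of the half ball.
-/

namespace Pool.Agent.Helper83K9.HD

open MeasureTheory Set Filter Topology Metric Pool.Agent.TH337.VF
open scoped ENNReal RealInnerProductSpace Pointwise

variable {N m : ℕ}

/-- two phases cannot both be present well inside the touching ball -/
lemma single (hLC : S_LC) (hSH : S_SH) (N m : ℕ) {Q η : ℝ} (hQ : 1 ≤ Q) (hη : 0 < η)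
    (hη1 : η ≤ 1 / 2) : ∃ κ₀ : ℝ, 0 < κ₀ ∧ κ₀ ≤ 1 / 8 ∧ ∀ κ : ℝ, 0 < κ → κ ≤ κ₀ →
    ∀ (O : Set (E N)) (μ : Measure (E N)) (T : E N → Submodule ℝ (E N)), Nice m O μ T Q κ →
    ∀ (z : E N) (ρ : ℝ), 0 < ρ → closedBall z (20 * ρ) ⊆ O →
    ∀ L : Submodule ℝ (E N),
    (∀ e ∈ L, ‖e‖ ≤ 1 → ∫ x in closedBall z (4 * ρ), ‖nor T x e‖ ^ 2 ∂μ ≤ κ * ρ ^ m) →
    (∀ x ∈ μ.support, x ∈ ball z (3 * ρ) → ‖(x - z) - L.starProjection (x - z)‖ ≤ κ * ρ) →
    ∀ (y w : E N), dist y z ≤ ρ → y ∈ μ.support → w ∈ μ.support → w ∈ ball y ((1 - η) * ρ) →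
    ∀ (ν₁ ν₂ : Measure (E N)), ν₁ + ν₂ ≤ μ → Stat m (ball y ρ) ν₂ (pr T) → ∀ (q₁ q₂ : ℝ),
    0 ≤ q₂ → q₂ ≤ Q → Q + 1 ≤ q₁ + q₂ → Low m ν₁ q₁ y (η / 2 * ρ) →
    Low m ν₂ q₂ w (η / 2 * ρ) → False := by
  have hom := om_pos m
  obtain ⟨κ₁, hκ₁, hsh⟩ := shift_low hLC hSH N m hQ (σ := η / 2) (ι := 1 / 4) (by positivity)
    (by norm_num)
  have hcont : ∀ᶠ κ in 𝓝 (0:ℝ), (Q + κ) * (η / 2 + 2 * κ) ^ m < (Q + 3 / 4) * (η / 2) ^ m := by
    have h1 : Continuous fun κ : ℝ => (Q + κ) * (η / 2 + 2 * κ) ^ m := by fun_prop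
    have h2 := h1.tendsto 0
    apply h2.eventually (gt_mem_nhds _)
    have h3 : 0 < (η / 2) ^ m := by positivity
    simp only [add_zero, mul_zero]
    nlinarith
  obtain ⟨κ₂, hκ₂, hball⟩ := Metric.eventually_nhds_iff.1 hcont
  refine ⟨min (min κ₁ (κ₂ / 2)) (1 / 8), by positivity, min_le_right _ _, ?_⟩
  intro κ hκ hκ' O μ T hN z ρ hρ hO L hL hH y w hyz hy hw hwy ν₁ ν₂ h12 hν₂ q₁ q₂ hq₂ hq₂Q hqq
    hlow₁ hlow₂
  have hk1 : κ ≤ κ₁ := hκ'.trans ((min_le_left _ _).trans (min_le_left _ _))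
  have hk2 : κ ≤ κ₂ / 2 := hκ'.trans ((min_le_left _ _).trans (min_le_right _ _))
  have hk3 : κ ≤ 1 / 8 := hκ'.trans (min_le_right _ _)
  have hN1 : Nice m O μ T Q 1 := hN.mono (by linarith)
  have hwy' : ‖w - y‖ < (1 - η) * ρ := by rwa [mem_ball, dist_eq_norm] at hwy
  have hy3 : y ∈ ball z (3 * ρ) := by
    rw [mem_ball]
    linarith
  have hw3 : w ∈ ball z (3 * ρ) := by
    rw [mem_ball]
    have h1 := dist_triangle w y z
    have h2 : dist w y < (1 - η) * ρ := hwy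
    nlinarith
  have hhy := hH y hy hy3
  have hhw := hH w hw hw3
  set v : E N := L.starProjection (y - w) with hv
  have hvL : v ∈ L := Submodule.starProjection_apply_mem L _
  have hvn : ‖v‖ ≤ ρ := by
    refine (Submodule.norm_starProjection_apply_le L _).trans ?_
    rw [norm_sub_rev]
    nlinarith
  have hvy : ‖w + v - y‖ ≤ 2 * κ * ρ := by
    have e : w + v - y = ((w - z) - L.starProjection (w - z)) -
        ((y - z) - L.starProjection (y - z)) := by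
      have e1 : y - w = (y - z) - (w - z) := by abel
      rw [hv, e1, map_sub]
      abel
    rw [e]
    refine (norm_sub_le _ _).trans ?_
    linarith
  have h1 := hsh κ hκ hk1 O μ T hN1 z ρ hρ hO L hL ν₂ (ball y ρ) (closedBall y ((1 - η / 2) * ρ))
    ((Measure.le_add_left le_rfl).trans h12) hν₂ (isCompact_closedBall _ _)
    (closedBall_subset_ball (by nlinarith)) (by
      apply closedBall_subset_closedBall'
      nlinarith) w v q₂ hvL hvn hq₂ hq₂Q (by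
      intro t ht
      apply closedBall_subset_closedBall'
      rw [dist_eq_norm]
      have e : w + t • v - y = (1 - t) • (w - y) + t • (w + v - y) := by
        rw [smul_sub, smul_sub, smul_add, sub_smul, sub_smul, one_smul, one_smul]
        abel
      have h2 : ‖w + t • v - y‖ ≤ (1 - t) * ‖w - y‖ + t * ‖w + v - y‖ := by
        rw [e]
        refine (norm_add_le _ _).trans ?_
        rw [norm_smul, norm_smul, Real.norm_of_nonneg (by linarith [ht.2]),
          Real.norm_of_nonneg ht.1]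
      have h3 : ‖w + v - y‖ ≤ (1 - η) * ρ := hvy.trans (by nlinarith)
      have h4 : (1 - t) * ‖w - y‖ + t * ‖w + v - y‖ ≤ (1 - t) * ((1 - η) * ρ) + t * ((1 - η) * ρ) :=
        add_le_add (mul_le_mul_of_nonneg_left hwy'.le (by linarith [ht.2]))
          (mul_le_mul_of_nonneg_left h3 ht.1)
      have e2 : (1 - t) * ((1 - η) * ρ) + t * ((1 - η) * ρ) = (1 - η) * ρ := by ring
      rw [e2] at h4
      linarith) hlow₂
  have hs : 0 < η / 2 * ρ := by positivity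
  have h2 := hlow₁ (η / 2 * ρ) hs le_rfl
  -- the total mass
  set R : ℝ := (η / 2 + 2 * κ) * ρ with hR
  have hR0 : 0 < R := by positivity
  have hRO : closedBall y R ⊆ O := by
    refine subset_trans ?_ hO
    apply closedBall_subset_closedBall'
    rw [hR]
    nlinarith
  have hRf : μ (ball y R) < ⊤ := fin_ball hN.stat hRO
  have h3 := hN.up y R hR0 hRO
  have h4 : ball (w + v) (η / 2 * ρ) ⊆ ball y R := by
    apply ball_subset_ball'
    rw [dist_eq_norm, hR]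
    linarith
  have h5 : ball y (η / 2 * ρ) ⊆ ball y R := by
    apply ball_subset_ball
    rw [hR]
    nlinarith
  have hν₁μ : ν₁ ≤ μ := (Measure.le_add_right le_rfl).trans h12
  have hν₂μ : ν₂ ≤ μ := (Measure.le_add_left le_rfl).trans h12
  have hf1 : ν₁ (ball y R) < ⊤ := (hν₁μ _).trans_lt hRf
  have hf2 : ν₂ (ball y R) < ⊤ := (hν₂μ _).trans_lt hRf
  have h6 : ν₁.real (ball y R) + ν₂.real (ball y R) ≤ μ.real (ball y R) := by
    have h7 : ν₁ (ball y R) + ν₂ (ball y R) ≤ μ (ball y R) := h12 (ball y R)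
    have h8 := ENNReal.toReal_mono hRf.ne h7
    rw [ENNReal.toReal_add hf1.ne hf2.ne] at h8
    exact h8
  have h7 := measureReal_mono h4 hf2.ne
  have h8 := measureReal_mono h5 hf1.ne
  have h9 : (Q + 3 / 4) * om m * (η / 2 * ρ) ^ m ≤ (Q + κ) * om m * R ^ m := by
    have h10 : 0 ≤ om m * (η / 2 * ρ) ^ m := by positivity
    have h11 : (Q + 1) * (om m * (η / 2 * ρ) ^ m) ≤ (q₁ + q₂) * (om m * (η / 2 * ρ) ^ m) :=
      mul_le_mul_of_nonneg_right hqq h10
    nlinarith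
  have h10 := hball (y := κ) (by
    rw [Real.dist_0_eq_abs, abs_of_pos hκ]
    linarith)
  have h11 : (Q + κ) * om m * R ^ m < (Q + 3 / 4) * om m * (η / 2 * ρ) ^ m := by
    have h12 : 0 < om m * ρ ^ m := by positivity
    have h13 := mul_lt_mul_of_pos_right h10 h12
    calc (Q + κ) * om m * R ^ m = (Q + κ) * (η / 2 + 2 * κ) ^ m * (om m * ρ ^ m) := by
          rw [hR, mul_pow]
          ring
      _ < (Q + 3 / 4) * (η / 2) ^ m * (om m * ρ ^ m) := h13
      _ = (Q + 3 / 4) * om m * (η / 2 * ρ) ^ m := by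
          rw [mul_pow]
          ring
  linarith

/-- the mass of the part of a small ball about `z` inside the touching ball -/
lemma half (hLC : S_LC) (hSH : S_SH) (hAV : S_AV1) (hHB : S_HB) (N m : ℕ) (hm : 1 ≤ m) {Q θ : ℝ}
    (hQ : 1 ≤ Q) (hθ : 0 ≤ θ) (hθ1 : θ < 1 / 2) : ∃ θ₁ η κ₀ : ℝ, 0 < θ₁ ∧ θ₁ ≤ 1 ∧ 0 < η ∧
    η ≤ 1 / 2 ∧ 0 < κ₀ ∧ ∀ κ : ℝ, 0 < κ → κ ≤ κ₀ →
    ∀ (O : Set (E N)) (μ : Measure (E N)) (T : E N → Submodule ℝ (E N)), Nice m O μ T Q 1 →
    ∀ (z : E N) (ρ : ℝ), 0 < ρ → closedBall z (20 * ρ) ⊆ O → Low m μ Q z ρ →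
    ∀ L : Submodule ℝ (E N), Module.finrank ℝ L = m →
    (∀ e ∈ L, ‖e‖ ≤ 1 → ∫ x in closedBall z (4 * ρ), ‖nor T x e‖ ^ 2 ∂μ ≤ κ * ρ ^ m) →
    ∀ y : E N, dist y z = ρ → ‖(y - z) - L.starProjection (y - z)‖ ≤ κ * ρ →
    θ * Q * om m * (θ₁ * ρ) ^ m < μ.real (ball z (θ₁ * ρ) ∩ ball y ((1 - η) * ρ)) := by
  have hom := om_pos m
  set d : ℝ := 1 / 2 - θ with hd
  have hd0 : 0 < d := by linarith
  have hd1 : d ≤ 1 / 2 := by linarith
  obtain ⟨τ, hτ0, hτ1, hτ⟩ := hHB m hm (d / 4) (by positivity)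
  obtain ⟨κ₁, hκ₁, hsh⟩ := shift_low hLC hSH N m hQ (σ := τ ^ 2 / 16) (ι := d / 2) (by positivity)
    (by positivity)
  have hτ2 : τ ^ 2 < 1 := by nlinarith
  have hτ20 : 0 < τ ^ 2 := by positivity
  refine ⟨τ / 2, τ ^ 2 / 16, min κ₁ (1 / 2), by positivity, by linarith, by positivity, by linarith,
    by positivity, ?_⟩
  intro κ hκ hκ' O μ T hN z ρ hρ hO hlow L hLm hL y hyz hyh
  have hk1 : κ ≤ κ₁ := hκ'.trans (min_le_left _ _)
  have hk2 : κ ≤ 1 / 2 := hκ'.trans (min_le_right _ _)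
  have hcs : closedBall z (4 * ρ) ⊆ O := (closedBall_subset_closedBall (by linarith)).trans hO
  have hμfin : μ (closedBall z (4 * ρ)) < ⊤ := hN.stat.fin _ hcs (isCompact_closedBall _ _)
  have hμF : IsFiniteMeasure (μ.restrict (closedBall z (4 * ρ))) := ⟨by simpa using hμfin⟩
  set σ : ℝ := τ ^ 2 / 16 with hσ
  have hσ0 : 0 < σ := by positivity
  set θ₁ : ℝ := τ / 2 with hθ₁
  have hθ₁0 : 0 < θ₁ := by positivity
  -- the isometry onto L
  set bs := (stdOrthonormalBasis ℝ L).reindex (finCongr hLm) with hbs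
  set ψ : E m ≃ₗᵢ[ℝ] L := bs.repr.symm with hψ
  set φ : E m →ₗᵢ[ℝ] E N := L.subtypeₗᵢ.comp ψ.toLinearIsometry with hφ
  have hφL : ∀ p, φ p ∈ L := fun p => (ψ p).2
  set b : E N := L.starProjection (y - z) with hb
  have hbL : b ∈ L := Submodule.starProjection_apply_mem L _
  have hynorm : ‖y - z‖ = ρ := by rw [← dist_eq_norm, hyz]
  have hbn : ρ / 2 ≤ ‖b‖ := by
    have h1 : ‖y - z‖ ≤ ‖(y - z) - b‖ + ‖b‖ := by
      have := norm_add_le ((y - z) - b) b
      rwa [sub_add_cancel] at this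
    nlinarith
  have hb0 : 0 < ‖b‖ := by linarith
  set e₀ : E m := ψ.symm ⟨b, hbL⟩ with he₀
  have hφe₀ : φ e₀ = b := by
    show ((ψ (ψ.symm ⟨b, hbL⟩) : L) : E N) = b
    rw [LinearIsometryEquiv.apply_symm_apply]
  have he₀n : ‖e₀‖ = ‖b‖ := by rw [← hφe₀, φ.norm_map]
  set e : E m := ‖b‖⁻¹ • e₀ with he
  have hen : ‖e‖ = 1 := by
    rw [he, norm_smul, he₀n, norm_inv, norm_norm, inv_mul_cancel₀ hb0.ne']
  have hinner : ∀ p : E m, ⟪φ p, y - z⟫ = ‖b‖ * ⟪p, e⟫ := by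
    intro p
    have h1 : ⟪φ p, y - z⟫ = ⟪φ p, b⟫ := by
      have h2 : ⟪φ p, (y - z) - b⟫ = 0 :=
        Submodule.inner_right_of_mem_orthogonal (hφL p)
          (Submodule.sub_starProjection_mem_orthogonal (y - z))
      rw [inner_sub_right] at h2
      linarith
    rw [h1, ← hφe₀, φ.inner_map_map, he, inner_smul_right, ← mul_assoc, hφe₀,
      mul_inv_cancel₀ hb0.ne', one_mul]
  -- the centres
  set Y₀ : Set (E m) := {p | ‖p‖ ≤ 1 - τ ∧ τ ≤ ⟪p, e⟫} with hY₀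
  have hY₀c : IsClosed Y₀ := by
    have hc : Continuous fun p : E m => ⟪p, e⟫ := by fun_prop
    exact IsClosed.inter (isClosed_le continuous_norm continuous_const)
      (isClosed_le continuous_const hc)
  set Y : Set (E m) := (θ₁ * ρ) • Y₀ with hY
  have hYc : IsClosed Y := hY₀c.smul₀ _
  have hYsub : Y ⊆ closedBall 0 (θ₁ * ρ) := by
    rintro _ ⟨p, hp, rfl⟩
    rw [mem_closedBall_zero_iff]
    show ‖(θ₁ * ρ) • p‖ ≤ θ₁ * ρ
    rw [norm_smul, Real.norm_of_nonneg (by positivity)]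
    have h1 := hp.1
    have h2 : 0 < θ₁ * ρ := by positivity
    nlinarith
  have hYfin : volume Y < ⊤ := (measure_mono hYsub).trans_lt measure_closedBall_lt_top
  have hYvol : (1 / 2 - d / 4) * om m * (θ₁ * ρ) ^ m ≤ volume.real Y := by
    have h1 : volume Y = ENNReal.ofReal ((θ₁ * ρ) ^ m) * volume Y₀ := by
      rw [hY, Measure.addHaar_smul, finrank_euclideanSpace_fin, abs_of_pos (by positivity)]
    have h2 : volume.real Y = (θ₁ * ρ) ^ m * volume.real Y₀ := by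
      rw [Measure.real, h1, ENNReal.toReal_mul, ENNReal.toReal_ofReal (by positivity)]
      rfl
    rw [h2, mul_comm]
    exact mul_le_mul_of_nonneg_left (hτ e hen) (by positivity)
  have hpY : ∀ p ∈ Y, ‖φ p‖ ≤ (1 - τ) * (θ₁ * ρ) ∧ τ * (θ₁ * ρ) * ‖b‖ ≤ ⟪φ p, y - z⟫ := by
    rintro _ ⟨p, hp, rfl⟩
    have h2 : 0 < θ₁ * ρ := by positivity
    constructor
    · rw [φ.norm_map]
      show ‖(θ₁ * ρ) • p‖ ≤ _
      rw [norm_smul, Real.norm_of_nonneg h2.le, mul_comm]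
      exact mul_le_mul_of_nonneg_right hp.1 h2.le
    · rw [hinner]
      show τ * (θ₁ * ρ) * ‖b‖ ≤ ‖b‖ * ⟪(θ₁ * ρ) • p, e⟫
      rw [real_inner_smul_left]
      have h3 := mul_le_mul_of_nonneg_left hp.2 (by positivity : 0 ≤ ‖b‖ * (θ₁ * ρ))
      nlinarith
  have hpr : ∀ p ∈ Y, ‖φ p‖ ≤ ρ := by
    intro p hp
    refine (hpY p hp).1.trans ?_
    have h1 : (1 - τ) * θ₁ ≤ 1 := by rw [hθ₁]; nlinarith
    nlinarith
  have hincl : ∀ p ∈ Y, ball (z + φ p) (σ * ρ) ⊆ ball z (θ₁ * ρ) ∩ ball y ((1 - σ) * ρ) := by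
    intro p hp
    obtain ⟨h1, h2⟩ := hpY p hp
    apply subset_inter
    · apply ball_subset_ball'
      rw [dist_eq_norm, add_sub_cancel_left]
      have h3 : σ ≤ τ * θ₁ := by
        rw [hσ, hθ₁]
        nlinarith
      have h4 := mul_le_mul_of_nonneg_right h3 hρ.le
      nlinarith
    · apply ball_subset_ball'
      have h3 : ‖z + φ p - y‖ ^ 2 ≤ ((1 - 2 * σ) * ρ) ^ 2 := by
        have e1 : z + φ p - y = φ p - (y - z) := by abel
        have h4 : ‖φ p‖ ^ 2 ≤ (θ₁ * ρ) ^ 2 := by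
          apply pow_le_pow_left₀ (norm_nonneg _)
          refine h1.trans ?_
          have : 0 < θ₁ * ρ := by positivity
          nlinarith
        have h5 : τ * (θ₁ * ρ) * (ρ / 2) ≤ τ * (θ₁ * ρ) * ‖b‖ :=
          mul_le_mul_of_nonneg_left hbn (by positivity)
        rw [e1, norm_sub_sq_real, hynorm]
        have h6 : (θ₁ * ρ) ^ 2 - 2 * (τ * (θ₁ * ρ) * (ρ / 2)) + ρ ^ 2 ≤ ((1 - 2 * σ) * ρ) ^ 2 := by
          have h7 : 0 ≤ τ ^ 4 * ρ ^ 2 := by positivity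
          have e7 : ((1 - 2 * σ) * ρ) ^ 2 - ((θ₁ * ρ) ^ 2 - 2 * (τ * (θ₁ * ρ) * (ρ / 2)) + ρ ^ 2) =
              τ ^ 4 * ρ ^ 2 / 64 := by
            rw [hσ, hθ₁]
            ring
          linarith
        linarith
      have h4 : 0 ≤ (1 - 2 * σ) * ρ := by
        have : 2 * σ ≤ 1 := by rw [hσ]; linarith
        have h5 : 0 ≤ 1 - 2 * σ := by linarith
        positivity
      have h5 : |‖z + φ p - y‖| ≤ (1 - 2 * σ) * ρ := abs_le_of_sq_le_sq h3 h4
      rw [dist_eq_norm]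
      have h6 : ‖z + φ p - y‖ ≤ (1 - 2 * σ) * ρ := by
        rwa [abs_of_nonneg (norm_nonneg _)] at h5
      have e6 : (1 - 2 * σ) * ρ + σ * ρ = (1 - σ) * ρ := by ring
      linarith
  have hlb : ∀ p ∈ Y, (Q - d / 2) * om m * (σ * ρ) ^ m ≤
      (μ.restrict (closedBall z (4 * ρ))).real (ball (z + φ p) (σ * ρ)) := by
    intro p hp
    have hsub : ball (z + φ p) (σ * ρ) ⊆ closedBall z (4 * ρ) := by
      refine ((hincl p hp).trans inter_subset_left).trans ?_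
      refine (ball_subset_closedBall).trans (closedBall_subset_closedBall ?_)
      rw [hθ₁]
      nlinarith
    rw [real_restrict_ball hsub]
    apply hsh κ hκ hk1 O μ T hN z ρ hρ hO L hL μ O (closedBall z (4 * ρ)) le_rfl hN.stat
      (isCompact_closedBall _ _) hcs subset_rfl z (φ p) Q (hφL p) (hpr p hp) (by linarith) le_rfl
    · intro t ht
      apply closedBall_subset_closedBall'
      rw [dist_eq_norm, add_sub_cancel_left, norm_smul, Real.norm_of_nonneg ht.1]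
      have h1 := hpr p hp
      have h2 : t * ‖φ p‖ ≤ 1 * ρ := mul_le_mul ht.2 h1 (norm_nonneg _) (by norm_num)
      have h3 : σ ≤ 1 := by rw [hσ]; linarith
      nlinarith
    · intro r hr hrσ
      apply hlow r hr
      have h3 : σ ≤ 1 := by rw [hσ]; linarith
      nlinarith
  have hfin := hAV N m φ (μ.restrict (closedBall z (4 * ρ))) z (σ * ρ)
    ((Q - d / 2) * om m * (σ * ρ) ^ m) Y (ball z (θ₁ * ρ) ∩ ball y ((1 - σ) * ρ))
    hYc.measurableSet hYfin (measurableSet_ball.inter measurableSet_ball) (by positivity)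
    (by
      have : 0 ≤ Q - d / 2 := by linarith
      positivity) hincl hlb
  have hA : (μ.restrict (closedBall z (4 * ρ))).real (ball z (θ₁ * ρ) ∩ ball y ((1 - σ) * ρ)) ≤
      μ.real (ball z (θ₁ * ρ) ∩ ball y ((1 - σ) * ρ)) := by
    apply ENNReal.toReal_mono
    · refine ((measure_mono inter_subset_left).trans_lt (fin_ball hN.stat ?_)).ne
      refine subset_trans (closedBall_subset_closedBall ?_) hO
      rw [hθ₁]
      nlinarith
    · exact Measure.restrict_apply_le _ _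
  refine lt_of_lt_of_le ?_ hA
  have hpos : 0 < om m * (σ * ρ) ^ m := by positivity
  have h1 : (Q - d / 2) * ((1 / 2 - d / 4) * om m * (θ₁ * ρ) ^ m) ≤
      (μ.restrict (closedBall z (4 * ρ))).real (ball z (θ₁ * ρ) ∩ ball y ((1 - σ) * ρ)) := by
    have h2 : (Q - d / 2) * ((1 / 2 - d / 4) * om m * (θ₁ * ρ) ^ m) ≤
        (Q - d / 2) * volume.real Y := mul_le_mul_of_nonneg_left hYvol (by linarith)
    refine h2.trans ?_
    have h3 : (om m * (σ * ρ) ^ m) * ((Q - d / 2) * volume.real Y) ≤ (om m * (σ * ρ) ^ m) *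
        (μ.restrict (closedBall z (4 * ρ))).real (ball z (θ₁ * ρ) ∩ ball y ((1 - σ) * ρ)) := by
      refine le_trans (le_of_eq ?_) hfin
      ring
    exact le_of_mul_le_mul_left h3 hpos
  refine lt_of_lt_of_le ?_ h1
  have hp2 : 0 < om m * (θ₁ * ρ) ^ m := by positivity
  have h2 : θ * Q < (Q - d / 2) * (1 / 2 - d / 4) := by
    have : θ = 1 / 2 - d := by rw [hd]; ring
    rw [this]
    nlinarith
  have h3 := mul_lt_mul_of_pos_right h2 hp2
  calc θ * Q * om m * (θ₁ * ρ) ^ m = θ * Q * (om m * (θ₁ * ρ) ^ m) := by ring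
    _ < (Q - d / 2) * (1 / 2 - d / 4) * (om m * (θ₁ * ρ) ^ m) := h3
    _ = _ := by ring

end Pool.Agent.Helper83K9.HD
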