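import Pool.Agent.Helper83K9.HD.Touch

/-!
Half-density interfaces: no interface point has a neighbourhood in which one phase has uniformly
less than half of the density.
-/

namespace Pool.Agent.Helper83K9.HD

open MeasureTheory Set Filter Topology Metric Pool.Agent.TH337.VF
open scoped ENNReal RealInnerProductSpace

variable {N m : ℕ}

lemma ifc_alt {O : Set (E N)} {μ : Measure (E N)} {S A : Set (E N)} (hA : A = S ∨ A = Sᶜ) :
    ifc O μ A = ifc O μ S := by
  rcases hA with rfl | rfl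
  · rfl
  · exact ifc_compl O μ S

/-- interface points have mass ratios at least `Q` -/
lemma low_ifc {O : Set (E N)} {μ : Measure (E N)} {P : E N → E N →L[ℝ] E N} (hO : IsOpen O)
    (h : Stat m O μ P) {S : Set (E N)} {Q : ℝ} (hQ : 0 ≤ Q)
    (hqS : ∀ᵐ x ∂(μ.restrict O), x ∈ S → ENNReal.ofReal Q ≤ density m μ x) {z : E N}
    (hz : z ∈ ifc O μ S) {R : ℝ} (hR : closedBall z R ⊆ O) : Low m μ Q z R := by
  have h1 := Low.of_lim h hR (q := ENNReal.ofReal Q) ENNReal.ofReal_ne_top (by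
    intro δ hδ
    obtain ⟨r, hr, hrO⟩ := Metric.isOpen_iff.1 hO z hz.1
    have hne : μ (ball z (min δ r) ∩ S) ≠ 0 := fun hcon =>
      hz.2 (Or.inl ⟨min δ r, lt_min hδ hr, hcon⟩)
    have hsub : ball z (min δ r) ∩ S ⊆ O :=
      inter_subset_left.trans ((ball_subset_ball (min_le_right _ _)).trans hrO)
    obtain ⟨x, hx1, hx2⟩ := Measure.exists_mem_of_measure_ne_zero_of_ae hne
      (ae_restrict_of_ae_restrict_of_subset hsub hqS)
    exact ⟨x, ball_subset_ball (min_le_left _ _) hx1.1, hx2 hx1.2⟩)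
  rwa [ENNReal.toReal_ofReal hQ] at h1

/-- the interface carries no mass of a phase with relative density at most `θ < 1 / 2` -/
lemma no_mass {O : Set (E N)} {μ : Measure (E N)} {P : E N → E N →L[ℝ] E N} (hO : IsOpen O)
    (h : Stat m O μ P) {S A : Set (E N)} {Q θ : ℝ} (hQ : 1 ≤ Q)
    (hqS : ∀ᵐ x ∂(μ.restrict O), x ∈ S → ENNReal.ofReal Q ≤ density m μ x)
    (hθ : 0 ≤ θ) (hθ1 : θ < 1 / 2) {z₂ : E N} {δ₀ δ r₀ : ℝ} (hδ : 0 < δ) (hδδ : 4 * δ ≤ δ₀)
    (hcO : closedBall z₂ δ₀ ⊆ O) (hδr : δ₀ ≤ r₀)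
    (hun : ∀ z ∈ ifc O μ S, ∀ r : ℝ, 0 < r → r < r₀ → μ (ball z r ∩ A) ≤
      ENNReal.ofReal (θ * Q * om m * r ^ m)) : μ (ball z₂ δ ∩ (A ∩ ifc O μ S)) = 0 := by
  have hom := om_pos m
  by_contra hne
  have hfin : IsFiniteMeasure (μ.restrict (closedBall z₂ δ₀)) :=
    ⟨by simpa using h.fin _ hcO (isCompact_closedBall z₂ δ₀)⟩
  set μ' := μ.restrict (closedBall z₂ δ₀) with hμ'
  set S₀ := ball z₂ δ ∩ (A ∩ ifc O μ S) with hS₀
  have hbsub : ball z₂ δ ⊆ closedBall z₂ δ₀ :=
    ball_subset_closedBall.trans (closedBall_subset_closedBall (by linarith))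
  have hS₀sub : S₀ ⊆ closedBall z₂ δ₀ := inter_subset_left.trans hbsub
  have hμS₀ : μ' S₀ ≠ 0 := by
    rw [hμ', Measure.restrict_apply' isClosed_closedBall.measurableSet, inter_eq_left.2 hS₀sub]
    exact hne
  have hdt := Besicovitch.ae_tendsto_measure_inter_div μ' S₀
  obtain ⟨x, hxS₀, hx1⟩ := Measure.exists_mem_of_measure_ne_zero_of_ae hμS₀ hdt
  have hxI : x ∈ ifc O μ S := hxS₀.2.2
  -- a factor slightly larger than one
  obtain ⟨l, hl1, hl2⟩ : ∃ l : ℝ, l ^ m < 2 ∧ l ∈ Ioo (1:ℝ) 2 := by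
    have h1 : Tendsto (fun l : ℝ => l ^ m) (𝓝[>] 1) (𝓝 (1 ^ m)) :=
      tendsto_nhdsWithin_of_tendsto_nhds ((continuous_pow m).tendsto 1)
    rw [one_pow] at h1
    exact ((h1.eventually (gt_mem_nhds (by norm_num : (1:ℝ) < 2))).and
      (Ioo_mem_nhdsGT (by norm_num : (1:ℝ) < 2))).exists
  have hbd : ∀ᶠ r : ℝ in 𝓝[>] 0, μ' (S₀ ∩ closedBall x r) / μ' (closedBall x r) ≤
      ENNReal.ofReal (θ * l ^ m) := by
    filter_upwards [Ioc_mem_nhdsGT hδ] with r hr
    have hr0 : 0 < r := hr.1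
    have hxδ : dist x z₂ < δ := mem_ball.1 hxS₀.1
    have hsub : closedBall x r ⊆ closedBall z₂ δ₀ := by
      apply closedBall_subset_closedBall'
      linarith [hr.2]
    have h1 : μ' (S₀ ∩ closedBall x r) ≤ ENNReal.ofReal (θ * Q * om m * (l * r) ^ m) := by
      refine (Measure.restrict_apply_le _ _).trans ?_
      refine (measure_mono ?_).trans (hun x hxI (l * r) (by nlinarith [hl2.1]) ?_)
      · intro y hy
        exact ⟨closedBall_subset_ball (by nlinarith [hl2.1]) hy.2, hy.1.2.1⟩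
      · nlinarith [hr.2, hl2.2]
    have h2 : ENNReal.ofReal (Q * om m * r ^ m) ≤ μ' (closedBall x r) := by
      have h3 : μ' (closedBall x r) = μ (closedBall x r) := by
        rw [hμ', Measure.restrict_apply isClosed_closedBall.measurableSet, inter_eq_left.2 hsub]
      rw [h3]
      have h4 := low_ifc hO h (by linarith) hqS hxI (hsub.trans hcO) r hr0 le_rfl
      refine le_trans ?_ (measure_mono ball_subset_closedBall)
      rw [ENNReal.ofReal_le_iff_le_toReal (fin_ball h (hsub.trans hcO)).ne]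
      exact h4
    have hpos : 0 < Q * om m * r ^ m := by positivity
    calc μ' (S₀ ∩ closedBall x r) / μ' (closedBall x r)
        ≤ ENNReal.ofReal (θ * Q * om m * (l * r) ^ m) / ENNReal.ofReal (Q * om m * r ^ m) :=
          ENNReal.div_le_div h1 h2
      _ = ENNReal.ofReal (θ * l ^ m) := by
          rw [← ENNReal.ofReal_div_of_pos hpos]
          congr 1
          rw [mul_pow]
          field_simp
  have h1 : (1:ℝ≥0∞) ≤ ENNReal.ofReal (θ * l ^ m) := le_of_tendsto hx1 hbd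
  have h2 : ENNReal.ofReal (θ * l ^ m) < 1 := by
    rw [ENNReal.ofReal_lt_one]
    have : 0 < l ^ m := pow_pos (by linarith [hl2.1]) m
    nlinarith
  exact absurd h1 (not_le.2 h2)

/-- the uniform statement -/
theorem uniform2 (hLC : S_LC) (hSH : S_SH) (hAV : S_AV1) (hHB : S_HB) (hPL : S_PL) (N m : ℕ)
    (hm : 1 ≤ m) {Q θ : ℝ} (hQ : 1 ≤ Q) (hθ : 0 ≤ θ) (hθ1 : θ < 1 / 2) : ∃ ε : ℝ, 0 < ε ∧
    ∀ (O : Set (E N)) (μ : Measure (E N)) (T : E N → Submodule ℝ (E N)), Nice m O μ T Q ε →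
    ∀ S : Set (E N), (∀ᵐ x ∂(μ.restrict O), x ∈ S → ENNReal.ofReal Q ≤ density m μ x) →
    (∀ᵐ x ∂(μ.restrict O), 1 ≤ density m μ x) → ∀ A : Set (E N), (A = S ∨ A = Sᶜ) →
    ∀ r₀ : ℝ, 0 < r₀ → (∀ z ∈ ifc O μ S, ∀ r : ℝ, 0 < r → r < r₀ → μ (ball z r ∩ A) ≤
      ENNReal.ofReal (θ * Q * om m * r ^ m)) → ifc O μ S = ∅ := by
  have hom := om_pos m
  obtain ⟨θ₁, η, κ₀, hθ₁0, hθ₁1, hη0, hη1, hκ₀, hhalf⟩ := half hLC hSH hAV hHB N m hm hQ hθ hθ1
  obtain ⟨κ₁, hκ₁, hκ₁8, hsing⟩ := single hLC hSH N m hQ hη0 hη1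
  set κ : ℝ := min κ₀ κ₁ with hκ
  have hκ0 : 0 < κ := lt_min hκ₀ hκ₁
  obtain ⟨ε₁, hε₁, hε₁1, hpl⟩ := hPL N m hm Q (om m / 2) κ hQ (by positivity) hκ0
  refine ⟨min ε₁ κ, lt_min hε₁ hκ0, ?_⟩
  intro O μ T hN S hqS h1d A hA r₀ hr₀ hun
  have hN1 : Nice m O μ T Q ε₁ := hN.mono (min_le_left _ _)
  have hNκ : Nice m O μ T Q κ := hN.mono (min_le_right _ _)
  have hNone : Nice m O μ T Q 1 := hN1.mono hε₁1
  have hO := hN.isOpen
  have hS := hN.stat
  rw [eq_empty_iff_forall_notMem]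
  intro z₂ hz
  have hzO : z₂ ∈ O := hz.1
  obtain ⟨R₀, hR₀, hRO⟩ := Metric.isOpen_iff.1 hO z₂ hzO
  set δ₀ : ℝ := min (R₀ / 2) r₀ with hδ₀
  have hδ₀0 : 0 < δ₀ := lt_min (by positivity) hr₀
  have hcO : closedBall z₂ δ₀ ⊆ O := by
    refine (closedBall_subset_ball ?_).trans hRO
    have : δ₀ ≤ R₀ / 2 := min_le_left _ _
    linarith
  have hδr : δ₀ ≤ r₀ := min_le_right _ _
  set δ : ℝ := δ₀ / 40 with hδ
  have hδ0 : 0 < δ := by positivity
  have hAI : ifc O μ A = ifc O μ S := ifc_alt hA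
  have hz1 : z₂ ∉ nn μ A := by
    have : z₂ ∈ ifc O μ A := by rwa [hAI]
    exact fun h => this.2 (Or.inl h)
  -- the values of the densities
  obtain ⟨q₁, q₂, hq₁0, hq₂0, hq₂Q, hqq, hqA, hqA', hAq⟩ : ∃ q₁ q₂ : ℝ, 0 ≤ q₁ ∧ 0 ≤ q₂ ∧ q₂ ≤ Q ∧
      Q + 1 ≤ q₁ + q₂ ∧
      (∀ᵐ x ∂(μ.restrict O), x ∈ A → ENNReal.ofReal q₁ ≤ density m μ x) ∧
      (∀ᵐ x ∂(μ.restrict O), x ∈ Aᶜ → ENNReal.ofReal q₂ ≤ density m μ x) ∧
      ((A = S ∧ q₁ = Q) ∨ A = Sᶜ) := by
    rcases hA with h | h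
    · refine ⟨Q, 1, by linarith, zero_le_one, hQ, le_rfl, ?_, ?_, Or.inl ⟨h, rfl⟩⟩
      · rw [h]
        exact hqS
      · filter_upwards [h1d] with x hx _
        rwa [ENNReal.ofReal_one]
    · refine ⟨1, Q, zero_le_one, by linarith, le_rfl, by linarith, ?_, ?_, Or.inr h⟩
      · filter_upwards [h1d] with x hx _
        rwa [ENNReal.ofReal_one]
      · rw [h, compl_compl]
        exact hqS
  have ha := no_mass (A := A) hO hS hQ hqS hθ hθ1 hδ0 (by rw [hδ]; linarith) hcO hδr hun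
  have hb : μ (ball z₂ δ ∩ nn μ Aᶜ) ≠ 0 := by
    intro hcon
    apply hz1
    refine ⟨δ, hδ0, ?_⟩
    have hsub : ball z₂ δ ∩ A ⊆ (ball z₂ δ ∩ nn μ Aᶜ) ∪
        ((nn μ A ∩ A) ∪ (ball z₂ δ ∩ (A ∩ ifc O μ S))) := by
      intro y hy
      by_cases h1 : y ∈ nn μ Aᶜ
      · exact Or.inl ⟨hy.1, h1⟩
      · by_cases h2 : y ∈ nn μ A
        · exact Or.inr (Or.inl ⟨h2, hy.2⟩)
        · refine Or.inr (Or.inr ⟨hy.1, hy.2, ?_⟩)
          rw [← hAI]
          refine ⟨hcO (closedBall_subset_closedBall (by rw [hδ]; linarith)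
              (ball_subset_closedBall hy.1)), ?_⟩
          rintro (h3 | h3)
          · exact h2 h3
          · exact h1 h3
    refine measure_mono_null hsub ?_
    rw [measure_union_null_iff, measure_union_null_iff]
    exact ⟨hcon, measure_nn μ A, ha⟩
  obtain ⟨y, ⟨hyδ, hyn⟩, hys⟩ := Measure.nonempty_inter_support_of_pos (pos_iff_ne_zero.2 hb)
  rw [mem_ball] at hyδ
  -- nearest interface point
  set F : Set (E N) := closedBall z₂ δ₀ ∩ (nn μ A ∪ nn μ Aᶜ)ᶜ with hF
  have hFc : IsCompact F := (isCompact_closedBall z₂ δ₀).inter_right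
    ((isOpen_nn μ A).union (isOpen_nn μ Aᶜ)).isClosed_compl
  have hzF : z₂ ∈ F := by
    have : z₂ ∈ ifc O μ A := by rwa [hAI]
    exact ⟨mem_closedBall_self hδ₀0.le, this.2⟩
  obtain ⟨z, hzF', hzd⟩ := hFc.exists_infDist_eq_dist ⟨z₂, hzF⟩ y
  set ρ := dist y z with hρ
  have hρδ : ρ < δ := by
    rw [← hzd]
    exact (infDist_le_dist_of_mem hzF).trans_lt hyδ
  have hρ0 : 0 < ρ := by
    rw [hρ, dist_pos]
    rintro rfl
    exact hzF'.2 (Or.inr hyn)
  have hballO : ball y ρ ⊆ O := by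
    refine (ball_subset_closedBall.trans ?_).trans hcO
    apply closedBall_subset_closedBall'
    linarith
  have hfree : ifc (ball y ρ) μ A = ∅ := by
    rw [eq_empty_iff_forall_notMem]
    intro w hw
    have hwb : dist w y < ρ := mem_ball.1 hw.1
    have hwF : w ∈ F := by
      refine ⟨?_, hw.2⟩
      rw [mem_closedBall]
      have := dist_triangle w y z₂
      linarith
    have := infDist_le_dist_of_mem (x := y) hwF
    rw [hzd, dist_comm] at this
    rw [dist_comm] at hwb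
    rw [dist_comm w y] at this
    linarith
  have hzI : z ∈ ifc O μ S := by
    rw [← hAI]
    exact ⟨hcO hzF'.1, hzF'.2⟩
  have hzball : closedBall z (20 * ρ) ⊆ O := by
    refine subset_trans ?_ hcO
    apply closedBall_subset_closedBall'
    have h1 := dist_triangle z y z₂
    rw [dist_comm z y] at h1
    linarith
  have hzlow : Low m μ Q z (20 * ρ) := low_ifc hO hS (by linarith) hqS hzI hzball
  -- the phases in the touching ball
  have hst : Stat m (ball y ρ) (μ.restrict (nn μ Aᶜ)) (pr T) := by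
    apply stat_side hm hS isOpen_ball hballO A
    rw [hfree, measure_empty]
  have hst' : Stat m (ball y ρ) (μ.restrict (nn μ A)) (pr T) := by
    apply stat_side' hm hS isOpen_ball hballO A
    rw [hfree, measure_empty]
  have hyfin : μ (ball y ρ) < ⊤ := by
    apply fin_ball hS
    refine subset_trans ?_ hcO
    apply closedBall_subset_closedBall'
    linarith
  -- lower bounds for the phases
  have hlow1 : ∀ s : ℝ, 0 < s → s ≤ ρ → q₁ * om m * s ^ m ≤
      (μ.restrict (nn μ Aᶜ)).real (ball y s) := by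
    intro s hs hsρ
    have h1 := lower_side hballO hst (q := ENNReal.ofReal q₁) ENNReal.ofReal_ne_top hqA hs
      (x₀ := y) (ball_subset_ball hsρ) (by
      intro ξ hξ
      rw [Measure.mem_support_iff_forall] at hys
      exact (hys _ (inter_mem (ball_mem_nhds y hξ) ((isOpen_nn μ Aᶜ).mem_nhds hyn))).ne')
    have h2 : μ (ball y s ∩ nn μ Aᶜ) ≠ ⊤ :=
      ((measure_mono (inter_subset_left.trans (ball_subset_ball hsρ))).trans_lt hyfin).ne
    have h3 := toReal_bd hs h2 h1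
    rw [ENNReal.toReal_ofReal hq₁0] at h3
    rwa [measureReal_restrict_apply measurableSet_ball]
  have hlow2 : ∀ w ∈ ball y ρ, w ∈ μ.support → w ∈ nn μ A → ∀ s : ℝ, 0 < s →
      ball w s ⊆ ball y ρ → q₂ * om m * s ^ m ≤ (μ.restrict (nn μ A)).real (ball w s) := by
    intro w hw hws hwn s hs hsρ
    have hst2 : Stat m (ball y ρ) (μ.restrict (nn μ Aᶜᶜ)) (pr T) := by
      rw [compl_compl]
      exact hst'
    have h1 := lower_side hballO hst2 (q := ENNReal.ofReal q₂) ENNReal.ofReal_ne_top hqA' hs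
      (x₀ := w) hsρ (by
      intro ξ hξ
      rw [Measure.mem_support_iff_forall] at hws
      rw [compl_compl]
      exact (hws _ (inter_mem (ball_mem_nhds w hξ) ((isOpen_nn μ A).mem_nhds hwn))).ne')
    rw [compl_compl] at h1
    have h2 : μ (ball w s ∩ nn μ A) ≠ ⊤ :=
      ((measure_mono (inter_subset_left.trans hsρ)).trans_lt hyfin).ne
    have h3 := toReal_bd hs h2 h1
    rw [ENNReal.toReal_ofReal hq₂0] at h3
    rwa [measureReal_restrict_apply measurableSet_ball]
  have hsum : μ.restrict (nn μ Aᶜ) + μ.restrict (nn μ A) ≤ μ := by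
    have hdis : μ (nn μ Aᶜ ∩ nn μ A) = 0 := by
      refine measure_mono_null ?_ (μ.measure_compl_support)
      intro w hw hws
      have : w ∈ μ.support ∩ univ ∩ nn μ Aᶜ ∩ nn μ A := ⟨⟨⟨hws, mem_univ _⟩, hw.1⟩, hw.2⟩
      rw [nn_disj] at this
      exact this
    rw [Measure.le_iff]
    intro s hs
    rw [Measure.add_apply, Measure.restrict_apply hs, Measure.restrict_apply hs,
      ← measure_union₀ (hs.inter (isOpen_nn μ A).measurableSet).nullMeasurableSet]
    · exact measure_mono (union_subset inter_subset_left inter_subset_left)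
    · refine measure_mono_null ?_ hdis
      intro w hw
      exact ⟨hw.1.2, hw.2.2⟩
  -- many points of density at least Q
  set G : Set (E N) := {x | (x ∈ ball z (2 * ρ) ∧ x ∈ S) ∧ ENNReal.ofReal Q ≤ density m μ x}
    with hG
  have hGfin : μ (ball z (2 * ρ)) < ⊤ :=
    fin_ball hS ((closedBall_subset_closedBall (by linarith)).trans hzball)
  have hGball : μ (ball z (2 * ρ) ∩ S) ≤ μ G := by
    have hsub : ball z (2 * ρ) ∩ S ⊆ G ∪ ({x | ¬ (x ∈ S → ENNReal.ofReal Q ≤ density m μ x)} ∩ O) := by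
      intro x hx
      by_cases hxd : ENNReal.ofReal Q ≤ density m μ x
      · exact Or.inl ⟨hx, hxd⟩
      · refine Or.inr ⟨fun hc => hxd (hc hx.2), ?_⟩
        exact hzball (closedBall_subset_closedBall (by linarith) (ball_subset_closedBall hx.1))
    refine (measure_mono hsub).trans ((measure_union_le _ _).trans ?_)
    have h0 : μ ({x | ¬ (x ∈ S → ENNReal.ofReal Q ≤ density m μ x)} ∩ O) = 0 := by
      have h2 := ae_iff.1 hqS
      rwa [Measure.restrict_apply' hO.measurableSet] at h2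
    rw [h0, add_zero]
  have hGmass : om m / 2 * ρ ^ m ≤ μ.real G := by
    have hGf : μ G ≠ ⊤ := ((measure_mono fun x hx => hx.1.1).trans_lt hGfin).ne
    have hbS : μ (ball z (2 * ρ) ∩ S) ≠ ⊤ := ((measure_mono inter_subset_left).trans_lt hGfin).ne
    refine le_trans ?_ (ENNReal.toReal_mono hGf hGball)
    rcases hAq with ⟨hAS, hq1⟩ | hAS
    · have h1 := hlow1 ρ hρ0 le_rfl
      rw [measureReal_restrict_apply measurableSet_ball, hq1] at h1
      have h2 : μ (ball y ρ ∩ nn μ Aᶜ) ≤ μ (ball z (2 * ρ) ∩ S) := by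
        have hsub : ball y ρ ∩ nn μ Aᶜ ⊆ (ball z (2 * ρ) ∩ S) ∪ (nn μ Aᶜ ∩ Aᶜ) := by
          intro w hw
          by_cases hwA : w ∈ A
          · refine Or.inl ⟨?_, by rwa [← hAS]⟩
            apply ball_subset_ball' _ hw.1
            rw [← hρ]
            linarith
          · exact Or.inr ⟨hw.2, hwA⟩
        refine (measure_mono hsub).trans ((measure_union_le _ _).trans ?_)
        rw [measure_nn, add_zero]
      have h3 := ENNReal.toReal_mono hbS h2
      have h4 : om m / 2 * ρ ^ m ≤ Q * om m * ρ ^ m := by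
        have : 0 < om m * ρ ^ m := by positivity
        nlinarith
      exact h4.trans (h1.trans h3)
    · have h1 := hzlow ρ hρ0 (by linarith)
      have h2 := hun z hzI ρ hρ0 (by linarith)
      have hsub : ball z ρ ⊆ (ball z (2 * ρ) ∩ S) ∪ (ball z ρ ∩ A) := by
        intro w hw
        by_cases hwS : w ∈ S
        · exact Or.inl ⟨ball_subset_ball (by linarith) hw, hwS⟩
        · refine Or.inr ⟨hw, ?_⟩
          rw [hAS]
          exact hwS
      have h3 : μ (ball z ρ) ≤ μ (ball z (2 * ρ) ∩ S) + ENNReal.ofReal (θ * Q * om m * ρ ^ m) :=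
        (measure_mono hsub).trans ((measure_union_le _ _).trans (add_le_add le_rfl h2))
      have h4 := ENNReal.toReal_mono (ENNReal.add_ne_top.2 ⟨hbS, ENNReal.ofReal_ne_top⟩) h3
      rw [ENNReal.toReal_add hbS ENNReal.ofReal_ne_top, ENNReal.toReal_ofReal (by positivity)] at h4
      have h5 : om m / 2 * ρ ^ m ≤ Q * om m * ρ ^ m - θ * Q * om m * ρ ^ m := by
        have h6 : 0 < om m * ρ ^ m := by positivity
        have h7 : 1 / 2 ≤ Q - θ * Q := by nlinarith
        nlinarith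
      have h6 : μ.real (ball z ρ) = (μ (ball z ρ)).toReal := rfl
      rw [h6] at h1
      linarith
  -- the nearly tangent plane
  obtain ⟨L, hLm, hL, hLh⟩ := hpl O μ T hN1 z ρ hρ0 hzball
    (fun r hr hr' => hzlow r hr (by linarith)) G (fun x hx => hx.1.1) (by
      intro x hx
      have h1 := Low.of_density hS (y := x) (R := 16 * ρ) (q := ENNReal.ofReal Q) (by
        refine subset_trans ?_ hzball
        apply closedBall_subset_closedBall'
        have := mem_ball.1 hx.1.1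
        linarith) ENNReal.ofReal_ne_top hx.2
      rwa [ENNReal.toReal_ofReal (by linarith)] at h1) hGmass
  -- only the phase A is present well inside the touching ball
  have hB0 : μ (ball y ((1 - η) * ρ) ∩ nn μ A) = 0 := by
    by_contra hne
    obtain ⟨w, ⟨hw1, hw2⟩, hws⟩ := Measure.nonempty_inter_support_of_pos (pos_iff_ne_zero.2 hne)
    refine hsing κ hκ0 (min_le_right _ _) O μ T hNκ z ρ hρ0 hzball L hL hLh y w hρ.ge hys hws
      hw1 (μ.restrict (nn μ Aᶜ)) (μ.restrict (nn μ A)) hsum hst' q₁ q₂ hq₂0 hq₂Q hqq ?_ ?_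
    · intro r hr hr'
      exact hlow1 r hr (by nlinarith)
    · intro r hr hr'
      have hwy := mem_ball.1 hw1
      apply hlow2 w (ball_subset_ball (by nlinarith) hw1) hws hw2 r hr
      apply ball_subset_ball'
      nlinarith
  -- the half ball
  have hhb := hhalf κ hκ0 (min_le_left _ _) O μ T hNone z ρ hρ0 hzball
    (fun r hr hr' => hzlow r hr (by linarith)) L hLm hL y hρ.symm (hLh y hys (by
      rw [mem_ball, ← hρ]
      linarith))
  have hθρ : 0 < θ₁ * ρ := by positivity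
  have hup := hun z hzI (θ₁ * ρ) hθρ (by nlinarith)
  have hfinal : μ (ball z (θ₁ * ρ) ∩ ball y ((1 - η) * ρ)) ≤ μ (ball z (θ₁ * ρ) ∩ A) := by
    have hsub : ball z (θ₁ * ρ) ∩ ball y ((1 - η) * ρ) ⊆ (ball z (θ₁ * ρ) ∩ A) ∪
        ((nn μ Aᶜ ∩ Aᶜ) ∪ (ball y ((1 - η) * ρ) ∩ nn μ A)) := by
      intro w hw
      by_cases hwA : w ∈ A
      · exact Or.inl ⟨hw.1, hwA⟩
      · right
        by_cases hwn : w ∈ nn μ A
        · exact Or.inr ⟨hw.2, hwn⟩
        · left
          refine ⟨?_, hwA⟩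
          by_contra hcon
          have : w ∈ ifc (ball y ρ) μ A := by
            refine ⟨ball_subset_ball (by nlinarith) hw.2, ?_⟩
            rintro (h3 | h3)
            · exact hwn h3
            · exact hcon h3
          rw [hfree] at this
          exact this
    refine (measure_mono hsub).trans ((measure_union_le _ _).trans ?_)
    have h0 : μ ((nn μ Aᶜ ∩ Aᶜ) ∪ (ball y ((1 - η) * ρ) ∩ nn μ A)) = 0 := by
      rw [measure_union_null_iff]
      exact ⟨measure_nn μ Aᶜ, hB0⟩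
    rw [h0, add_zero]
  have h1 := ENNReal.toReal_mono ENNReal.ofReal_ne_top (hfinal.trans hup)
  rw [ENNReal.toReal_ofReal (by positivity)] at h1
  have h2 : (μ (ball z (θ₁ * ρ) ∩ ball y ((1 - η) * ρ))).toReal =
      μ.real (ball z (θ₁ * ρ) ∩ ball y ((1 - η) * ρ)) := rfl
  rw [h2] at h1
  linarith

end Pool.Agent.Helper83K9.HD
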